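import Pool.Agent.H330.P2.Spec

/-!
# ALG: identities for two skew-adjoint square roots
-/

set_option autoImplicit false

namespace Pool.Agent.H330.P2

open Module Polynomial

namespace ALG

variable {F V : Type} [Field F] [AddCommGroup V] [Module F V]

theorem pow_comm (z T : Module.End F V) (h : ∀ x, z (T x) = T (z x)) (n : ℕ) (x : V) :
    (z ^ n) (T x) = T ((z ^ n) x) := by
  induction n generalizing x with
  | zero => rfl
  | succ n ih =>
    rw [pow_succ, Module.End.mul_apply, Module.End.mul_apply, h, ih]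

theorem aeval_mono (z : Module.End F V) (n : ℕ) (a : F) (x : V) :
    aeval z (monomial n a) x = a • (z ^ n) x := by
  rw [aeval_monomial, Module.End.mul_apply, Module.algebraMap_end_apply]

theorem aeval_comm (z T : Module.End F V) (h : ∀ x, z (T x) = T (z x)) (p : F[X]) (x : V) :
    aeval z p (T x) = T (aeval z p x) := by
  induction p using Polynomial.induction_on' with
  | add p q hp hq =>
    rw [map_add, LinearMap.add_apply, LinearMap.add_apply, hp, hq, map_add]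
  | monomial n a =>
    rw [aeval_mono, aeval_mono, pow_comm z T h, map_smul]

theorem pow_adj (B : V →ₗ[F] V →ₗ[F] F) (z : Module.End F V) (h : ∀ x y, B (z x) y = B x (z y))
    (n : ℕ) (x y : V) : B ((z ^ n) x) y = B x ((z ^ n) y) := by
  induction n generalizing x y with
  | zero => rfl
  | succ n ih =>
    rw [pow_succ, Module.End.mul_apply, Module.End.mul_apply, ih, h,
      pow_comm z z (fun _ => rfl)]

theorem aeval_adj (B : V →ₗ[F] V →ₗ[F] F) (z : Module.End F V)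
    (h : ∀ x y, B (z x) y = B x (z y)) (p : F[X]) (x y : V) :
    B (aeval z p x) y = B x (aeval z p y) := by
  induction p using Polynomial.induction_on' with
  | add p q hp hq =>
    rw [map_add, LinearMap.add_apply, LinearMap.add_apply, map_add, LinearMap.add_apply, hp, hq,
      map_add]
  | monomial n a =>
    rw [aeval_mono, aeval_mono, map_smul, LinearMap.smul_apply, map_smul, pow_adj B z h]

end ALG

theorem h_ALG : S_ALG := by
  intro F V _ _ _ B ν J J' h2 hν hJ hJ'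
  obtain ⟨z, hz⟩ : ∃ z, z = Zop J J' := ⟨_, rfl⟩
  obtain ⟨N, hN⟩ : ∃ N, N = Nop ν J J' := ⟨_, rfl⟩
  rw [← hz, ← hN]
  have ez : ∀ x, z x = J (J' x) + J' (J x) := fun x => by rw [hz]; rfl
  have eN : ∀ x, N x = J' x - (2 * ν)⁻¹ • J (z x) := fun x => by rw [hN, hz]; rfl
  have a1 : ∀ x, z (J x) = J (z x) := fun x => by
    rw [ez, ez, hJ.sq, map_add, hJ.sq, map_smul, add_comm]
  have a2 : ∀ x, z (J' x) = J' (z x) := fun x => by
    rw [ez, ez, hJ'.sq, map_add, hJ'.sq, map_smul, add_comm]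
  have hc : (2 * ν)⁻¹ * ν = 2⁻¹ := by
    field_simp
  have h22 : (2 : F)⁻¹ + 2⁻¹ = 1 := by
    field_simp
    norm_num
  have a3 : ∀ x, N (J x) = -J (N x) := fun x => by
    rw [eN, eN, a1, hJ.sq, map_sub, map_smul, hJ.sq, smul_smul, hc]
    have e : z x = (2 : F)⁻¹ • z x + (2 : F)⁻¹ • z x := by
      rw [← add_smul, h22, one_smul]
    have e2 := ez x
    rw [neg_sub]
    rw [sub_eq_iff_eq_add]
    have e3 : (2 : F)⁻¹ • z x - J (J' x) + (2 : F)⁻¹ • z x =
        ((2 : F)⁻¹ • z x + (2 : F)⁻¹ • z x) - J (J' x) := by abel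
    rw [e3, ← e, e2]
    abel
  have a4 : ∀ x, N (z x) = z (N x) := fun x => by
    rw [eN, eN, map_sub, map_smul, a1, a2]
  have a5 : ∀ x, N (N x) = ν • x - (4 * ν)⁻¹ • z (z x) := fun x => by
    rw [eN (N x), ← a4, eN (z x), eN x, map_sub, map_sub, map_smul, map_smul, hJ'.sq, hJ.sq,
      smul_sub, smul_smul, smul_smul]
    have h44 : (4 : F) = 2 * 2 := by norm_num
    have h4 : (4 : F) ≠ 0 := by
      rw [h44]
      exact mul_ne_zero h2 h2
    have e1 : (2 * ν)⁻¹ * (2 * ν)⁻¹ * ν = (4 * ν)⁻¹ := by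
      have h5 : (2 * ν)⁻¹ * (2 * ν)⁻¹ * ν * (4 * ν) = 1 := by
        have h6 : (2 * ν) * (2 * ν)⁻¹ = 1 := mul_inv_cancel₀ (mul_ne_zero h2 hν)
        rw [h44]
        linear_combination ((2 * ν) * (2 * ν)⁻¹ + 1) * h6
      exact eq_inv_of_mul_eq_one_left h5
    have e2 : (2 * ν)⁻¹ = (4 * ν)⁻¹ + (4 * ν)⁻¹ := by
      have h5 : ((4 * ν)⁻¹ + (4 * ν)⁻¹) * (2 * ν) = 1 := by
        have h6 : (4 * ν) * (4 * ν)⁻¹ = 1 := mul_inv_cancel₀ (mul_ne_zero h4 hν)
        linear_combination h6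
      exact (eq_inv_of_mul_eq_one_left h5).symm
    rw [e1]
    have e3 : (2 * ν)⁻¹ • z (z x) = (2 * ν)⁻¹ • J (J' (z x)) + (2 * ν)⁻¹ • J' (J (z x)) := by
      rw [ez (z x), smul_add]
    have e4 : (2 * ν)⁻¹ • z (z x) = (4 * ν)⁻¹ • z (z x) + (4 * ν)⁻¹ • z (z x) := by
      rw [← add_smul, ← e2]
    have e5 : ν • x - (2 * ν)⁻¹ • J' (J (z x)) -
        ((2 * ν)⁻¹ • J (J' (z x)) - (4 * ν)⁻¹ • z (z x)) =
        ν • x - ((2 * ν)⁻¹ • J (J' (z x)) + (2 * ν)⁻¹ • J' (J (z x))) + (4 * ν)⁻¹ • z (z x) := by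
      abel
    rw [e5, ← e3, e4]
    abel
  have a6 : ∀ x y, B (z x) y = B x (z y) := fun x y => by
    rw [ez, ez, map_add, LinearMap.add_apply, hJ.skew, hJ'.skew, hJ'.skew, hJ.skew, map_add]
    ring
  have a7 : ∀ x y, B (N x) y = -B x (N y) := fun x y => by
    rw [eN, eN, map_sub, LinearMap.sub_apply, hJ'.skew, map_smul, LinearMap.smul_apply, hJ.skew,
      a6, a1, map_sub, map_smul]
    rw [smul_neg]
    ring
  exact ⟨a1, a2, a3, a4, a5, a6, a7, ALG.aeval_comm z J a1, ALG.aeval_comm z J' a2,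
    ALG.aeval_comm z N (fun x => (a4 x).symm), ALG.aeval_adj B z a6⟩

end Pool.Agent.H330.P2
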