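import Pool.Agent.H330.P2.Spec

namespace Pool.Agent.H330.P2

open Module Polynomial

namespace BACK

variable {F V W : Type} [Field F] [AddCommGroup V] [Module F V] [AddCommGroup W] [Module F W]

theorem pw (φ : W ≃ₗ[F] V) (A : Module.End F W) (A' : Module.End F V)
    (h : ∀ x, A' (φ x) = φ (A x)) (n : ℕ) : ∀ x, (A' ^ n) (φ x) = φ ((A ^ n) x) := by
  induction n with
  | zero => intro x; simp only [pow_zero, Module.End.one_apply]
  | succ n ih => intro x; rw [pow_succ, pow_succ, Module.End.mul_apply, Module.End.mul_apply, h, ih]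

theorem aev (φ : W ≃ₗ[F] V) (A : Module.End F W) (A' : Module.End F V)
    (h : ∀ x, A' (φ x) = φ (A x)) (p : F[X]) : ∀ x, aeval A' p (φ x) = φ (aeval A p x) := by
  induction p using Polynomial.induction_on' with
  | add p q hp hq => intro x; simp only [map_add, LinearMap.add_apply, hp, hq]
  | monomial n a =>
    intro x
    simp only [aeval_monomial, Module.End.mul_apply, Module.algebraMap_end_apply]
    rw [pw φ A A' h n x, map_smul]

theorem zop (φ : W ≃ₗ[F] V) (j k : Module.End F W) (J K : Module.End F V)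
    (hj : ∀ x, J (φ x) = φ (j x)) (hk : ∀ x, K (φ x) = φ (k x)) (x : W) :
    Zop J K (φ x) = φ (Zop j k x) := by
  simp only [Zop, LinearMap.add_apply, Module.End.mul_apply, hj, hk, map_add]

theorem nop (φ : W ≃ₗ[F] V) (ν : F) (j k : Module.End F W) (J K : Module.End F V)
    (hj : ∀ x, J (φ x) = φ (j x)) (hk : ∀ x, K (φ x) = φ (k x)) (x : W) :
    Nop ν J K (φ x) = φ (Nop ν j k x) := by
  simp only [Nop, LinearMap.sub_apply, LinearMap.smul_apply, Module.End.mul_apply,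
    zop φ j k J K hj hk, hj, hk, map_sub, map_smul]

end BACK

theorem h_BACK (hK : S_KOP) : S_BACK := by
  intro F V _ _ _ B ν J P u0 u1 l φ h2 hν hV hB hJ
  obtain ⟨hrt, -, -, hfr⟩ := hK F ν P u0 u1 h2 hν hV
  have hj : ∀ x, J (φ x) = φ (jop ν P x) := fun x => (hJ x).symm
  have hk : ∀ x, (φ.conj (kop ν P u0 u1)) (φ x) = φ (kop ν P u0 u1 x) := by
    intro x
    rw [LinearEquiv.conj_apply_apply, LinearEquiv.symm_apply_apply]
  have hz : ∀ x, Zop J (φ.conj (kop ν P u0 u1)) (φ x) = φ (Zop (jop ν P) (kop ν P u0 u1) x) :=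
    BACK.zop φ (jop ν P) (kop ν P u0 u1) J (φ.conj (kop ν P u0 u1)) hj hk
  have hn : ∀ x, Nop ν J (φ.conj (kop ν P u0 u1)) (φ x) = φ (Nop ν (jop ν P) (kop ν P u0 u1) x) :=
    BACK.nop φ ν (jop ν P) (kop ν P u0 u1) J (φ.conj (kop ν P u0 u1)) hj hk
  have ha : ∀ (p : F[X]) x, aeval (Zop J (φ.conj (kop ν P u0 u1))) p (φ x)
      = φ (aeval (Zop (jop ν P) (kop ν P u0 u1)) p x) := fun p x =>
    BACK.aev φ (Zop (jop ν P) (kop ν P u0 u1)) (Zop J (φ.conj (kop ν P u0 u1))) hz p x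
  refine ⟨⟨?_, ?_⟩, ⟨?_, ?_, ?_⟩⟩
  · intro v
    obtain ⟨x, rfl⟩ := φ.surjective v
    rw [hk, hk, (hrt l).sq, map_smul]
  · intro v v'
    obtain ⟨x, rfl⟩ := φ.surjective v
    obtain ⟨y, rfl⟩ := φ.surjective v'
    rw [hk, hk, hB, hB, (hrt l).skew]
  · apply LinearMap.ext
    intro v
    obtain ⟨x, rfl⟩ := φ.surjective v
    rw [ha, hfr.zero, LinearMap.zero_apply, LinearMap.zero_apply, map_zero]
  · rw [hn, ha, ha, hj, hfr.eig, map_add]
  · intro v
    obtain ⟨x, rfl⟩ := φ.surjective v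
    obtain ⟨a, b, hab⟩ := hfr.gen x
    refine ⟨a, b, ?_⟩
    rw [ha, ha, hj, ← map_add, ← hab]

end Pool.Agent.H330.P2
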