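import Pool.Agent.H330.P2.Spec

set_option autoImplicit false

namespace Pool.Agent.H330.P2

open Module Polynomial

namespace BAS

section

variable {F V : Type} [Field F] [AddCommGroup V] [Module F V]

theorem anti {B : V →ₗ[F] V →ₗ[F] F} (h : Sy B) (x y : V) : B x y = - B y x := by
  have h1 := h.alt (x + y)
  simp only [map_add, LinearMap.add_apply, h.alt, zero_add, add_zero] at h1
  linear_combination h1

/-- `x` is orthogonal to the family -/
def PW (B : V →ₗ[F] V →ₗ[F] F) (J : Module.End F V) {k : ℕ} (e : Fin k → V) (x : V) : Prop :=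
  ∀ i, B x (e i) = 0 ∧ B x (J (e i)) = 0

theorem PW.add {B : V →ₗ[F] V →ₗ[F] F} {J : Module.End F V} {k : ℕ} {e : Fin k → V} {x y : V}
    (hx : PW B J e x) (hy : PW B J e y) : PW B J e (x + y) := by
  intro i
  rw [map_add, LinearMap.add_apply, LinearMap.add_apply, (hx i).1, (hx i).2, (hy i).1, (hy i).2,
    add_zero]
  exact ⟨rfl, rfl⟩

theorem PW.smul {B : V →ₗ[F] V →ₗ[F] F} {J : Module.End F V} {k : ℕ} {e : Fin k → V} {x : V}
    (hx : PW B J e x) (c : F) : PW B J e (c • x) := by
  intro i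
  rw [map_smul, LinearMap.smul_apply, LinearMap.smul_apply, (hx i).1, (hx i).2, smul_zero]
  exact ⟨rfl, rfl⟩

theorem PW.J {B : V →ₗ[F] V →ₗ[F] F} {ν : F} {J : Module.End F V} (hJ : Rt B ν J) {k : ℕ}
    {e : Fin k → V} {x : V} (hx : PW B J e x) : PW B J e (J x) := by
  intro i
  rw [hJ.skew, hJ.skew, hJ.sq, map_smul, (hx i).1, (hx i).2, smul_zero, neg_zero]
  exact ⟨rfl, rfl⟩

/-- orthogonal projection -/
theorem proj {B : V →ₗ[F] V →ₗ[F] F} {ν : F} {J : Module.End F V} (hJ : Rt B ν J)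
    {k : ℕ} {e : Fin k → V} (h1 : ∀ i j, B (e i) (e j) = 0)
    (h2 : ∀ i j, B (e i) (J (e j)) = if i = j then 1 else 0) (z : V) :
    PW B J e (z - ∑ i, (B z (J (e i)) • e i - B z (e i) • J (e i))) := by
  classical
  intro j
  have e1 : ∀ i, B (J (e i)) (e j) = if i = j then -1 else 0 := by
    intro i
    rw [hJ.skew, h2]
    split_ifs <;> simp
  have e2 : ∀ i, B (J (e i)) (J (e j)) = 0 := by
    intro i
    rw [hJ.skew, hJ.sq, map_smul, h1, smul_zero, neg_zero]
  constructor
  · rw [map_sub, map_sum, LinearMap.sub_apply, LinearMap.sum_apply]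
    have h3 : ∑ i, (B (B z (J (e i)) • e i - B z (e i) • J (e i))) (e j) =
        ∑ i, if i = j then B z (e i) else 0 := by
      refine Finset.sum_congr rfl fun i _ => ?_
      rw [map_sub, map_smul, map_smul, LinearMap.sub_apply, LinearMap.smul_apply,
        LinearMap.smul_apply, h1, e1]
      split_ifs <;> simp
    rw [h3, Finset.sum_ite_eq' Finset.univ j, if_pos (Finset.mem_univ _), sub_self]
  · rw [map_sub, map_sum, LinearMap.sub_apply, LinearMap.sum_apply]
    have h3 : ∑ i, (B (B z (J (e i)) • e i - B z (e i) • J (e i))) (J (e j)) =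
        ∑ i, if i = j then B z (J (e i)) else 0 := by
      refine Finset.sum_congr rfl fun i _ => ?_
      rw [map_sub, map_smul, map_smul, LinearMap.sub_apply, LinearMap.smul_apply,
        LinearMap.smul_apply, h2, e2]
      split_ifs <;> simp
    rw [h3, Finset.sum_ite_eq' Finset.univ j, if_pos (Finset.mem_univ _), sub_self]

/-- there is an anisotropic vector orthogonal to the family -/
theorem exists_ne {B : V →ₗ[F] V →ₗ[F] F} {ν : F} {J : Module.End F V} (h2F : (2 : F) ≠ 0)
    (hν : ν ≠ 0) (hB : Sy B) (hJ : Rt B ν J)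
    {k : ℕ} {e : Fin k → V} (h1 : ∀ i j, B (e i) (e j) = 0)
    (h2 : ∀ i j, B (e i) (J (e j)) = if i = j then 1 else 0) {w : V} (hw : PW B J e w)
    (hw0 : w ≠ 0) : ∃ v, PW B J e v ∧ B v (J v) ≠ 0 := by
  by_contra hcon
  have h3 : ∀ v, PW B J e v → B v (J v) = 0 := by
    intro v hv
    by_contra h
    exact hcon ⟨v, hv, h⟩
  have h4 : ∀ x y, PW B J e x → PW B J e y → B x (J y) = 0 := by
    intro x y hx hy
    have h5 := h3 (x + y) (hx.add hy)
    rw [map_add, map_add, LinearMap.add_apply, map_add, map_add, h3 x hx, h3 y hy, zero_add,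
      add_zero] at h5
    have h6 : B y (J x) = B x (J y) := by
      rw [anti hB y (J x), hJ.skew, neg_neg]
    rw [h6, ← two_mul] at h5
    exact (mul_eq_zero.1 h5).resolve_left h2F
  apply hw0
  apply hB.nondeg
  intro z
  have hz := proj hJ h1 h2 z
  obtain ⟨u, hu⟩ : ∃ u, u = z - ∑ i, (B z (J (e i)) • e i - B z (e i) • J (e i)) := ⟨_, rfl⟩
  rw [← hu] at hz
  have hzu : z = u + ∑ i, (B z (J (e i)) • e i - B z (e i) • J (e i)) := by
    rw [hu, sub_add_cancel]
  have h5 : B w (∑ i, (B z (J (e i)) • e i - B z (e i) • J (e i))) = 0 := by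
    rw [map_sum]
    refine Finset.sum_eq_zero fun i _ => ?_
    rw [map_sub, map_smul, map_smul, (hw i).1, (hw i).2, smul_zero, smul_zero, sub_zero]
  have h6 : B w u = 0 := by
    have h7 : u = J (ν⁻¹ • J u) := by
      rw [map_smul, hJ.sq, smul_smul, inv_mul_cancel₀ hν, one_smul]
    rw [h7]
    exact h4 w _ hw ((hz.J hJ).smul _)
  rw [hzu, map_add, h6, h5, add_zero]

end

/-- the binary form represents everything -/
theorem rep {F : Type} [Field F] [Finite F] (h2F : (2 : F) ≠ 0) {ν : F} (hν : ν ≠ 0) (c : F) :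
    ∃ α β : F, α ^ 2 - ν * β ^ 2 = c := by
  have := Fintype.ofFinite F
  have hchar : ringChar F ≠ 2 := by
    intro h
    apply h2F
    have h1 := ringChar.Nat.cast_ringChar (R := F)
    rw [h] at h1
    exact_mod_cast h1
  have hodd := FiniteField.odd_card_of_char_ne_two hchar
  obtain ⟨a, b, hab⟩ := FiniteField.exists_root_sum_quadratic (R := F) (f := X ^ 2)
    (g := C (-ν) * X ^ 2 + C 0 * X + C (-c)) (degree_X_pow 2)
    (degree_quadratic (neg_ne_zero.2 hν)) hodd
  refine ⟨a, b, ?_⟩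
  simp only [eval_pow, eval_X, eval_add, eval_mul, eval_C, zero_mul, add_zero] at hab
  linear_combination hab

theorem fam {F V : Type} [Field F] [Finite F] [AddCommGroup V] [Module F V] [Finite V]
    {B : V →ₗ[F] V →ₗ[F] F} {ν : F} {J : Module.End F V} {m : ℕ} (h2F : (2 : F) ≠ 0)
    (hν : ν ≠ 0) (hB : Sy B) (hJ : Rt B ν J) (hm : finrank F V = 2 * m) :
    ∀ k : ℕ, k ≤ m → ∃ e : Fin k → V, (∀ i j, B (e i) (e j) = 0) ∧
      ∀ i j, B (e i) (J (e j)) = if i = j then 1 else 0 := by
  intro k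
  induction k with
  | zero =>
    intro _
    exact ⟨fun i => i.elim0, fun i => i.elim0, fun i => i.elim0⟩
  | succ k ih =>
    intro hk
    obtain ⟨e, h1, h2⟩ := ih (by omega)
    -- a nonzero orthogonal vector
    let L : V →ₗ[F] (Fin k ⊕ Fin k → F) := LinearMap.pi fun s =>
      s.elim (fun i => B.flip (e i)) (fun i => B.flip (J (e i)))
    have hker : LinearMap.ker L ≠ ⊥ := by
      apply LinearMap.ker_ne_bot_of_finrank_lt
      rw [finrank_pi, Fintype.card_sum, Fintype.card_fin, hm]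
      omega
    obtain ⟨w, hwL, hw0⟩ := Submodule.exists_mem_ne_zero_of_ne_bot hker
    have hw : PW B J e w := by
      intro i
      have h3 : L w = 0 := hwL
      exact ⟨congrFun h3 (Sum.inl i), congrFun h3 (Sum.inr i)⟩
    obtain ⟨v, hv, hv0⟩ := exists_ne h2F hν hB hJ h1 h2 hw hw0
    obtain ⟨α, β, hαβ⟩ := rep h2F hν (B v (J v))⁻¹
    obtain ⟨u, hu⟩ : ∃ u, u = α • v + β • J v := ⟨_, rfl⟩
    have huW : PW B J e u := by
      rw [hu]
      exact (hv.smul α).add ((hv.J hJ).smul β)
    have huu : B u (J u) = 1 := by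
      have h3 : B (J v) v = - B v (J v) := hJ.skew v v
      have h4 : J u = α • J v + (β * ν) • v := by
        rw [hu, map_add, map_smul, map_smul, hJ.sq, smul_smul]
      rw [h4, hu]
      simp only [map_add, map_smul, LinearMap.add_apply, LinearMap.smul_apply, smul_eq_mul,
        hB.alt, h3]
      have h5 : (α ^ 2 - ν * β ^ 2) * B v (J v) = 1 := by
        rw [hαβ, inv_mul_cancel₀ hv0]
      linear_combination h5
    have f1 : ∀ i, B (e i) u = 0 := by
      intro i
      rw [anti hB, (huW i).1, neg_zero]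
    have f2 : ∀ i, B (e i) (J u) = 0 := by
      intro i
      rw [anti hB, hJ.skew, (huW i).2, neg_zero, neg_zero]
    refine ⟨Fin.cons u e, ?_, ?_⟩
    · intro i j
      refine Fin.cases ?_ (fun i => ?_) i <;> refine Fin.cases ?_ (fun j => ?_) j
      · rw [Fin.cons_zero]; exact hB.alt u
      · rw [Fin.cons_zero, Fin.cons_succ]; exact (huW j).1
      · rw [Fin.cons_zero, Fin.cons_succ]; exact f1 i
      · rw [Fin.cons_succ, Fin.cons_succ]; exact h1 i j
    · intro i j
      refine Fin.cases ?_ (fun i => ?_) i <;> refine Fin.cases ?_ (fun j => ?_) j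
      · rw [Fin.cons_zero, if_pos rfl]; exact huu
      · rw [Fin.cons_zero, Fin.cons_succ, if_neg (Fin.succ_ne_zero j).symm]; exact (huW j).2
      · rw [Fin.cons_zero, Fin.cons_succ, if_neg (Fin.succ_ne_zero i)]; exact f2 i
      · rw [Fin.cons_succ, Fin.cons_succ, h2 i j]
        simp only [Fin.succ_inj]

end BAS

theorem h_BAS : S_BAS := by
  intro F V _ _ _ _ _ B ν J m h2F hν hB hJ hm
  have hν0 : ν ≠ 0 := by
    intro h
    apply hν
    rw [h]
    exact ⟨0, by ring⟩
  exact BAS.fam h2F hν0 hB hJ hm m le_rfl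

end Pool.Agent.H330.P2
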