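import Pool.Agent.H330.P2.Spec

/-!
# MP_971469_al: the lemma CNT (helper105)
-/

namespace Pool.Agent.H330.P2

open Module Polynomial

namespace CNT

theorem finite_root {F : Type} [Field F] [Finite F] {P : F[X]} (hP : P.Monic) :
    Finite (AdjoinRoot P) := by
  have : Module.Finite F (AdjoinRoot P) := (AdjoinRoot.powerBasis' hP).finite
  exact Module.finite_of_finite F

variable {F V : Type} [Field F] [AddCommGroup V] [Module F V]

theorem zop_comm {ν : F} {J J' : Module.End F V} {P u0 u1 : F[X]}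
    (φ : (AdjoinRoot P × AdjoinRoot P) ≃ₗ[F] V) (h1 : ∀ x, φ (jop ν P x) = J (φ x))
    (h2 : ∀ x, φ (kop ν P u0 u1 x) = J' (φ x)) (p : F[X]) (x : AdjoinRoot P × AdjoinRoot P) :
    φ (aeval (Zop (jop ν P) (kop ν P u0 u1)) p x) = aeval (Zop J J') p (φ x) := by
  have hz : ∀ x, φ (Zop (jop ν P) (kop ν P u0 u1) x) = Zop J J' (φ x) := by
    intro x
    simp only [Zop, LinearMap.add_apply, Module.End.mul_apply, map_add, h1, h2]
  have hpow : ∀ (n : ℕ) (x : AdjoinRoot P × AdjoinRoot P),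
      φ ((Zop (jop ν P) (kop ν P u0 u1) ^ n) x) = (Zop J J' ^ n) (φ x) := by
    intro n
    induction n with
    | zero => intro x; simp
    | succ n ih =>
      intro x
      rw [pow_succ, pow_succ, Module.End.mul_apply, Module.End.mul_apply, ih, hz]
  induction p using Polynomial.induction_on' with
  | add p q hp hq => simp only [map_add, LinearMap.add_apply, hp, hq]
  | monomial n a =>
    rw [aeval_monomial, aeval_monomial]
    simp only [Module.End.mul_apply, Module.algebraMap_end_apply, map_smul, hpow]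

/-- The coordinate map is determined by `J'` and the frame vector. -/
theorem phi_eq (hK : S_KOP) {ν : F} {J J' : Module.End F V} {P u0 u1 : F[X]} (h2 : (2 : F) ≠ 0)
    (hν : ν ≠ 0) (hV : Vu ν P u0 u1) (φ : (AdjoinRoot P × AdjoinRoot P) ≃ₗ[F] V)
    (h1 : ∀ x, φ (jop ν P x) = J (φ x)) (h3 : ∀ x, φ (kop ν P u0 u1 x) = J' (φ x)) (a b : F[X]) :
    φ (AdjoinRoot.mk P a, AdjoinRoot.mk P b) =
      aeval (Zop J J') a (φ (1, 0)) + J (aeval (Zop J J') b (φ (1, 0))) := by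
  obtain ⟨-, k2, -, -⟩ := hK F ν P u0 u1 h2 hν hV
  rw [← zop_comm φ h1 h3, ← zop_comm φ h1 h3, ← h1, ← map_add, k2, k2]
  congr 1
  ext
  · simp [jop]
  · simp [jop]

theorem conj_int {P : F[X]} (φ : (AdjoinRoot P × AdjoinRoot P) ≃ₗ[F] V)
    (K : Module.End F (AdjoinRoot P × AdjoinRoot P)) (x : AdjoinRoot P × AdjoinRoot P) :
    φ (K x) = φ.conj K (φ x) := by
  rw [LinearEquiv.conj_apply_apply, LinearEquiv.symm_apply_apply]

end CNT

theorem h_CNT (hT : S_TORS) (hK : S_KOP) (hB : S_BACK) (hM : S_MAP) : S_CNT := by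
  intro F V _ _ _ _ _ B ν J P u0 u1 h2 hν hS hJ hP hd hV
  have hν0 : ν ≠ 0 := by
    rintro rfl
    exact hν ⟨0, by simp⟩
  have := CNT.finite_root hP
  have : Finite (AdjoinRoot P →ₗ[F] F) :=
    Finite.of_injective (fun l => (l : AdjoinRoot P → F)) DFunLike.coe_injective
  have : Finite ((AdjoinRoot P × AdjoinRoot P) ≃ₗ[F] V) :=
    Finite.of_injective (fun l => (l : AdjoinRoot P × AdjoinRoot P → V)) DFunLike.coe_injective
  have : Fintype {l : AdjoinRoot P →ₗ[F] F // ND l} := Fintype.ofFinite _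
  have hcard : Nat.card (Σ l : {l : AdjoinRoot P →ₗ[F] F // ND l},
      {φ : (AdjoinRoot P × AdjoinRoot P) ≃ₗ[F] V //
        (∀ x y, B (φ x) (φ y) = frm l.1 x y) ∧ ∀ x, φ (jop ν P x) = J (φ x)}) =
      Nat.card {l : AdjoinRoot P →ₗ[F] F // ND l} * cn B J := by
    rw [Nat.card_sigma, Finset.sum_congr rfl
      (fun l _ => hT F V B ν J P l.1 h2 hν hS hJ hP hd l.2), Finset.sum_const, smul_eq_mul,
      Finset.card_univ, Nat.card_eq_fintype_card]
  rw [← hcard]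
  symm
  refine Nat.card_eq_of_bijective (fun q => ⟨(q.2.1.conj (kop ν P u0 u1), q.2.1 (1, 0)),
    hB F V B ν J P u0 u1 q.1.1 q.2.1 h2 hν0 hV q.2.2.1 q.2.2.2⟩) ⟨?_, ?_⟩
  · rintro ⟨⟨l, hl⟩, ⟨φ, hφ⟩⟩ ⟨⟨l', hl'⟩, ⟨φ', hφ'⟩⟩ h
    simp only [Subtype.mk.injEq, Prod.mk.injEq] at h
    obtain ⟨e1, e2⟩ := h
    have hφφ : φ = φ' := by
      ext x
      · obtain ⟨x1, x2⟩ := x
        obtain ⟨a, rfl⟩ := AdjoinRoot.mk_surjective x1
        obtain ⟨b, rfl⟩ := AdjoinRoot.mk_surjective x2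
        rw [CNT.phi_eq hK h2 hν0 hV φ hφ.2 (CNT.conj_int φ _) a b,
          CNT.phi_eq hK h2 hν0 hV φ' hφ'.2 (CNT.conj_int φ' _) a b, e1, e2]
    subst hφφ
    have hll : l = l' := by
      ext r
      have h3 := hφ.1 (1, 0) (0, r)
      have h4 := hφ'.1 (1, 0) (0, r)
      rw [h3, frm_apply, frm_apply] at h4
      simpa using h4
    subst hll
    rfl
  · rintro ⟨⟨J', w⟩, hR, hF⟩
    obtain ⟨l, φ, hl, h3, h4, h5, h6⟩ := hM F V B ν J J' P u0 u1 w h2 hν0 hS hJ hR hP hd hF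
    refine ⟨⟨⟨l, hl⟩, ⟨φ, h3, h4⟩⟩, ?_⟩
    simp only [Subtype.mk.injEq, Prod.mk.injEq]
    refine ⟨?_, h6⟩
    ext x
    rw [LinearEquiv.conj_apply_apply, h5, LinearEquiv.apply_symm_apply]

end Pool.Agent.H330.P2

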