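import Pool.Agent.H330.P2.Spec

/-!
# CNTC: polynomials nonzero at two points
-/

namespace Pool.Agent.H330.P2

open Module Polynomial

namespace CNTC

section

variable {F : Type} [Field F]

/-- the polynomial of degree less than `n` with given coefficients -/
noncomputable def pl (n : ℕ) (a : Fin n → F) : F[X] := ∑ i : Fin n, C (a i) * X ^ (i : ℕ)

theorem pl_deg (n : ℕ) (a : Fin n → F) : (pl n a).degree < n := degree_sum_fin_lt a

theorem pl_coeff (n : ℕ) (a : Fin n → F) (j : Fin n) : (pl n a).coeff (j : ℕ) = a j := by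
  unfold pl
  rw [finsetSum_coeff, Finset.sum_eq_single j]
  · rw [coeff_C_mul, coeff_X_pow, if_pos rfl, mul_one]
  · intro i _ hij
    rw [coeff_C_mul, coeff_X_pow, if_neg (fun h => hij (Fin.ext h.symm)), mul_zero]
  · intro h
    exact absurd (Finset.mem_univ j) h

theorem pl_inj (n : ℕ) {a b : Fin n → F} (h : pl n a = pl n b) : a = b := by
  funext j
  rw [← pl_coeff n a j, h, pl_coeff]

/-- `(X - c) (X + c)` -/
noncomputable def MM (c : F) : F[X] := (X - C c) * (X - C (-c))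

theorem MM_monic (c : F) : (MM c).Monic := (monic_X_sub_C c).mul (monic_X_sub_C (-c))

theorem MM_deg (c : F) : (MM c).natDegree = 2 := by
  unfold MM
  rw [(monic_X_sub_C c).natDegree_mul (monic_X_sub_C (-c)), natDegree_X_sub_C,
    natDegree_X_sub_C]

theorem MM_eval1 (c : F) : (MM c).eval c = 0 := by
  unfold MM
  simp

theorem MM_eval2 (c : F) : (MM c).eval (-c) = 0 := by
  unfold MM
  simp

/-- the linear polynomial with values `x` at `c` and `y` at `-c` -/
noncomputable def rr (c x y : F) : F[X] := C ((x - y) / (2 * c)) * X + C ((x + y) / 2)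

theorem rr_eval1 {c : F} (h2 : (2 : F) ≠ 0) (hc : c ≠ 0) (x y : F) : (rr c x y).eval c = x := by
  unfold rr
  rw [eval_add, eval_mul, eval_C, eval_X, eval_C]
  field_simp
  ring

theorem rr_eval2 {c : F} (h2 : (2 : F) ≠ 0) (hc : c ≠ 0) (x y : F) :
    (rr c x y).eval (-c) = y := by
  unfold rr
  rw [eval_add, eval_mul, eval_C, eval_X, eval_C]
  field_simp
  ring

/-- the polynomial with the parameters `a, x, y` -/
noncomputable def PP (n : ℕ) (c : F) (a : Fin n → F) (x y : F) : F[X] :=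
  MM c * (X ^ n + pl n a) + rr c x y

theorem A_monic (n : ℕ) (a : Fin n → F) : (X ^ n + pl n a).Monic := monic_X_pow_add (pl_deg n a)

theorem A_deg (n : ℕ) (a : Fin n → F) : (X ^ n + pl n a).natDegree = n := by
  apply natDegree_eq_of_degree_eq_some
  rw [degree_add_eq_left_of_degree_lt (by rw [degree_X_pow]; exact pl_deg n a), degree_X_pow]

theorem MA_deg (n : ℕ) (c : F) (a : Fin n → F) :
    (MM c * (X ^ n + pl n a)).natDegree = n + 2 := by
  rw [(MM_monic c).natDegree_mul (A_monic n a), MM_deg, A_deg, add_comm]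

theorem rr_deg (c x y : F) : (rr c x y).natDegree ≤ 1 := by
  unfold rr
  exact natDegree_linear_le

theorem PP_deg (n : ℕ) (c : F) (a : Fin n → F) (x y : F) :
    (PP n c a x y).natDegree = n + 2 := by
  unfold PP
  rw [natDegree_add_eq_left_of_natDegree_lt, MA_deg]
  rw [MA_deg]
  have := rr_deg c x y
  omega

theorem PP_monic (n : ℕ) (c : F) (a : Fin n → F) (x y : F) : (PP n c a x y).Monic := by
  unfold PP
  apply ((MM_monic c).mul (A_monic n a)).add_of_left
  apply degree_lt_degree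
  rw [MA_deg]
  have := rr_deg c x y
  omega

theorem PP_eval1 (n : ℕ) {c : F} (h2 : (2 : F) ≠ 0) (hc : c ≠ 0) (a : Fin n → F) (x y : F) :
    (PP n c a x y).eval c = x := by
  unfold PP
  rw [eval_add, eval_mul, MM_eval1, zero_mul, zero_add, rr_eval1 h2 hc]

theorem PP_eval2 (n : ℕ) {c : F} (h2 : (2 : F) ≠ 0) (hc : c ≠ 0) (a : Fin n → F) (x y : F) :
    (PP n c a x y).eval (-c) = y := by
  unfold PP
  rw [eval_add, eval_mul, MM_eval2, zero_mul, zero_add, rr_eval2 h2 hc]

theorem PP_inj (n : ℕ) {c : F} (h2 : (2 : F) ≠ 0) (hc : c ≠ 0) {a b : Fin n → F} {x y x' y' : F}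
    (h : PP n c a x y = PP n c b x' y') : a = b ∧ x = x' ∧ y = y' := by
  have h1 : x = x' := by
    rw [← PP_eval1 n h2 hc a x y, h, PP_eval1 n h2 hc]
  have h3 : y = y' := by
    rw [← PP_eval2 n h2 hc a x y, h, PP_eval2 n h2 hc]
  refine ⟨?_, h1, h3⟩
  subst h1
  subst h3
  unfold PP at h
  have h4 := add_right_cancel h
  have h5 := mul_left_cancel₀ (MM_monic c).ne_zero h4
  exact pl_inj n (add_left_cancel h5)

theorem fin_deg [Finite F] (p : F[X] → Prop) (m : ℕ) :
    Finite {P : F[X] // P.Monic ∧ P.natDegree = m ∧ p P} := by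
  apply Finite.of_injective (fun P : {P : F[X] // P.Monic ∧ P.natDegree = m ∧ p P} =>
    fun i : Fin (m + 1) => P.1.coeff (i : ℕ))
  intro P P' h
  apply Subtype.ext
  ext i
  rcases Nat.lt_or_ge i (m + 1) with hi | hi
  · exact congrFun h ⟨i, hi⟩
  · rw [coeff_eq_zero_of_natDegree_lt (by rw [P.2.2.1]; omega),
      coeff_eq_zero_of_natDegree_lt (by rw [P'.2.2.1]; omega)]

theorem three_le [Finite F] (h2 : (2 : F) ≠ 0) : 3 ≤ Nat.card F := by
  classical
  have : Fintype F := Fintype.ofFinite F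
  rw [Nat.card_eq_fintype_card]
  have h3 : ({0, 1, -1} : Finset F).card = 3 := by
    apply Finset.card_eq_three.2
    refine ⟨0, 1, -1, zero_ne_one, ?_, ?_, rfl⟩
    · intro h
      have h4 : (1 : F) = 0 := by
        rw [eq_comm, neg_eq_zero] at h
        exact h
      exact one_ne_zero h4
    · intro h
      apply h2
      have h4 : (2 : F) = 1 - (-1) := by ring
      rw [h4, ← h, sub_self]
  rw [← h3]
  exact Finset.card_le_univ _

end

end CNTC

open CNTC in
theorem h_CNTC : S_CNTC := by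
  intro F _ _ ν m h2 hν hm
  obtain ⟨n, rfl⟩ : ∃ n, m = n + 2 := ⟨m - 2, by omega⟩
  have hc : 2 * ν ≠ 0 := mul_ne_zero h2 hν
  have hfin := fin_deg (F := F) (fun P => Cp ν P) (n + 2)
  let f : (Fin n → F) × Fˣ × Fˣ → {P : F[X] // P.Monic ∧ P.natDegree = n + 2 ∧ Cp ν P} :=
    fun q => ⟨PP n (2 * ν) q.1 (q.2.1 : F) (q.2.2 : F), PP_monic _ _ _ _ _, PP_deg _ _ _ _ _, by
      unfold Cp
      rw [PP_eval1 n h2 hc, PP_eval2 n h2 hc]
      exact ⟨q.2.1.ne_zero, q.2.2.ne_zero⟩⟩
  have hf : Function.Injective f := by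
    intro q q' h
    have h1 : PP n (2 * ν) q.1 (q.2.1 : F) (q.2.2 : F) =
        PP n (2 * ν) q'.1 (q'.2.1 : F) (q'.2.2 : F) := congrArg Subtype.val h
    obtain ⟨h3, h4, h5⟩ := PP_inj n h2 hc h1
    exact Prod.ext h3 (Prod.ext (Units.ext h4) (Units.ext h5))
  have h3 := Nat.card_le_card_of_injective f hf
  rw [Nat.card_prod, Nat.card_prod, Nat.card_fun, Nat.card_eq_fintype_card (α := Fin n),
    Fintype.card_fin, Nat.card_units] at h3
  have h4 := three_le h2
  obtain ⟨k, hk⟩ : ∃ k, Nat.card F = k + 3 := ⟨Nat.card F - 3, by omega⟩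
  rw [hk] at h3 ⊢
  have h5 : k + 3 - 1 = k + 2 := by omega
  rw [h5] at h3
  have h6 : (k + 3) ^ 2 ≤ 3 * ((k + 2) * (k + 2)) := by nlinarith
  calc (k + 3) ^ (n + 2) = (k + 3) ^ n * (k + 3) ^ 2 := pow_add _ _ _
    _ ≤ (k + 3) ^ n * (3 * ((k + 2) * (k + 2))) := Nat.mul_le_mul_left _ h6
    _ = 3 * ((k + 3) ^ n * ((k + 2) * (k + 2))) := by ring
    _ ≤ _ := Nat.mul_le_mul_left 3 h3

end Pool.Agent.H330.P2
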