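import Pool.Agent.H330.P2.Spec

namespace Pool.Agent.H330.P2

open Module Polynomial

namespace CNTP

section
variable {F : Type} [Field F] [Finite F]

theorem card_ge (h2 : (2 : F) ≠ 0) : 3 ≤ Nat.card F := by
  classical
  have : Fintype F := Fintype.ofFinite F
  rw [Nat.card_eq_fintype_card]
  have h01 : (0 : F) ≠ 1 := zero_ne_one
  have h12 : (1 : F) ≠ 2 := by
    intro h
    have h3 : (2 : F) = 1 + 1 := by norm_num
    rw [h3] at h
    exact one_ne_zero (left_eq_add.1 h)
  have h3 : ({0, 1, 2} : Finset F).card = 3 := by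
    rw [Finset.card_eq_three]
    exact ⟨0, 1, 2, h01, h2.symm, h12, rfl⟩
  rw [← h3]
  exact Finset.card_le_univ _

/-- the monic irreducible polynomials of degree `d` -/
def Ir (F : Type) [Field F] (d : ℕ) : Set F[X] := {f | f.Monic ∧ Irreducible f ∧ f.natDegree = d}

theorem finset_bound {d : ℕ} (hd : 1 ≤ d) (S : Finset F[X]) (hS : ∀ f ∈ S, f ∈ Ir F d) :
    d * S.card ≤ Nat.card F ^ d := by
  classical
  have hQ : 1 < Nat.card F := Finite.one_lt_card
  have h1 : ∏ f ∈ S, f ∣ X ^ (Nat.card F) ^ d - X := by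
    refine Finset.prod_dvd_of_coprime (s := fun f : F[X] => f) ?_ ?_
    · intro f hf g hg hfg
      obtain ⟨hf1, hf2, -⟩ := hS f hf
      obtain ⟨hg1, hg2, -⟩ := hS g hg
      refine hf2.coprime_iff_not_dvd.2 fun hdvd => hfg ?_
      exact eq_of_monic_of_associated hf1 hg1 (hf2.associated_of_dvd hg2 hdvd)
    · intro f hf
      obtain ⟨hf1, hf2, hf3⟩ := hS f hf
      exact hf2.natDegree_dvd_iff_dvd_X_pow_card_pow_sub_X.1 (by rw [hf3])
  have h2 := natDegree_le_of_dvd h1 (FiniteField.X_pow_card_pow_sub_X_ne_zero F (by omega) hQ)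
  rw [FiniteField.X_pow_card_pow_sub_X_natDegree_eq F (by omega) hQ,
    natDegree_prod_of_monic _ _ (fun f hf => (hS f hf).1),
    Finset.sum_congr rfl (fun f hf => (hS f hf).2.2), Finset.sum_const, smul_eq_mul, mul_comm] at h2
  exact h2

theorem ir_finite {d : ℕ} (hd : 1 ≤ d) : (Ir F d).Finite := by
  by_contra hinf
  obtain ⟨t, ht, hc⟩ := Set.Infinite.exists_subset_card_eq hinf (Nat.card F ^ d + 1)
  have h1 := finset_bound hd t (fun f hf => ht hf)
  rw [hc] at h1
  nlinarith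

theorem ir_card {d : ℕ} (hd : 1 ≤ d) : d * Nat.card (Ir F d) ≤ Nat.card F ^ d := by
  have h1 := finset_bound hd (ir_finite (F := F) hd).toFinset (fun f hf => by simpa using hf)
  rwa [← Set.ncard_eq_toFinset_card (Ir F d) (ir_finite hd)] at h1

theorem exists_rep {m : ℕ} (hm : 1 ≤ m) {P : F[X]} (hP : P.Monic) (hd : P.natDegree = m)
    (hp : Primary P) : ∃ d ∈ m.divisors, ∃ f ∈ Ir F d, P = f ^ (m / d) := by
  obtain ⟨f, k, hf, rfl⟩ := hp
  have hf0 : f ≠ 0 := hf.ne_zero
  have hlc : f.leadingCoeff ≠ 0 := leadingCoeff_ne_zero.2 hf0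
  have hk : f.leadingCoeff ^ k = 1 := by
    rw [← leadingCoeff_pow]
    exact hP
  set g : F[X] := C (f.leadingCoeff)⁻¹ * f with hg
  have hgm : g.Monic := by
    rw [hg, mul_comm]
    exact monic_mul_leadingCoeff_inv hf0
  have hgd : g.natDegree = f.natDegree := by
    rw [hg, natDegree_C_mul (inv_ne_zero hlc)]
  have hass : Associated f g := by
    refine ⟨Units.map (C : F →+* F[X]).toMonoidHom (Units.mk0 _ (inv_ne_zero hlc)), ?_⟩
    rw [hg, mul_comm]
    rfl
  have hgi : Irreducible g := hass.irreducible hf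
  have hgk : g ^ k = f ^ k := by
    rw [hg, mul_pow, ← C_pow, inv_pow, hk, inv_one, C_1, one_mul]
  have hdk : k * f.natDegree = m := by rw [← hd, natDegree_pow]
  have hfd : 0 < f.natDegree := hf.natDegree_pos
  refine ⟨f.natDegree, ?_, g, ⟨hgm, hgi, hgd⟩, ?_⟩
  · rw [Nat.mem_divisors]
    exact ⟨⟨k, by rw [mul_comm]; exact hdk.symm⟩, by omega⟩
  · rw [← hdk, Nat.mul_div_cancel _ hfd, hgk]

theorem prim_card {m : ℕ} (hm : 1 ≤ m) :
    Nat.card {P : F[X] // P.Monic ∧ P.natDegree = m ∧ Primary P} ≤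
      ∑ d ∈ m.divisors, Nat.card (Ir F d) := by
  classical
  have hfin : ∀ d : m.divisors, Finite (Ir F d.1) := fun d =>
    (ir_finite (F := F) (Nat.pos_of_mem_divisors d.2)).to_subtype
  have h1 : ∀ P : {P : F[X] // P.Monic ∧ P.natDegree = m ∧ Primary P},
      ∃ z : (Σ d : m.divisors, Ir F d.1), P.1 = z.2.1 ^ (m / z.1.1) := by
    rintro ⟨P, h1, h2, h3⟩
    obtain ⟨d, hd, f, hf, h⟩ := exists_rep hm h1 h2 h3
    exact ⟨⟨⟨d, hd⟩, ⟨f, hf⟩⟩, h⟩
  choose z hz using h1
  have hinj : Function.Injective z := by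
    intro P P' h
    apply Subtype.ext
    rw [hz P, hz P', h]
  refine (Nat.card_le_card_of_injective z hinj).trans ?_
  rw [Nat.card_sigma, Finset.sum_coe_sort m.divisors (fun d => Nat.card (Ir F d))]

end

theorem geo {Q : ℕ} (hQ : 3 ≤ Q) (e : ℕ) : 2 * ∑ d ∈ Finset.Icc 1 e, Q ^ d ≤ 3 * Q ^ e := by
  induction e with
  | zero => simp
  | succ e ih =>
    rw [Finset.sum_Icc_succ_top (by omega), mul_add]
    have h1 : 3 * Q ^ e ≤ Q ^ (e + 1) := by
      rw [pow_succ, mul_comm (Q ^ e)]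
      exact Nat.mul_le_mul_right _ hQ
    omega

theorem num : ∀ m : ℕ, 1 ≤ m → 3 * m ≤ 2 * 3 ^ (m - m / 3)
  | 0, h => by omega
  | 1, _ => by norm_num
  | 2, _ => by norm_num
  | 3, _ => by norm_num
  | m + 4, _ => by
    have ih := num (m + 1) (by omega)
    have e : m + 4 - (m + 4) / 3 = (m + 1 - (m + 1) / 3) + 2 := by omega
    rw [e, pow_add]
    omega

end CNTP

open CNTP

theorem h_CNTP : S_CNTP := by
  classical
  intro F _ _ m h2 hodd hm
  have hQ := card_ge h2
  set Q := Nat.card F with hQdef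
  have h1 : m * Nat.card {P : F[X] // P.Monic ∧ P.natDegree = m ∧ Primary P} ≤
      m * ∑ d ∈ m.divisors, Nat.card (Ir F d) := Nat.mul_le_mul_left _ (prim_card (by omega))
  refine h1.trans ?_
  rw [Finset.mul_sum, ← Nat.cons_self_properDivisors (by omega : m ≠ 0), Finset.sum_cons, two_mul]
  have hsub : m.properDivisors ⊆ Finset.Icc 1 (m / 3) := by
    intro d hd
    rw [Nat.mem_properDivisors] at hd
    obtain ⟨⟨c, hc⟩, hlt⟩ := hd
    have hd0 : 1 ≤ d := by
      rcases Nat.eq_zero_or_pos d with h | h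
      · subst h
        omega
      · exact h
    have hc3 : 3 ≤ c := by
      by_contra hcon
      have hc' : c = 0 ∨ c = 1 ∨ c = 2 := by omega
      rcases hc' with h | h | h
      · subst h; omega
      · subst h; omega
      · subst h
        rw [hc] at hodd
        exact (Nat.not_odd_iff_even.2 (Nat.even_mul.2 (Or.inr even_two))) hodd
    rw [Finset.mem_Icc]
    refine ⟨hd0, ?_⟩
    rw [Nat.le_div_iff_mul_le (by norm_num), hc]
    exact Nat.mul_le_mul_left _ hc3
  apply Nat.add_le_add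
  · exact ir_card (by omega)
  · have h3 : ∑ d ∈ m.properDivisors, m * Nat.card (Ir F d) ≤ ∑ d ∈ Finset.Icc 1 (m / 3), m * Q ^ d := by
      refine (Finset.sum_le_sum_of_subset_of_nonneg hsub (fun _ _ _ => Nat.zero_le _)).trans ?_
      refine Finset.sum_le_sum fun d hd => ?_
      rw [Finset.mem_Icc] at hd
      apply Nat.mul_le_mul_left
      refine le_trans ?_ (ir_card (F := F) hd.1)
      exact Nat.le_mul_of_pos_left _ hd.1
    refine h3.trans ?_
    rw [← Finset.mul_sum]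
    have h4 := geo hQ (m / 3)
    have h5 := num m (by omega)
    have h6 : 3 ^ (m - m / 3) ≤ Q ^ (m - m / 3) := Nat.pow_le_pow_left hQ _
    have h7 : Q ^ m = Q ^ (m / 3) * Q ^ (m - m / 3) := by
      rw [← pow_add]
      congr 1
      omega
    have h8 : 2 * (m * ∑ d ∈ Finset.Icc 1 (m / 3), Q ^ d) ≤ 2 * Q ^ m := by
      calc 2 * (m * ∑ d ∈ Finset.Icc 1 (m / 3), Q ^ d)
          = m * (2 * ∑ d ∈ Finset.Icc 1 (m / 3), Q ^ d) := by ring
        _ ≤ m * (3 * Q ^ (m / 3)) := Nat.mul_le_mul_left _ h4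
        _ = Q ^ (m / 3) * (3 * m) := by ring
        _ ≤ Q ^ (m / 3) * (2 * 3 ^ (m - m / 3)) := Nat.mul_le_mul_left _ h5
        _ ≤ Q ^ (m / 3) * (2 * Q ^ (m - m / 3)) :=
            Nat.mul_le_mul_left _ (Nat.mul_le_mul_left _ h6)
        _ = 2 * Q ^ m := by rw [h7]; ring
    omega

end Pool.Agent.H330.P2
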