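import Pool.Agent.H330.P2.Spec

/-!
# MP_971469_al: lemma CY
-/

namespace Pool.Agent.H330.P2

open Module Polynomial

namespace CY

variable {F V : Type} [Field F] [AddCommGroup V] [Module F V]

/-- The facts used about `J`, `Z`, `N`. -/
structure Ctx (B : V →ₗ[F] V →ₗ[F] F) (ν : F) (J Z N : Module.End F V) : Prop where
  h2 : (2 : F) ≠ 0
  hν : ν ≠ 0
  alt : ∀ x, B x x = 0
  nondeg : ∀ x, (∀ y, B x y = 0) → x = 0
  JJ : ∀ x, J (J x) = ν • x
  Jsk : ∀ x y, B (J x) y = - B x (J y)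
  NJ : ∀ x, N (J x) = - J (N x)
  NN : ∀ x, N (N x) = ν • x - (4 * ν)⁻¹ • Z (Z x)
  Nsk : ∀ x y, B (N x) y = - B x (N y)
  pJ : ∀ (p : F[X]) (x : V), aeval Z p (J x) = J (aeval Z p x)
  pN : ∀ (p : F[X]) (x : V), aeval Z p (N x) = N (aeval Z p x)
  pB : ∀ (p : F[X]) (x y : V), B (aeval Z p x) y = B x (aeval Z p y)
  Ninj : ∀ x, N x = 0 → x = 0

theorem pp (Z : Module.End F V) (p q : F[X]) (x : V) :
    aeval Z p (aeval Z q x) = aeval Z (p * q) x := by
  rw [map_mul, Module.End.mul_apply]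

theorem pc (Z : Module.End F V) (p q : F[X]) (x : V) :
    aeval Z p (aeval Z q x) = aeval Z q (aeval Z p x) := by
  rw [pp, pp, mul_comm]

/-- `u = u0(Z) + J u1(Z)`. -/
noncomputable def U (J Z : Module.End F V) (u0 u1 : F[X]) : V →ₗ[F] V :=
  aeval Z u0 + J * aeval Z u1

/-- `ū = u0(Z) - J u1(Z)`. -/
noncomputable def Ub (J Z : Module.End F V) (u0 u1 : F[X]) : V →ₗ[F] V :=
  aeval Z u0 - J * aeval Z u1

theorem U_apply (J Z : Module.End F V) (u0 u1 : F[X]) (x : V) :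
    U J Z u0 u1 x = aeval Z u0 x + J (aeval Z u1 x) := rfl

theorem Ub_apply (J Z : Module.End F V) (u0 u1 : F[X]) (x : V) :
    Ub J Z u0 u1 x = aeval Z u0 x - J (aeval Z u1 x) := rfl

section

variable {B : V →ₗ[F] V →ₗ[F] F} {ν : F} {J Z N : Module.End F V} (h : Ctx B ν J Z N)
  {P u0 u1 : F[X]}

include h

theorem anti (x y : V) : B x y = - B y x := by
  have e := h.alt (x + y)
  simp only [map_add, LinearMap.add_apply, h.alt, zero_add, add_zero] at e
  linear_combination e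

theorem UJ (x : V) : U J Z u0 u1 (J x) = J (U J Z u0 u1 x) := by
  rw [U_apply, U_apply, map_add, h.pJ, h.pJ]

theorem Up (p : F[X]) (x : V) : aeval Z p (U J Z u0 u1 x) = U J Z u0 u1 (aeval Z p x) := by
  rw [U_apply, U_apply, map_add, h.pJ, pc Z p u0, pc Z p u1]

theorem NU (x : V) : N (U J Z u0 u1 x) = Ub J Z u0 u1 (N x) := by
  rw [U_apply, Ub_apply, map_add, h.NJ, h.pN, h.pN, sub_eq_add_neg]

theorem NUb (x : V) : N (Ub J Z u0 u1 x) = U J Z u0 u1 (N x) := by
  rw [U_apply, Ub_apply, map_sub, h.NJ, h.pN, h.pN, sub_neg_eq_add]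

theorem BU (x y : V) : B (U J Z u0 u1 x) y = B x (Ub J Z u0 u1 y) := by
  rw [U_apply, Ub_apply, map_add, LinearMap.add_apply, h.pB, h.Jsk, h.pB, h.pJ, map_sub,
    sub_eq_add_neg]

theorem UUb (hP : aeval Z P = 0) (hV : Vu ν P u0 u1) (x : V) :
    U J Z u0 u1 (Ub J Z u0 u1 x) = N (N x) := by
  obtain ⟨t, ht⟩ := hV
  have h1 : aeval Z (u0 ^ 2 - C ν * u1 ^ 2 - (C ν - C ((4 * ν)⁻¹) * X ^ 2)) x = 0 := by
    rw [ht, map_mul, hP, zero_mul, LinearMap.zero_apply]
  have h2 : aeval Z (u0 ^ 2 - C ν * u1 ^ 2 - (C ν - C ((4 * ν)⁻¹) * X ^ 2)) x =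
      aeval Z u0 (aeval Z u0 x) - ν • aeval Z u1 (aeval Z u1 x) -
        (ν • x - (4 * ν)⁻¹ • Z (Z x)) := by
    simp only [map_sub, map_mul, aeval_C, aeval_X, LinearMap.sub_apply,
      Module.End.mul_apply, pow_two, Module.algebraMap_end_apply]
  rw [h2] at h1
  have h3 : U J Z u0 u1 (Ub J Z u0 u1 x) =
      aeval Z u0 (aeval Z u0 x) - ν • aeval Z u1 (aeval Z u1 x) := by
    rw [U_apply, Ub_apply, map_sub, map_sub, h.pJ, h.pJ, map_sub, h.JJ, pc Z u1 u0 x]
    abel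
  rw [h3, h.NN]
  exact sub_eq_zero.1 h1

theorem UbU (hP : aeval Z P = 0) (hV : Vu ν P u0 u1) (x : V) :
    Ub J Z u0 u1 (U J Z u0 u1 x) = N (N x) := by
  rw [← UUb h hP hV x]
  simp only [U_apply, Ub_apply, map_sub, map_add, h.pJ, h.JJ]
  rw [pc Z u1 u0 x]
  abel

theorem Uinj (hP : aeval Z P = 0) (hV : Vu ν P u0 u1) : Function.Injective (U J Z u0 u1) := by
  rw [injective_iff_map_eq_zero]
  intro x hx
  apply h.Ninj
  apply h.Ninj
  rw [← UbU h hP hV x, hx, map_zero]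

theorem Ubinj (hP : aeval Z P = 0) (hV : Vu ν P u0 u1) : Function.Injective (Ub J Z u0 u1) := by
  rw [injective_iff_map_eq_zero]
  intro x hx
  apply h.Ninj
  apply h.Ninj
  rw [← UUb h hP hV x, hx, map_zero]

/-- Decomposition of `V`. -/
theorem dec [FiniteDimensional F V] (hP : aeval Z P = 0) (hV : Vu ν P u0 u1) (v : V) :
    ∃ y1 y2 : V, N y1 = U J Z u0 u1 y1 ∧ N y2 = U J Z u0 u1 y2 ∧ v = y1 + J y2 := by
  obtain ⟨v', hv'⟩ := (LinearMap.injective_iff_surjective.1 (Uinj h hP hV)) (N v)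
  have h1 : N v' = U J Z u0 u1 v := by
    apply Ubinj h hP hV
    rw [← NU h, hv', UbU h hP hV]
  have h22 : (2 : F)⁻¹ + (2 : F)⁻¹ = 1 := by
    rw [← two_mul, mul_inv_cancel₀ h.h2]
  refine ⟨(2 : F)⁻¹ • (v + v'), (2 * ν)⁻¹ • J (v - v'), ?_, ?_, ?_⟩
  · rw [map_smul, map_smul, map_add, map_add, h1, hv', add_comm]
  · rw [map_smul, map_smul, UJ h, h.NJ, map_sub N, map_sub (U J Z u0 u1), h1, hv', ← map_neg,
      neg_sub]
  · rw [map_smul, h.JJ, smul_smul, mul_inv, mul_assoc, inv_mul_cancel₀ h.hν, mul_one, ← smul_add]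
    have : v + v' + (v - v') = v + v := by abel
    rw [this, smul_add, ← add_smul, h22, one_smul]

/-- `W` is totally isotropic. -/
theorem iso [FiniteDimensional F V] (hP : aeval Z P = 0) (hV : Vu ν P u0 u1) (x y : V)
    (hx : N x = U J Z u0 u1 x) (hy : N y = U J Z u0 u1 y) : B x y = 0 := by
  obtain ⟨z, hz⟩ := (LinearMap.injective_iff_surjective.1 (Ubinj h hP hV)) y
  have hNz : N z = y := by
    have e : N (N z) = N y := by
      rw [← UUb h hP hV z, hz, hy]
    have e2 : N (N z - y) = 0 := by rw [map_sub, e, sub_self]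
    exact sub_eq_zero.1 (h.Ninj _ e2)
  have e : B x y = - B x y := by
    conv_lhs => rw [← hz, ← BU h, ← hx, h.Nsk, hNz]
  have e3 : (2 : F) * B x y = 0 := by
    rw [two_mul]
    nth_rewrite 1 [e]
    exact neg_add_cancel _
  exact (mul_eq_zero.1 e3).resolve_left h.h2

theorem isoJ (x y : V) (hxy : B x y = 0) : B (J x) (J y) = 0 := by
  rw [h.Jsk, h.JJ, map_smul, hxy, smul_zero, neg_zero]

theorem stab (p : F[X]) (x : V) (hx : N x = U J Z u0 u1 x) :
    N (aeval Z p x) = U J Z u0 u1 (aeval Z p x) := by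
  rw [← h.pN, hx, Up h]

theorem symb (x y : V) : B x (J y) = B y (J x) := by
  rw [anti h x (J y), h.Jsk, neg_neg]

/-- The vector `w`. -/
theorem exw [FiniteDimensional F V] (hP : aeval Z P = 0) (hV : Vu ν P u0 u1) (r : F[X])
    (hr : aeval Z r ≠ 0) : ∃ w, N w = U J Z u0 u1 w ∧ B w (J (aeval Z r w)) ≠ 0 := by
  have h1 : ∃ v, aeval Z r v ≠ 0 := by
    by_contra hc
    push Not at hc
    exact hr (LinearMap.ext fun v => by rw [hc v, LinearMap.zero_apply])
  obtain ⟨v, hv⟩ := h1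
  have h2 : ∃ x, N x = U J Z u0 u1 x ∧ aeval Z r x ≠ 0 := by
    obtain ⟨y1, y2, hy1, hy2, e⟩ := dec h hP hV v
    by_contra hc
    push Not at hc
    apply hv
    rw [e, map_add, h.pJ, hc y1 hy1, hc y2 hy2, map_zero, add_zero]
  obtain ⟨x, hx, hrx⟩ := h2
  have h3 : ∃ y, B (J (aeval Z r x)) y ≠ 0 := by
    by_contra hc
    push Not at hc
    have e := h.nondeg _ hc
    apply hrx
    have e2 := h.JJ (aeval Z r x)
    rw [e, map_zero] at e2
    exact (smul_eq_zero.1 e2.symm).resolve_left h.hν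
  obtain ⟨y, hy⟩ := h3
  have h4 : ∃ y1, N y1 = U J Z u0 u1 y1 ∧ B y1 (J (aeval Z r x)) ≠ 0 := by
    obtain ⟨y1, y2, hy1, hy2, e⟩ := dec h hP hV y
    refine ⟨y1, hy1, ?_⟩
    intro hc
    apply hy
    rw [anti h, e, map_add, LinearMap.add_apply, hc,
      isoJ h y2 _ (iso h hP hV y2 _ hy2 (stab h r x hx)), add_zero, neg_zero]
  obtain ⟨y1, hy1, hy1r⟩ := h4
  by_contra hc
  push Not at hc
  have e1 := hc x hx
  have e2 := hc y1 hy1
  have e3 := hc (x + y1) (by rw [map_add, map_add, hx, hy1])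
  rw [map_add, LinearMap.add_apply, map_add (aeval Z r), map_add, map_add, map_add, e1, e2,
    zero_add, add_zero] at e3
  have e4 : B x (J (aeval Z r y1)) = B y1 (J (aeval Z r x)) := by
    rw [symb h x, h.pB, h.pJ]
  rw [e4, ← two_mul] at e3
  exact hy1r ((mul_eq_zero.1 e3).resolve_left h.h2)

omit h in
/-- Key lemma. -/
theorem key (f : F[X]) (k : ℕ) (hf : Irreducible f) (hP : aeval Z (f ^ k) = 0) (hk : 0 < k)
    (w : V) (hw : B w (J (aeval Z (f ^ (k - 1)) w)) ≠ 0) (a : F[X])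
    (ha : ∀ d : F[X], B w (J (aeval Z (a * d) w)) = 0) : f ^ k ∣ a := by
  classical
  obtain ⟨i, hi, hai⟩ := (dvd_prime_pow hf.prime k).1 (EuclideanDomain.gcd_dvd_right a (f ^ k))
  rcases Nat.lt_or_ge i k with hik | hik
  · exfalso
    have h1 : EuclideanDomain.gcd a (f ^ k) ∣ f ^ (k - 1) :=
      hai.dvd.trans (pow_dvd_pow f (by omega))
    obtain ⟨c, hc⟩ := h1
    rw [EuclideanDomain.gcd_eq_gcd_ab] at hc
    apply hw
    have h3 : f ^ (k - 1) = a * (EuclideanDomain.gcdA a (f ^ k) * c) +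
        (EuclideanDomain.gcdB a (f ^ k) * c) * f ^ k := by
      rw [hc]; ring
    rw [h3, map_add, map_mul _ (EuclideanDomain.gcdB a (f ^ k) * c) (f ^ k), hP, mul_zero,
      add_zero]
    exact ha _
  · have hik2 : i = k := le_antisymm hi hik
    rw [hik2] at hai
    exact hai.symm.dvd.trans (EuclideanDomain.gcd_dvd_left a (f ^ k))

end

/-- `a ↦ a(Z) w`. -/
noncomputable def ev (Z : Module.End F V) (w : V) : F[X] →ₗ[F] V :=
  (LinearMap.applyₗ w).comp (aeval Z).toLinearMap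

theorem ev_apply (Z : Module.End F V) (w : V) (a : F[X]) : ev Z w a = aeval Z a w := rfl

/-- `(a, c) ↦ a(Z) w + J c(Z) w`. -/
noncomputable def Phi (J Z : Module.End F V) (w : V) : (F[X] × F[X]) →ₗ[F] V :=
  (ev Z w).coprod (J.comp (ev Z w))

theorem Phi_apply (J Z : Module.End F V) (w : V) (a c : F[X]) :
    Phi J Z w (a, c) = aeval Z a w + J (aeval Z c w) := by
  rw [Phi, LinearMap.coprod_apply, ev_apply, LinearMap.comp_apply, ev_apply]

section

variable {B : V →ₗ[F] V →ₗ[F] F} {ν : F} {J Z N : Module.End F V} (h : Ctx B ν J Z N)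
  {P u0 u1 : F[X]}

include h

theorem orth [FiniteDimensional F V] (f : F[X]) (k : ℕ) (hf : Irreducible f)
    (hP : aeval Z (f ^ k) = 0) (hV : Vu ν (f ^ k) u0 u1) (hk : 0 < k) (w : V)
    (hwU : N w = U J Z u0 u1 w)
    (hw : B w (J (aeval Z (f ^ (k - 1)) w)) ≠ 0) (a c : F[X])
    (hac : ∀ y ∈ LinearMap.range (Phi J Z w), B (Phi J Z w (a, c)) y = 0) :
    f ^ k ∣ a ∧ f ^ k ∣ c := by
  have hW : ∀ p q : F[X], B (aeval Z p w) (aeval Z q w) = 0 := fun p q =>
    iso h hP hV _ _ (stab h p w hwU) (stab h q w hwU)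
  constructor
  · apply key f k hf hP hk w hw
    intro d
    have e := hac (Phi J Z w (0, d)) ⟨_, rfl⟩
    rw [Phi_apply, Phi_apply, map_zero, LinearMap.zero_apply, zero_add, map_add,
      LinearMap.add_apply, isoJ h _ _ (hW c d), add_zero, h.pB, h.pJ, pp] at e
    exact e
  · apply key f k hf hP hk w hw
    intro d
    have e := hac (Phi J Z w (d, 0)) ⟨_, rfl⟩
    rw [Phi_apply, Phi_apply, map_zero, LinearMap.zero_apply, map_zero, add_zero, map_add,
      LinearMap.add_apply, hW a d, zero_add, h.Jsk, h.pB, h.pJ, pp, neg_eq_zero] at e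
    exact e

theorem SJ (w : V) (x : V) (hx : x ∈ LinearMap.range (Phi J Z w)) :
    J x ∈ LinearMap.range (Phi J Z w) := by
  obtain ⟨⟨a, c⟩, rfl⟩ := hx
  refine ⟨(ν • c, a), ?_⟩
  rw [Phi_apply, Phi_apply, map_add, h.JJ, map_smul, LinearMap.smul_apply, add_comm]

theorem Sp (w : V) (p : F[X]) (x : V) (hx : x ∈ LinearMap.range (Phi J Z w)) :
    aeval Z p x ∈ LinearMap.range (Phi J Z w) := by
  obtain ⟨⟨a, c⟩, rfl⟩ := hx
  refine ⟨(p * a, p * c), ?_⟩
  rw [Phi_apply, Phi_apply, map_add, h.pJ, pp, pp]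

theorem SN (w : V) (hwU : N w = U J Z u0 u1 w) (x : V)
    (hx : x ∈ LinearMap.range (Phi J Z w)) : N x ∈ LinearMap.range (Phi J Z w) := by
  obtain ⟨⟨a, c⟩, rfl⟩ := hx
  have hU : N w ∈ LinearMap.range (Phi J Z w) := by
    refine ⟨(u0, u1), ?_⟩
    rw [Phi_apply, hwU, U_apply]
  rw [Phi_apply, map_add, h.NJ, ← h.pN, ← h.pN]
  exact Submodule.add_mem _ (Sp h w a _ hU) (Submodule.neg_mem _ (SJ h w _ (Sp h w c _ hU)))

end

/-- The involution of a stable orthogonal decomposition. -/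
theorem refl_of (B : V →ₗ[F] V →ₗ[F] F) (S T : Submodule F V) (hc : IsCompl S T)
    (hST : ∀ x ∈ S, ∀ y ∈ T, B x y = 0) (hTS : ∀ x ∈ T, ∀ y ∈ S, B x y = 0) :
    ∃ g : V ≃ₗ[F] V, Ism B g ∧ (∀ x ∈ S, g x = x) ∧ (∀ x ∈ T, g x = -x) ∧
      ∀ J : Module.End F V, (∀ x ∈ S, J x ∈ S) → (∀ x ∈ T, J x ∈ T) → Cm J g := by
  have hsum : ∀ v : V, ∃ s ∈ S, ∃ t ∈ T, s + t = v := by
    intro v
    have : v ∈ S ⊔ T := by rw [hc.sup_eq_top]; trivial
    exact Submodule.mem_sup.1 this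
  let p : V →ₗ[F] V := Submodule.projection S T hc
  have hpS : ∀ x ∈ S, p x = x := fun x hx => Submodule.projection_apply_of_mem_left hc hx
  have hpT : ∀ x ∈ T, p x = 0 := fun x hx => Submodule.projection_apply_of_mem_right hc hx
  let q : V →ₗ[F] V := p + p - LinearMap.id
  have hqS : ∀ x ∈ S, q x = x := by
    intro x hx
    show p x + p x - x = x
    rw [hpS x hx, add_sub_cancel_right]
  have hqT : ∀ x ∈ T, q x = -x := by
    intro x hx
    show p x + p x - x = -x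
    rw [hpT x hx, add_zero, zero_sub]
  have hinv : Function.Involutive q := by
    intro x
    obtain ⟨s, hs, t, ht, rfl⟩ := hsum x
    rw [map_add, hqS s hs, hqT t ht, map_add, map_neg, hqS s hs, hqT t ht, neg_neg]
  refine ⟨LinearEquiv.ofInvolutive q hinv, ?_, ?_, ?_, ?_⟩
  · intro x y
    show B (q x) (q y) = B x y
    obtain ⟨s, hs, t, ht, rfl⟩ := hsum x
    obtain ⟨s', hs', t', ht', rfl⟩ := hsum y
    rw [map_add q, map_add q, hqS s hs, hqT t ht, hqS s' hs', hqT t' ht']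
    simp only [map_add, map_neg, LinearMap.add_apply, LinearMap.neg_apply, hST s hs t' ht',
      hTS t ht s' hs', neg_zero]
    ring
  · exact hqS
  · exact hqT
  · intro J hJS hJT x
    show q (J x) = J (q x)
    obtain ⟨s, hs, t, ht, rfl⟩ := hsum x
    rw [map_add q, map_add J, map_add q, hqS s hs, hqT t ht, hqS _ (hJS s hs),
      hqT _ (hJT t ht), map_add, map_neg]

end CY

/-- **CY.** -/
theorem h_CY (hA : S_ALG) : S_CY := by
  intro F V _ _ _ _ B ν J J' P u0 u1 f k h2 hν hB hJ hJ' hfr hN hP hf hPf hG hV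
  obtain ⟨a1, a2, a3, a4, a5, a6, a7, a8, a9, a10, a11⟩ := hA F V B ν J J' h2 hν hJ hJ'
  have h : CY.Ctx B ν J (Zop J J') (Nop ν J J') :=
    ⟨h2, hν, hB.alt, hB.nondeg, hJ.sq, hJ.skew, a3, a5, a7, a8, a10, a11, hN⟩
  subst hPf
  have hZ : aeval (Zop J J') (f ^ k) = 0 := by rw [hP]; exact minpoly.aeval F _
  have hk : 0 < k := by
    rcases Nat.eq_zero_or_pos k with h0 | h0
    · exfalso
      rw [h0, pow_zero, map_one] at hZ
      have : Nontrivial V := Module.finrank_pos_iff.1 hfr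
      obtain ⟨v, hv⟩ := exists_ne (0 : V)
      apply hv
      have e := LinearMap.congr_fun hZ v
      rw [Module.End.one_apply, LinearMap.zero_apply] at e
      exact e
    · exact h0
  have hr : aeval (Zop J J') (f ^ (k - 1)) ≠ 0 := by
    intro hc
    have e := minpoly.dvd F (Zop J J') hc
    rw [← hP, pow_dvd_pow_iff hf.ne_zero hf.not_isUnit] at e
    omega
  obtain ⟨w, hwU, hw⟩ := CY.exw h hZ hV (f ^ (k - 1)) hr
  have hw0 : w ≠ 0 := by
    intro hc
    apply hw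
    rw [hc, map_zero, LinearMap.zero_apply]
  -- the cyclic subspace
  set S : Submodule F V := LinearMap.range (CY.Phi J (Zop J J') w) with hS
  have horth : ∀ a c : F[X], (∀ y ∈ S, B (CY.Phi J (Zop J J') w (a, c)) y = 0) →
      f ^ k ∣ a ∧ f ^ k ∣ c := fun a c hac => CY.orth h f k hf hZ hV hk w hwU hw a c hac
  have hzero : ∀ a c : F[X], f ^ k ∣ a ∧ f ^ k ∣ c → CY.Phi J (Zop J J') w (a, c) = 0 := by
    rintro a c ⟨⟨a', rfl⟩, ⟨c', rfl⟩⟩
    rw [CY.Phi_apply, map_mul, map_mul, hZ, zero_mul, zero_mul, LinearMap.zero_apply, map_zero,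
      add_zero]
  have hrefl : LinearMap.BilinForm.IsRefl (B : LinearMap.BilinForm F V) := by
    intro x y hxy
    rw [CY.anti h y x, hxy, neg_zero]
  have hdisj : Disjoint S (LinearMap.BilinForm.orthogonal B S) := by
    rw [Submodule.disjoint_def]
    intro x hx hx2
    obtain ⟨⟨a, c⟩, rfl⟩ := hx
    apply hzero
    apply horth
    intro y hy
    rw [LinearMap.BilinForm.mem_orthogonal_iff] at hx2
    rw [CY.anti h, hx2 y hy, neg_zero]
  have hc := (LinearMap.BilinForm.isCompl_orthogonal_iff_disjoint hrefl).2 hdisj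
  set T := LinearMap.BilinForm.orthogonal B S with hT
  have hST : ∀ x ∈ S, ∀ y ∈ T, B x y = 0 := by
    intro x hx y hy
    rw [hT, LinearMap.BilinForm.mem_orthogonal_iff] at hy
    exact hy x hx
  have hTS : ∀ x ∈ T, ∀ y ∈ S, B x y = 0 := by
    intro x hx y hy
    rw [CY.anti h, hST y hy x hx, neg_zero]
  have hSJ : ∀ x ∈ S, J x ∈ S := fun x hx => CY.SJ h w x hx
  have hSJ' : ∀ x ∈ S, J' x ∈ S := by
    intro x hx
    have e : J' x = Nop ν J J' x + (2 * ν)⁻¹ • J (Zop J J' x) := by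
      show J' x = (J' x - (2 * ν)⁻¹ • J (Zop J J' x)) + (2 * ν)⁻¹ • J (Zop J J' x)
      rw [sub_add_cancel]
    rw [e]
    have e2 : Zop J J' x ∈ S := by
      have e3 := CY.Sp h w X x hx
      rwa [aeval_X] at e3
    exact Submodule.add_mem _ (CY.SN h w hwU x hx) (Submodule.smul_mem _ _ (hSJ _ e2))
  have hTst : ∀ K : Module.End F V, (∀ x ∈ S, K x ∈ S) → (∀ x y, B (K x) y = - B x (K y)) →
      ∀ x ∈ T, K x ∈ T := by
    intro K hK hKs x hx
    rw [hT, LinearMap.BilinForm.mem_orthogonal_iff]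
    intro n hn
    have e := hKs n x
    rw [hST _ (hK n hn) x hx] at e
    exact (neg_eq_zero.1 e.symm)
  obtain ⟨g, hgI, hgS, hgT, hgC⟩ := CY.refl_of B S T hc hST hTS
  have hwS : w ∈ S := ⟨(1, 0), by
    rw [CY.Phi_apply, map_one, map_zero, LinearMap.zero_apply, map_zero, add_zero,
      Module.End.one_apply]⟩
  have hneg : ∀ x : V, x = -x → x = 0 := by
    intro x hx
    have e : (2 : F) • x = 0 := by
      rw [two_smul]
      nth_rewrite 1 [hx]
      exact neg_add_cancel x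
    exact (smul_eq_zero.1 e).resolve_left h2
  have hTbot : T = ⊥ := by
    rw [Submodule.eq_bot_iff]
    intro x hx
    rcases hG g hgI (hgC J hSJ (hTst J hSJ hJ.skew)) (hgC J' hSJ' (hTst J' hSJ' hJ'.skew)) with
      ht | ht
    · apply hneg
      rw [← hgT x hx, ht x]
    · exfalso
      apply hw0
      apply hneg
      rw [← ht w, hgS w hwS]
  have hStop : ∀ v : V, v ∈ S := by
    intro v
    have : v ∈ S ⊔ T := by rw [hc.sup_eq_top]; trivial
    rwa [hTbot, sup_bot_eq] at this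
  refine ⟨?_, w, ?_, ?_, ?_⟩
  · -- dimension
    have hmon : (f ^ k).Monic := by
      rw [hP]
      exact minpoly.monic (Algebra.IsIntegral.isIntegral _)
    have hne : f ^ k ≠ 0 := hmon.ne_zero
    set n := (f ^ k).natDegree with hn
    have hdeg : (f ^ k).degree = (n : WithBot ℕ) := degree_eq_natDegree hne
    let Ψ : (degreeLT F n × degreeLT F n) →ₗ[F] V :=
      (CY.Phi J (Zop J J') w).comp
        ((degreeLT F n).subtype.prodMap (degreeLT F n).subtype)
    have hΨ : ∀ a c, Ψ (a, c) = CY.Phi J (Zop J J') w (a.1, c.1) := fun a c => rfl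
    have hΨi : Function.Injective Ψ := by
      rw [injective_iff_map_eq_zero]
      rintro ⟨a, c⟩ hac
      rw [hΨ] at hac
      obtain ⟨ha, hc'⟩ := horth a.1 c.1 (fun y _ => by rw [hac, map_zero, LinearMap.zero_apply])
      have ha2 := mem_degreeLT.1 a.2
      have hc2 := mem_degreeLT.1 c.2
      have ea : a.1 = 0 := eq_zero_of_dvd_of_degree_lt ha (by rw [hdeg]; exact ha2)
      have ec : c.1 = 0 := eq_zero_of_dvd_of_degree_lt hc' (by rw [hdeg]; exact hc2)
      rw [Prod.mk_eq_zero]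
      exact ⟨Subtype.ext ea, Subtype.ext ec⟩
    have hΨs : Function.Surjective Ψ := by
      intro v
      obtain ⟨⟨a, c⟩, rfl⟩ := hStop v
      have hm : ∀ p : F[X], p %ₘ (f ^ k) ∈ degreeLT F n := by
        intro p
        rw [mem_degreeLT, ← hdeg]
        exact degree_modByMonic_lt p hmon
      refine ⟨(⟨a %ₘ (f ^ k), hm a⟩, ⟨c %ₘ (f ^ k), hm c⟩), ?_⟩
      rw [hΨ, ← sub_eq_zero, ← map_sub]
      apply hzero
      constructor
      · refine ⟨-(a /ₘ (f ^ k)), ?_⟩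
        have e := modByMonic_add_div a (f ^ k)
        show a %ₘ (f ^ k) - a = _
        linear_combination e
      · refine ⟨-(c /ₘ (f ^ k)), ?_⟩
        have e := modByMonic_add_div c (f ^ k)
        show c %ₘ (f ^ k) - c = _
        linear_combination e
    have e1 := LinearEquiv.finrank_eq (LinearEquiv.ofBijective Ψ ⟨hΨi, hΨs⟩)
    have e2 := LinearEquiv.finrank_eq
      ((degreeLTEquiv F n).prodCongr (degreeLTEquiv F n))
    rw [← e1, e2, Module.finrank_prod, Module.finrank_fin_fun, two_mul]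
  · exact hZ
  · rw [hwU, CY.U_apply]
  · intro v
    obtain ⟨⟨a, c⟩, rfl⟩ := hStop v
    exact ⟨a, c, CY.Phi_apply J (Zop J J') w a c⟩

end Pool.Agent.H330.P2
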