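import Pool.Agent.H330.P2.Spec

/-!
# Domination implies good
-/

namespace Pool.Agent.H330.P2

open Module Polynomial

namespace DOM

section

variable {F V : Type} [Field F] [AddCommGroup V] [Module F V]

theorem skewB {B : V →ₗ[F] V →ₗ[F] F} (hB : Sy B) (x y : V) : B x y = - B y x := by
  have h := hB.alt (x + y)
  simp only [map_add, LinearMap.add_apply] at h
  rw [hB.alt x, hB.alt y] at h
  linear_combination h

/-- the transvection -/
def tv (B : V →ₗ[F] V →ₗ[F] F) (w : V) (hw : B w w = 0) : V ≃ₗ[F] V where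
  toFun x := x + B x w • w
  map_add' x y := by
    rw [map_add, LinearMap.add_apply, add_smul]
    abel
  map_smul' c x := by
    rw [map_smul, LinearMap.smul_apply, smul_eq_mul, mul_smul, RingHom.id_apply, smul_add]
  invFun x := x - B x w • w
  left_inv x := by
    show (x + B x w • w) - B (x + B x w • w) w • w = x
    rw [map_add, map_smul, LinearMap.add_apply, LinearMap.smul_apply, hw, smul_zero, add_zero,
      add_sub_cancel_right]
  right_inv x := by
    show (x - B x w • w) + B (x - B x w • w) w • w = x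
    rw [map_sub, map_smul, LinearMap.sub_apply, LinearMap.smul_apply, hw, smul_zero, sub_zero,
      sub_add_cancel]

theorem tv_apply (B : V →ₗ[F] V →ₗ[F] F) (w : V) (hw : B w w = 0) (x : V) :
    tv B w hw x = x + B x w • w := rfl

theorem tv_ism {B : V →ₗ[F] V →ₗ[F] F} (hB : Sy B) (w : V) : Ism B (tv B w (hB.alt w)) := by
  intro x y
  rw [tv_apply, tv_apply]
  simp only [map_add, map_smul, LinearMap.add_apply, LinearMap.smul_apply, smul_eq_mul, hB.alt w]
  rw [skewB hB w y]
  ring

theorem ex_ne {B : V →ₗ[F] V →ₗ[F] F} (hB : Sy B) {w : V} (hw : w ≠ 0) : ∃ x, B x w ≠ 0 := by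
  by_contra h
  push Not at h
  apply hw
  apply hB.nondeg
  intro y
  rw [skewB hB, h y, neg_zero]

/-- a proper subspace is not preserved by a generating pair -/
theorem noGen [FiniteDimensional F V] {B : V →ₗ[F] V →ₗ[F] F} (hB : Sy B) (W : Submodule F V)
    (u w₀ : V) (hu : u ∈ W) (hu0 : u ≠ 0) (hw₀ : w₀ ∉ W) (y z : V ≃ₗ[F] V)
    (hy : ∀ v ∈ W, y v ∈ W) (hz : ∀ v ∈ W, z v ∈ W) : ¬ Gen B y z := by
  intro hG
  have key : ∀ h : V ≃ₗ[F] V, (∀ v ∈ W, h v ∈ W) → ∀ v, h v ∈ W → v ∈ W := by
    intro h hh v hv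
    have h1 : W.map (h : V →ₗ[F] V) ≤ W := by
      rintro _ ⟨x, hx, rfl⟩
      exact hh x hx
    have h2 : finrank F (W.map (h : V →ₗ[F] V)) = finrank F W :=
      LinearEquiv.finrank_map_eq h W
    have h3 : W.map (h : V →ₗ[F] V) = W := Submodule.eq_of_le_of_finrank_eq h1 h2
    have h4 : h v ∈ W.map (h : V →ₗ[F] V) := by rw [h3]; exact hv
    obtain ⟨x, hx, hx2⟩ := h4
    have h5 : x = v := h.injective hx2
    rwa [← h5]
  let H : Subgroup (V ≃ₗ[F] V) :=
    { carrier := {h | ∀ v, h v ∈ W ↔ v ∈ W}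
      mul_mem' := by
        intro a b ha hb v
        show a (b v) ∈ W ↔ v ∈ W
        exact (ha (b v)).trans (hb v)
      one_mem' := by
        intro v
        exact Iff.rfl
      inv_mem' := by
        intro a ha v
        show a.symm v ∈ W ↔ v ∈ W
        rw [← ha (a.symm v), a.apply_symm_apply] }
  have hH : ∀ g, Ism B g → g ∈ H := by
    apply hG H
    · rintro h (h1 | h1)
      · intro v
        rw [h1 v]
      · intro v
        rw [h1 v, neg_mem_iff]
    · exact fun v => ⟨key y hy v, hy v⟩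
    · exact fun v => ⟨key z hz v, hz v⟩
  have hw : ∃ w, w ∉ W ∧ B u w ≠ 0 := by
    by_contra hcon
    push Not at hcon
    apply hu0
    apply hB.nondeg
    intro v
    by_cases hv : v ∈ W
    · have h1 : v + w₀ ∉ W := by
        intro h2
        apply hw₀
        have := W.sub_mem h2 hv
        rwa [add_sub_cancel_left] at this
      have h3 := hcon _ h1
      rw [map_add, hcon _ hw₀, add_zero] at h3
      exact h3
    · exact hcon _ hv
  obtain ⟨w, hwW, hw⟩ := hw
  have h1 : tv B w (hB.alt w) u ∈ W := (hH _ (tv_ism hB w) u).2 hu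
  rw [tv_apply] at h1
  have h2 : B u w • w ∈ W := by
    have := W.sub_mem h1 hu
    rwa [add_sub_cancel_left] at this
  exact hwW ((W.smul_mem_iff hw).1 h2)

/-- isometries commuting with a skew-adjoint square root and its stabilizer do not generate -/
theorem noGen2 {B : V →ₗ[F] V →ₗ[F] F} (hB : Sy B) {ν : F} (hν : ¬ IsSquare ν)
    {J : Module.End F V} (hJ : Rt B ν J) {w : V} (hw : w ≠ 0) (a t g : V ≃ₗ[F] V)
    (ht : ∀ x, t (J x) = J (t x)) (hg : Cm (a.conj J) g) : ¬ Gen B g (a * t * a⁻¹) := by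
  intro hG
  have hJ1 : ∀ x, a.conj J x = a (J (a.symm x)) := fun x => LinearEquiv.conj_apply_apply a J x
  let H : Subgroup (V ≃ₗ[F] V) :=
    { carrier := {h | ∀ x, h (a.conj J x) = a.conj J (h x)}
      mul_mem' := by
        intro p q hp hq x
        show p (q (a.conj J x)) = a.conj J (p (q x))
        rw [hq x, hp (q x)]
      one_mem' := by
        intro x
        rfl
      inv_mem' := by
        intro p hp x
        show p.symm (a.conj J x) = a.conj J (p.symm x)
        rw [LinearEquiv.symm_apply_eq, hp (p.symm x), p.apply_symm_apply] }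
  have hH : ∀ g, Ism B g → g ∈ H := by
    apply hG H
    · rintro h (h1 | h1)
      · intro v
        rw [h1, h1]
      · intro v
        rw [h1, h1, map_neg]
    · exact hg
    · intro x
      show a (t (a.symm (a.conj J x))) = a.conj J (a (t (a.symm x)))
      rw [hJ1, hJ1, a.symm_apply_apply, a.symm_apply_apply, ht]
  obtain ⟨x, hx⟩ := ex_ne hB hw
  have h1 := hH _ (tv_ism hB w) x
  rw [tv_apply, tv_apply, map_add, map_smul] at h1
  have h2 : B (a.conj J x) w • w = B x w • a.conj J w := add_left_cancel h1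
  have h3 : a.conj J w = ((B x w)⁻¹ * B (a.conj J x) w) • w := by
    rw [mul_smul, h2, smul_smul, inv_mul_cancel₀ hx, one_smul]
  have h4 : a.conj J (a.conj J w) = ν • w := by
    rw [hJ1, hJ1, a.symm_apply_apply, hJ.sq, map_smul, a.apply_symm_apply]
  obtain ⟨c, hc⟩ : ∃ c, c = (B x w)⁻¹ * B (a.conj J x) w := ⟨_, rfl⟩
  rw [← hc] at h3
  rw [h3, map_smul, h3, smul_smul] at h4
  apply hν
  refine ⟨c, ?_⟩
  have h5 : (ν - c * c) • w = 0 := by rw [sub_smul, h4, sub_self]
  rcases smul_eq_zero.1 h5 with h6 | h6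
  · exact sub_eq_zero.1 h6
  · exact absurd h6 hw

end

end DOM

theorem h_DOM (hR : S_RED) (hI : S_IRR) : S_DOM := by
  intro F V _ _ _ _ _ B ν m t h2 hν hB hm hm3 hd ht
  have : FiniteDimensional F V := Module.Finite.of_finite
  by_cases h : ∃ U : Submodule F V, U ≠ ⊥ ∧ U ≠ ⊤ ∧ ∀ x ∈ U, t x ∈ U
  · left
    obtain ⟨U, hU0, hU1, hUt, hUx⟩ := hR F V B m t h2 hB hm hm3 hd ht h
    intro a b ha hb hD
    obtain ⟨x, hx, hxT, hxU, hxg⟩ := hUx (a⁻¹ * b) (by
      intro p q
      show B (a.symm (b p)) (a.symm (b q)) = B p q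
      rw [← ha, a.apply_symm_apply, a.apply_symm_apply, hb])
    obtain ⟨u, hu, hu0⟩ := U.ne_bot_iff.1 hU0
    obtain ⟨v, hv⟩ : ∃ v, v ∉ U := by
      by_contra hcon
      push Not at hcon
      exact hU1 (eq_top_iff.2 fun v _ => hcon v)
    have hW : ∀ c : V ≃ₗ[F] V, ∀ y z : V ≃ₗ[F] V, (∀ p ∈ U, ∃ q ∈ U, y (c p) = c q) →
        (∀ p ∈ U, ∃ q ∈ U, z (c p) = c q) → ¬ Gen B y z := by
      intro c y z hy hz
      apply DOM.noGen hB (U.map (c : V →ₗ[F] V)) (c u) (c v) ⟨u, hu, rfl⟩
      · intro h0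
        exact hu0 (c.map_eq_zero_iff.1 h0)
      · rintro ⟨p, hp, hp2⟩
        have : p = v := c.injective hp2
        exact hv (this ▸ hp)
      · rintro _ ⟨p, hp, rfl⟩
        obtain ⟨q, hq, e⟩ := hy p hp
        exact ⟨q, hq, e.symm⟩
      · rintro _ ⟨p, hp, rfl⟩
        obtain ⟨q, hq, e⟩ := hz p hp
        exact ⟨q, hq, e.symm⟩
    have hy : Ism B (a * x * a⁻¹) := by
      intro p q
      show B (a (x (a.symm p))) (a (x (a.symm q))) = B p q
      rw [ha, hx, ← ha, a.apply_symm_apply, a.apply_symm_apply]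
    have hyT : ¬ Triv (a * x * a⁻¹) := by
      rintro (h1 | h1)
      · apply hxT
        left
        intro p
        have h3 : a (x (a.symm (a p))) = a p := h1 (a p)
        rw [a.symm_apply_apply] at h3
        exact a.injective h3
      · apply hxT
        right
        intro p
        have h3 : a (x (a.symm (a p))) = - a p := h1 (a p)
        rw [a.symm_apply_apply, ← map_neg] at h3
        exact a.injective h3
    rcases hD _ hy hyT with h1 | h1
    · refine hW a _ _ ?_ ?_ h1
      · intro p hp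
        refine ⟨x p, hxU p hp, ?_⟩
        show a (x (a.symm (a p))) = a (x p)
        rw [a.symm_apply_apply]
      · intro p hp
        refine ⟨t p, hUt p hp, ?_⟩
        show a (t (a.symm (a p))) = a (t p)
        rw [a.symm_apply_apply]
    · refine hW b _ _ ?_ ?_ h1
      · intro p hp
        refine ⟨_, hxg p hp, ?_⟩
        show a (x (a.symm (b p))) = b (b.symm (a (x (a.symm (b p)))))
        rw [b.apply_symm_apply]
      · intro p hp
        refine ⟨t p, hUt p hp, ?_⟩
        show b (t (b.symm (b p))) = b (t p)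
        rw [b.symm_apply_apply]
  · right
    obtain ⟨J, hJ, hJt⟩ := hI F V B ν m t h2 hν hB hm hd ht (by
      intro U hU
      by_contra hcon
      push Not at hcon
      exact h ⟨U, hcon.1, hcon.2, hU⟩)
    refine ⟨J, hJ, ?_⟩
    intro a b ha hb hD g hg hga hgb
    by_contra hT
    obtain ⟨w, hw⟩ : ∃ w : V, w ≠ 0 := by
      have h1 : 0 < finrank F V := by omega
      have : Nontrivial V := finrank_pos_iff.1 h1
      exact exists_ne 0
    rcases hD g hg hT with h1 | h1
    · exact DOM.noGen2 hB hν hJ hw a t g hJt hga h1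
    · exact DOM.noGen2 hB hν hJ hw b t g hJt hgb h1

end Pool.Agent.H330.P2
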