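import Pool.Agent.H330.P2.Spec

/-!
# Nondegenerate functionals on `F[X]/(P)` are counted by the units
-/

namespace Pool.Agent.H330.P2

open Module Polynomial

namespace DUAL

section

variable {F : Type} [Field F]

/-- The coefficient of `X^(d-1)` of the representative. -/
noncomputable def l0 {P : F[X]} (hP : P.Monic) : AdjoinRoot P →ₗ[F] F :=
  (Polynomial.lcoeff F (P.natDegree - 1)) ∘ₗ (AdjoinRoot.modByMonicHom hP)

theorem l0_mk {P : F[X]} (hP : P.Monic) (p : F[X]) :
    l0 hP (AdjoinRoot.mk P p) = (p %ₘ P).coeff (P.natDegree - 1) := by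
  unfold l0
  rw [LinearMap.comp_apply, AdjoinRoot.modByMonicHom_mk]
  rfl

theorem l0_nd {P : F[X]} (hP : P.Monic) : ND (l0 hP) := by
  intro r hr
  obtain ⟨f, rfl⟩ := AdjoinRoot.mk_surjective r
  obtain ⟨p, hp⟩ : ∃ p : F[X], p = f %ₘ P := ⟨_, rfl⟩
  have hfp : AdjoinRoot.mk P f = AdjoinRoot.mk P p := by
    rw [AdjoinRoot.mk_eq_mk, hp]
    have h := Polynomial.modByMonic_add_div f P
    refine ⟨f /ₘ P, ?_⟩
    linear_combination -h
  rw [hfp] at hr ⊢
  by_contra hne
  have hp0 : p ≠ 0 := by
    intro h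
    apply hne
    rw [h, map_zero]
  have hdeg : p.degree < P.degree := by
    rw [hp]
    exact Polynomial.degree_modByMonic_lt f hP
  have hnat : p.natDegree < P.natDegree := Polynomial.natDegree_lt_natDegree hp0 hdeg
  obtain ⟨m, hm⟩ : ∃ m : ℕ, m = P.natDegree - 1 - p.natDegree := ⟨_, rfl⟩
  have h1 := hr (AdjoinRoot.mk P (X ^ m))
  rw [← map_mul, l0_mk] at h1
  have hq : (p * X ^ m).natDegree = P.natDegree - 1 := by
    rw [Polynomial.natDegree_mul_X_pow m hp0]
    omega
  have hq0 : p * X ^ m ≠ 0 := mul_ne_zero hp0 (pow_ne_zero _ X_ne_zero)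
  have hlt : (p * X ^ m).degree < P.degree := by
    apply Polynomial.degree_lt_degree
    omega
  rw [(Polynomial.modByMonic_eq_self_iff hP).2 hlt] at h1
  have h2 : P.natDegree - 1 = p.natDegree + m := by omega
  rw [h2, Polynomial.coeff_mul_X_pow] at h1
  exact hp0 (Polynomial.leadingCoeff_eq_zero.1 h1)

/-- `r ↦ (s ↦ ℓ₀(r s))`. -/
noncomputable def Phi {P : F[X]} (hP : P.Monic) : AdjoinRoot P →ₗ[F] (AdjoinRoot P →ₗ[F] F) :=
  LinearMap.mk₂ F (fun r s => l0 hP (r * s))
    (fun r r' s => by rw [add_mul, map_add])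
    (fun c r s => by rw [smul_mul_assoc, map_smul])
    (fun r s s' => by rw [mul_add, map_add])
    (fun c r s => by rw [mul_smul_comm, map_smul])

theorem Phi_apply {P : F[X]} (hP : P.Monic) (r s : AdjoinRoot P) :
    Phi hP r s = l0 hP (r * s) := rfl

theorem Phi_inj {P : F[X]} (hP : P.Monic) : Function.Injective (Phi hP) := by
  rw [injective_iff_map_eq_zero]
  intro r hr
  apply l0_nd hP
  intro s
  rw [← Phi_apply, hr]
  rfl

theorem nd_iff {P : F[X]} (hP : P.Monic) (r : AdjoinRoot P) :
    ND (Phi hP r) ↔ ∀ t, r * t = 0 → t = 0 := by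
  constructor
  · intro h t ht
    apply h
    intro s
    rw [Phi_apply, ← mul_assoc, ht, zero_mul, map_zero]
  · intro h t ht
    apply h
    apply l0_nd hP
    intro s
    have := ht s
    rw [Phi_apply, ← mul_assoc] at this
    exact this

end

end DUAL

open DUAL in
/-- **DUAL.** -/
theorem h_DUAL : S_DUAL := by
  intro F _ _ P hP
  have hfin : Module.Finite F (AdjoinRoot P) := (AdjoinRoot.powerBasis' hP).finite
  have hfinR : Finite (AdjoinRoot P) := Module.finite_of_finite F
  have hbij : Function.Bijective (Phi hP) := by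
    refine ⟨Phi_inj hP, ?_⟩
    have h : finrank F (AdjoinRoot P) = finrank F (AdjoinRoot P →ₗ[F] F) :=
      (Subspace.dual_finrank_eq (K := F) (V := AdjoinRoot P)).symm
    exact (LinearMap.injective_iff_surjective_of_finrank_eq_finrank h).1 (Phi_inj hP)
  have hunit : ∀ r : AdjoinRoot P, IsUnit r ↔ ND (Phi hP r) := by
    intro r
    rw [nd_iff]
    constructor
    · intro hr t ht
      exact (hr.mul_right_eq_zero).1 ht
    · intro h
      have hinj : Function.Injective (fun t : AdjoinRoot P => r * t) := by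
        intro t t' htt
        have h1 : r * (t - t') = 0 := by
          rw [mul_sub, sub_eq_zero]
          exact htt
        exact sub_eq_zero.1 (h _ h1)
      have hsurj := (Finite.injective_iff_surjective).1 hinj
      obtain ⟨t, ht⟩ := hsurj 1
      exact IsUnit.of_mul_eq_one t ht
  have e1 : {r : AdjoinRoot P // IsUnit r} ≃ {l : AdjoinRoot P →ₗ[F] F // ND l} :=
    (Equiv.ofBijective (Phi hP) hbij).subtypeEquiv hunit
  have e2 : (AdjoinRoot P)ˣ ≃ {r : AdjoinRoot P // IsUnit r} :=
    { toFun := fun u => ⟨u, u.isUnit⟩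
      invFun := fun r => r.2.unit
      left_inv := fun u => by
        ext
        rfl
      right_inv := fun r => by
        ext
        rfl }
  exact (Nat.card_congr (e2.trans e1)).symm

end Pool.Agent.H330.P2
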