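import Pool.Agent.H330.P2.Spec

/-!
# FIB: counting the frame vectors of one operator
-/

namespace Pool.Agent.H330.P2

open Module Polynomial

namespace FIB

section transport

variable {F V W : Type} [Field F] [AddCommGroup V] [Module F V] [AddCommGroup W] [Module F W]

theorem aeval_transport {A : Module.End F V} {A' : Module.End F W} (φ : W ≃ₗ[F] V)
    (h : ∀ x, A (φ x) = φ (A' x)) (p : F[X]) (x : W) :
    aeval A p (φ x) = φ (aeval A' p x) := by
  induction p using Polynomial.induction_on' with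
  | add p q hp hq =>
    rw [map_add, map_add, LinearMap.add_apply, LinearMap.add_apply, hp, hq, map_add]
  | monomial n a =>
    rw [aeval_monomial, aeval_monomial, Module.End.mul_apply, Module.End.mul_apply,
      Module.algebraMap_end_apply, Module.algebraMap_end_apply, map_smul]
    congr 1
    induction n with
    | zero => rfl
    | succ n ih =>
      rw [pow_succ', pow_succ', Module.End.mul_apply, Module.End.mul_apply, ih, h]

theorem Zop_transport {J J' : Module.End F V} {j k : Module.End F W} (φ : W ≃ₗ[F] V)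
    (hj : ∀ x, φ (j x) = J (φ x)) (hk : ∀ x, φ (k x) = J' (φ x)) (x : W) :
    Zop J J' (φ x) = φ (Zop j k x) := by
  unfold Zop
  rw [LinearMap.add_apply, LinearMap.add_apply, Module.End.mul_apply, Module.End.mul_apply,
    Module.End.mul_apply, Module.End.mul_apply, map_add, ← hk, ← hj, ← hj, ← hk]

theorem Nop_transport {ν : F} {J J' : Module.End F V} {j k : Module.End F W} (φ : W ≃ₗ[F] V)
    (hj : ∀ x, φ (j x) = J (φ x)) (hk : ∀ x, φ (k x) = J' (φ x)) (x : W) :
    Nop ν J J' (φ x) = φ (Nop ν j k x) := by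
  unfold Nop
  rw [LinearMap.sub_apply, LinearMap.sub_apply, LinearMap.smul_apply, LinearMap.smul_apply,
    Module.End.mul_apply, Module.End.mul_apply, map_sub, map_smul, hk, hj,
    Zop_transport φ hj hk]

end transport

section unit

variable {F : Type} [Field F]

/-- The norm `ν - x²/(4ν)` is a unit modulo `P`. -/
theorem unit_c {ν : F} {P : F[X]} (h2 : (2 : F) ≠ 0) (hν : ν ≠ 0) (hC : Cp ν P) :
    ∃ r : AdjoinRoot P, r * AdjoinRoot.mk P (C ν - C ((4 * ν)⁻¹) * X ^ 2) = 1 := by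
  have h4 : (4 : F) ≠ 0 := by
    have h : (4 : F) = 2 * 2 := by norm_num
    rw [h]
    exact mul_ne_zero h2 h2
  have h1 : IsCoprime (X - C (2 * ν)) P := by
    rw [(Polynomial.irreducible_X_sub_C (2 * ν)).coprime_iff_not_dvd, Polynomial.dvd_iff_isRoot]
    exact hC.1
  have h3 : IsCoprime (X - C (-(2 * ν))) P := by
    rw [(Polynomial.irreducible_X_sub_C (-(2 * ν))).coprime_iff_not_dvd,
      Polynomial.dvd_iff_isRoot]
    exact hC.2
  obtain ⟨r, s, hrs⟩ := h1.mul_left h3
  refine ⟨AdjoinRoot.mk P (r * C (-(4 * ν))), ?_⟩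
  have h5 : (C (-(4 * ν)) : F[X]) * (C ν - C ((4 * ν)⁻¹) * X ^ 2) =
      (X - C (2 * ν)) * (X - C (-(2 * ν))) := by
    have h6 : (C (4 * ν) : F[X]) * C ((4 * ν)⁻¹) = 1 := by
      rw [← C_mul, mul_inv_cancel₀ (mul_ne_zero h4 hν), C_1]
    have h7 : (C (4 * ν) : F[X]) * C ν = C (2 * ν) * C (2 * ν) := by
      rw [← C_mul, ← C_mul]
      congr 1
      ring
    rw [C_neg, C_neg]
    linear_combination X ^ 2 * h6 - h7
  have h8 : AdjoinRoot.mk P (s * P) = 0 := by
    rw [map_mul, AdjoinRoot.mk_self, mul_zero]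
  have h9 : AdjoinRoot.mk P (r * ((X - C (2 * ν)) * (X - C (-(2 * ν))))) = 1 := by
    have h10 := congrArg (AdjoinRoot.mk P) hrs
    rw [map_add, h8, add_zero, map_one] at h10
    exact h10
  rw [← map_mul, mul_assoc, h5]
  exact h9

/-- The equations for the second coordinate. -/
theorem snd_zero {ν : F} {P u0 u1 : F[X]} (h2 : (2 : F) ≠ 0) (hν : ν ≠ 0) (hC : Cp ν P)
    (hV : Vu ν P u0 u1) {b : AdjoinRoot P} (h0 : AdjoinRoot.mk P u0 * b = 0)
    (h1 : AdjoinRoot.mk P u1 * b = 0) : b = 0 := by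
  obtain ⟨r, hr⟩ := unit_c h2 hν hC
  have h3 : AdjoinRoot.mk P (u0 ^ 2 - C ν * u1 ^ 2 - (C ν - C ((4 * ν)⁻¹) * X ^ 2)) = 0 :=
    AdjoinRoot.mk_eq_zero.2 hV
  rw [map_sub, sub_eq_zero] at h3
  have h4 : AdjoinRoot.mk P (u0 ^ 2 - C ν * u1 ^ 2) * b = 0 := by
    rw [map_sub, map_mul, map_pow, map_pow]
    linear_combination AdjoinRoot.mk P u0 * h0 -
      AdjoinRoot.mk P (C ν) * AdjoinRoot.mk P u1 * h1
  rw [h3] at h4
  calc b = (r * AdjoinRoot.mk P (C ν - C ((4 * ν)⁻¹) * X ^ 2)) * b := by rw [hr, one_mul]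
    _ = r * (AdjoinRoot.mk P (C ν - C ((4 * ν)⁻¹) * X ^ 2) * b) := mul_assoc _ _ _
    _ = 0 := by rw [h4, mul_zero]

end unit

end FIB

open FIB

theorem h_FIB (hK : S_KOP) (hM : S_MAP) : S_FIB := by
  intro F V _ _ _ _ B ν J J' P u0 u1 w h2 hν hB hJ hJ' hP hC hdim hV hFr
  obtain ⟨l, φ, -, -, hj, hk, hw⟩ := hM F V B ν J J' P u0 u1 w h2 hν hB hJ hJ' hP hdim hFr
  obtain ⟨-, hKa, hKN, -⟩ := hK F ν P u0 u1 h2 hν hV
  have hZ : ∀ (p : F[X]) (x : AdjoinRoot P × AdjoinRoot P), aeval (Zop J J') p (φ x) =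
      φ (AdjoinRoot.mk P p * x.1, AdjoinRoot.mk P p * x.2) := by
    intro p x
    rw [aeval_transport φ (Zop_transport φ hj hk), hKa]
  have hN : ∀ x : AdjoinRoot P × AdjoinRoot P, Nop ν J J' (φ x) =
      φ (AdjoinRoot.mk P u0 * x.1 - ν • (AdjoinRoot.mk P u1 * x.2),
        AdjoinRoot.mk P u1 * x.1 - AdjoinRoot.mk P u0 * x.2) := by
    intro x
    rw [Nop_transport φ hj hk, hKN]
  have hJZ : ∀ (p : F[X]) (x : AdjoinRoot P × AdjoinRoot P), J (aeval (Zop J J') p (φ x)) =
      φ (ν • (AdjoinRoot.mk P p * x.2), AdjoinRoot.mk P p * x.1) := by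
    intro p x
    rw [hZ, ← hj]
    rfl
  -- the frame vectors
  have key : ∀ a b : AdjoinRoot P, Fr ν P u0 u1 J J' (φ (a, b)) ↔ b = 0 ∧ IsUnit a := by
    intro a b
    constructor
    · intro h
      have h1 := h.eig
      rw [hN, hZ, hJZ, ← map_add] at h1
      have h3 := φ.injective h1
      have h4 := congrArg Prod.fst h3
      have h5 := congrArg Prod.snd h3
      simp only [Prod.mk_add_mk] at h4 h5
      have h6 : AdjoinRoot.mk P u0 * b = 0 := by
        have h7 : (2 : F) • (AdjoinRoot.mk P u0 * b) = 0 := by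
          rw [two_smul]
          linear_combination -h5
        exact (smul_eq_zero.1 h7).resolve_left h2
      have h8 : AdjoinRoot.mk P u1 * b = 0 := by
        have h9 : (2 : F) • (ν • (AdjoinRoot.mk P u1 * b)) = 0 := by
          rw [two_smul]
          linear_combination -h4
        exact (smul_eq_zero.1 ((smul_eq_zero.1 h9).resolve_left h2)).resolve_left hν
      have hb : b = 0 := snd_zero h2 hν hC hV h6 h8
      refine ⟨hb, ?_⟩
      obtain ⟨p, q, hpq⟩ := h.gen (φ (1, 0))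
      rw [hZ, hJZ, ← map_add] at hpq
      have h10 := congrArg Prod.fst (φ.injective hpq)
      simp only [Prod.mk_add_mk] at h10
      rw [hb, mul_zero, smul_zero, add_zero] at h10
      exact IsUnit.of_mul_eq_one (AdjoinRoot.mk P p) (by rw [mul_comm]; exact h10.symm)
    · rintro ⟨rfl, ha⟩
      obtain ⟨c, hc⟩ := ha.exists_left_inv
      refine ⟨hFr.zero, ?_, ?_⟩
      · rw [hN, hZ, hJZ, ← map_add]
        congr 1
        simp only [Prod.mk_add_mk, mul_zero, smul_zero, sub_zero, add_zero, zero_add]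
      · intro v
        obtain ⟨x, rfl⟩ := φ.surjective v
        obtain ⟨p, hp⟩ := AdjoinRoot.mk_surjective (x.1 * c)
        obtain ⟨q, hq⟩ := AdjoinRoot.mk_surjective (x.2 * c)
        refine ⟨p, q, ?_⟩
        rw [hZ, hJZ, ← map_add]
        congr 1
        simp only [Prod.mk_add_mk, mul_zero, smul_zero, add_zero, zero_add]
        rw [hp, hq, mul_assoc, mul_assoc, hc, mul_one, mul_one]
  -- the bijection
  symm
  refine Nat.card_congr (Equiv.ofBijective
    (fun a : (AdjoinRoot P)ˣ => ⟨φ ((a : AdjoinRoot P), 0), (key _ _).2 ⟨rfl, a.isUnit⟩⟩) ⟨?_, ?_⟩)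
  · intro a a' haa
    have h1 := φ.injective (congrArg Subtype.val haa)
    exact Units.ext (congrArg Prod.fst h1)
  · rintro ⟨w', hw'⟩
    obtain ⟨⟨a, b⟩, rfl⟩ := φ.surjective w'
    obtain ⟨rfl, ha⟩ := (key a b).1 hw'
    exact ⟨ha.unit, rfl⟩

end Pool.Agent.H330.P2
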