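import Pool.Agent.H330.P2.Spec

/-!
# FIN: the count of the dominating pairs
-/

set_option autoImplicit false

namespace Pool.Agent.H330.P2

open Module Polynomial

namespace FIN

section

variable {F V : Type} [Field F] [AddCommGroup V] [Module F V]

theorem ism_inv {B : V →ₗ[F] V →ₗ[F] F} {a : V ≃ₗ[F] V} (ha : Ism B a) : Ism B a⁻¹ := by
  intro x y
  have h := ha (a.symm x) (a.symm y)
  rw [LinearEquiv.apply_symm_apply, LinearEquiv.apply_symm_apply] at h
  exact h.symm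

theorem ism_mul {B : V →ₗ[F] V →ₗ[F] F} {a b : V ≃ₗ[F] V} (ha : Ism B a) (hb : Ism B b) :
    Ism B (a * b) := by
  intro x y
  exact (ha (b x) (b y)).trans (hb x y)

theorem good_conj {B : V →ₗ[F] V →ₗ[F] F} {J : Module.End F V} {a b : V ≃ₗ[F] V}
    (ha : Ism B a) (h : Good B (a.conj J) (b.conj J)) : Good B J ((a⁻¹ * b).conj J) := by
  intro g hg hJ hJ'
  have h1 : Ism B (a * g * a⁻¹) := ism_mul (ism_mul ha hg) (ism_inv ha)
  have e1 : ∀ x, (a * g * a⁻¹) x = a (g (a.symm x)) := fun x => rfl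
  have h2 : Cm (a.conj J) (a * g * a⁻¹) := by
    intro x
    rw [e1, e1, LinearEquiv.conj_apply_apply, LinearEquiv.conj_apply_apply,
      LinearEquiv.symm_apply_apply, LinearEquiv.symm_apply_apply, hJ]
  have h3 : Cm (b.conj J) (a * g * a⁻¹) := by
    intro x
    have h4 := hJ' (a.symm x)
    rw [LinearEquiv.conj_apply_apply, LinearEquiv.conj_apply_apply] at h4
    have e2 : ∀ y, (a⁻¹ * b) y = a.symm (b y) := fun y => rfl
    have e3 : ∀ y, (a⁻¹ * b).symm y = b.symm (a y) := fun y => rfl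
    rw [e2, e2, e3, e3, LinearEquiv.apply_symm_apply] at h4
    rw [e1, e1, LinearEquiv.conj_apply_apply, LinearEquiv.conj_apply_apply, h4,
      LinearEquiv.apply_symm_apply]
  rcases h _ h1 h2 h3 with h5 | h5
  · left
    intro x
    have h6 := h5 (a x)
    rw [e1, LinearEquiv.symm_apply_apply] at h6
    exact a.injective h6
  · right
    intro x
    have h6 := h5 (a x)
    rw [e1, LinearEquiv.symm_apply_apply, ← map_neg] at h6
    exact a.injective h6

end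

end FIN

theorem h_FIN (hD : S_DOM) (hO : S_ORB) : S_FIN := by
  intro F V _ _ _ _ _ B m t h2 hB hm hm3 hdim ht
  have hfin : Finite (V ≃ₗ[F] V) :=
    Finite.of_injective (fun g : V ≃ₗ[F] V => (g : V → V)) DFunLike.coe_injective
  have hchar : ringChar F ≠ 2 := by
    intro h
    apply h2
    have h3 := ringChar.Nat.cast_ringChar (R := F)
    rw [h] at h3
    exact_mod_cast h3
  obtain ⟨ν, hν⟩ := FiniteField.exists_nonsquare hchar
  rcases hD F V B ν m t h2 hν hB hm hm3 hdim ht with h | ⟨J, hJ, h⟩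
  · have h4 : Nat.card {p : (V ≃ₗ[F] V) × (V ≃ₗ[F] V) //
        Ism B p.1 ∧ Ism B p.2 ∧ Dom B t p.1 p.2} = 0 := by
      have h5 : IsEmpty {p : (V ≃ₗ[F] V) × (V ≃ₗ[F] V) //
          Ism B p.1 ∧ Ism B p.2 ∧ Dom B t p.1 p.2} :=
        ⟨fun p => h p.1.1 p.1.2 p.2.1 p.2.2.1 p.2.2.2⟩
      exact Nat.card_of_isEmpty
    rw [h4, mul_zero]
    exact Nat.zero_le _
  · have h4 := hO F V B ν J m h2 hν hB hJ hm hm3 hdim
    have h5 : Nat.card {p : (V ≃ₗ[F] V) × (V ≃ₗ[F] V) //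
        Ism B p.1 ∧ Ism B p.2 ∧ Dom B t p.1 p.2} ≤
        Nat.card {g : V ≃ₗ[F] V // Ism B g} *
          Nat.card {g : V ≃ₗ[F] V // Ism B g ∧ Good B J (g.conj J)} := by
      rw [← Nat.card_prod]
      refine Nat.card_le_card_of_injective (fun p => (⟨p.1.1, p.2.1⟩, ⟨p.1.1⁻¹ * p.1.2,
        FIN.ism_mul (FIN.ism_inv p.2.1) p.2.2.1,
        FIN.good_conj p.2.1 (h p.1.1 p.1.2 p.2.1 p.2.2.1 p.2.2.2)⟩)) ?_
      intro p q hpq
      have e1 : p.1.1 = q.1.1 := congrArg (fun z => (z.1 : V ≃ₗ[F] V)) hpq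
      have e2 : p.1.1⁻¹ * p.1.2 = q.1.1⁻¹ * q.1.2 := congrArg (fun z => (z.2 : V ≃ₗ[F] V)) hpq
      rw [e1] at e2
      exact Subtype.ext (Prod.ext e1 (mul_left_cancel e2))
    calc m * Nat.card {p : (V ≃ₗ[F] V) × (V ≃ₗ[F] V) //
        Ism B p.1 ∧ Ism B p.2 ∧ Dom B t p.1 p.2} ≤
        m * (Nat.card {g : V ≃ₗ[F] V // Ism B g} *
          Nat.card {g : V ≃ₗ[F] V // Ism B g ∧ Good B J (g.conj J)}) := Nat.mul_le_mul_left _ h5
      _ = Nat.card {g : V ≃ₗ[F] V // Ism B g} *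
          (m * Nat.card {g : V ≃ₗ[F] V // Ism B g ∧ Good B J (g.conj J)}) := by ring
      _ ≤ Nat.card {g : V ≃ₗ[F] V // Ism B g} *
          (6 * Nat.card {g : V ≃ₗ[F] V // Ism B g}) := Nat.mul_le_mul_left _ h4
      _ = _ := by ring

end Pool.Agent.H330.P2
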