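import Pool.Agent.H330.P2.Spec

namespace Pool.Agent.H330.P2

open Module Polynomial

theorem h_FRM : S_FRM := by
  intro F _ ν P hP
  refine ⟨?_, ?_, ?_⟩
  · intro l hl
    refine ⟨?_, ?_⟩
    · intro x
      rw [frm_apply, mul_comm x.2 x.1, sub_self, map_zero]
    · intro x hx
      have h1 : x.1 = 0 := by
        apply hl
        intro s
        have := hx (0, s)
        rw [frm_apply] at this
        simpa using this
      have h2 : x.2 = 0 := by
        apply hl
        intro s
        have := hx (s, 0)
        rw [frm_apply] at this
        simpa using this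
      exact Prod.ext h1 h2
  · intro l
    refine ⟨?_, ?_⟩
    · intro x
      rfl
    · intro x y
      rw [frm_apply, frm_apply]
      change l (ν • x.2 * y.2 - x.1 * y.1) = - l (x.1 * y.1 - x.2 * (ν • y.2))
      rw [← map_neg]
      congr 1
      rw [smul_mul_assoc, mul_smul_comm]
      ring
  · have h1 : finrank F (AdjoinRoot P) = P.natDegree := by
      rw [(AdjoinRoot.powerBasis' hP).finrank, AdjoinRoot.powerBasis'_dim]
    have : Module.Finite F (AdjoinRoot P) := (AdjoinRoot.powerBasis' hP).finite
    rw [Module.finrank_prod, h1, two_mul]

end Pool.Agent.H330.P2
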