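import Pool.Agent.H330.P2.Group
import Pool.Agent.H330.CountResult

/-!
# The final statements, from `S_FIN` and `S_GRP`
-/

namespace Pool.Agent.H330.P2

open Module Pool.Agent.H330

section

variable {F V : Type} [Field F] [Fintype F] [AddCommGroup V] [Module F V] [Finite V]

theorem two_ne (hq : Odd (Fintype.card F)) : (2 : F) ≠ 0 := Minus.two_ne_zero' hq

theorem finite_quot (B : V →ₗ[F] V →ₗ[F] F) : Finite (SpB B ⧸ scalars (SpB B)) := by
  have hfin : Finite (V ≃ₗ[F] V) :=
    Finite.of_injective (fun e => (e : V → V)) DFunLike.coe_injective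
  infer_instance

theorem final_prob (hF : S_FIN) (hG : S_GRP) {B : V →ₗ[F] V →ₗ[F] F} (hB : Sy B) {m : ℕ}
    (hq : Odd (Fintype.card F)) (hm : Odd m) (hm3 : 3 ≤ m) (hV : finrank F V = 2 * m)
    (s : SpB B ⧸ scalars (SpB B)) : prob (SpB B ⧸ scalars (SpB B)) s 2 ≤ 6 / m := by
  have := finite_quot B
  exact prob_le hG (by omega) s (count_quot hF hB (two_ne hq) hm hm3 hV s)

theorem final_max (hF : S_FIN) (hG : S_GRP) {B : V →ₗ[F] V →ₗ[F] F} (hB : Sy B) {m : ℕ}
    (hq : Odd (Fintype.card F)) (hm : Odd m) (hm3 : 3 ≤ m) (hV : finrank F V = 2 * m) :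
    probMax (SpB B ⧸ scalars (SpB B)) 2 ≤ 6 / m := by
  have := finite_quot B
  exact probMax_le (fun s => final_prob hF hG hB hq hm hm3 hV s)

end

end Pool.Agent.H330.P2
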