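import Pool.Agent.H330.P2.Spec

/-!
# GRP: counting over the conjugacy class and over the group
-/

namespace Pool.Agent.H330.P2

namespace GRP

lemma range_two {G : Type} (x : Fin 2 → G) : Set.range x = {x 0, x 1} := by
  ext y
  simp only [Set.mem_range, Set.mem_insert_iff, Set.mem_singleton_iff, Fin.exists_fin_two]
  constructor
  · rintro (h | h)
    · exact Or.inl h.symm
    · exact Or.inr h.symm
  · rintro (h | h)
    · exact Or.inl h.symm
    · exact Or.inr h.symm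

/-- The centralizer of `s`, as a type. -/
abbrev Ce {G : Type} [Group G] (s : G) : Type := {h : G // h * s * h⁻¹ = s}

/-- The conjugacy class of `s`, as a type. -/
abbrev Kl {G : Type} [Group G] (s : G) : Type := {y : G // IsConj s y}

lemma exists_tr {G : Type} [Group G] (s : G) :
    ∃ t : Kl s → G, ∀ y : Kl s, t y * s * (t y)⁻¹ = y.1 := by
  have h : ∀ y : Kl s, ∃ c : G, c * s * c⁻¹ = y.1 := fun y => isConj_iff.mp y.2
  exact ⟨fun y => (h y).choose, fun y => (h y).choose_spec⟩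

/-- `G` is in bijection with the product of the class and the centralizer of `s`. -/
noncomputable def eG {G : Type} [Group G] (s : G) (t : Kl s → G)
    (ht : ∀ y : Kl s, t y * s * (t y)⁻¹ = y.1) : G ≃ Kl s × Ce s where
  toFun g := (⟨g * s * g⁻¹, isConj_iff.mpr ⟨g, rfl⟩⟩,
    ⟨(t ⟨g * s * g⁻¹, isConj_iff.mpr ⟨g, rfl⟩⟩)⁻¹ * g, by
      have h := ht ⟨g * s * g⁻¹, isConj_iff.mpr ⟨g, rfl⟩⟩
      simp only at h
      set u := t ⟨g * s * g⁻¹, isConj_iff.mpr ⟨g, rfl⟩⟩ with hu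
      calc u⁻¹ * g * s * (u⁻¹ * g)⁻¹ = u⁻¹ * (g * s * g⁻¹) * u := by group
        _ = u⁻¹ * (u * s * u⁻¹) * u := by rw [h]
        _ = s := by group⟩)
  invFun p := t p.1 * p.2.1
  left_inv g := by
    simp
  right_inv p := by
    obtain ⟨y, c⟩ := p
    have h1 : t y * c.1 * s * (t y * c.1)⁻¹ = y.1 := by
      calc t y * c.1 * s * (t y * c.1)⁻¹ = t y * (c.1 * s * (c.1)⁻¹) * (t y)⁻¹ := by group
        _ = t y * s * (t y)⁻¹ := by rw [c.2]
        _ = y.1 := ht y
    have h2 : (⟨t y * c.1 * s * (t y * c.1)⁻¹, isConj_iff.mpr ⟨t y * c.1, rfl⟩⟩ : Kl s) = y :=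
      Subtype.ext h1
    apply Prod.ext
    · exact h2
    · apply Subtype.ext
      show (t ⟨t y * c.1 * s * (t y * c.1)⁻¹, isConj_iff.mpr ⟨t y * c.1, rfl⟩⟩)⁻¹ *
        (t y * c.1) = c.1
      rw [h2]
      group

lemma eG_fst {G : Type} [Group G] (s : G) (t : Kl s → G)
    (ht : ∀ y : Kl s, t y * s * (t y)⁻¹ = y.1) (g : G) :
    ((eG s t ht g).1 : G) = g * s * g⁻¹ := rfl

lemma eG_symm {G : Type} [Group G] (s : G) (t : Kl s → G)
    (ht : ∀ y : Kl s, t y * s * (t y)⁻¹ = y.1) (p : Kl s × Ce s) :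
    (eG s t ht).symm p * s * ((eG s t ht).symm p)⁻¹ = p.1.1 := by
  have h := eG_fst s t ht ((eG s t ht).symm p)
  rw [Equiv.apply_symm_apply] at h
  exact h.symm

lemma card_G {G : Type} [Group G] (s : G) :
    Nat.card G = Nat.card (Kl s) * Nat.card (Ce s) := by
  obtain ⟨t, ht⟩ := exists_tr s
  rw [Nat.card_congr (eG s t ht), Nat.card_prod]

/-- The pairs of group elements against the pairs of class elements. -/
noncomputable def eP {G : Type} [Group G] (s : G) (Q : Set G → Prop) (t : Kl s → G)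
    (ht : ∀ y : Kl s, t y * s * (t y)⁻¹ = y.1) :
    {p : G × G // Q {p.1 * s * p.1⁻¹, p.2 * s * p.2⁻¹}} ≃
      {x : Fin 2 → G // (∀ i, IsConj s (x i)) ∧ Q (Set.range x)} × (Ce s × Ce s) where
  toFun p := (⟨![p.1.1 * s * p.1.1⁻¹, p.1.2 * s * p.1.2⁻¹], by
      refine ⟨?_, ?_⟩
      · intro i
        fin_cases i
        · exact isConj_iff.mpr ⟨p.1.1, rfl⟩
        · exact isConj_iff.mpr ⟨p.1.2, rfl⟩
      · rw [range_two]
        exact p.2⟩, ((eG s t ht p.1.1).2, (eG s t ht p.1.2).2))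
  invFun q := ⟨((eG s t ht).symm (⟨q.1.1 0, q.1.2.1 0⟩, q.2.1),
      (eG s t ht).symm (⟨q.1.1 1, q.1.2.1 1⟩, q.2.2)), by
      have h := q.1.2.2
      rw [range_two] at h
      simp only [eG_symm]
      exact h⟩
  left_inv p := by
    apply Subtype.ext
    apply Prod.ext
    · show (eG s t ht).symm ((eG s t ht p.1.1).1, (eG s t ht p.1.1).2) = p.1.1
      rw [Prod.mk.eta, Equiv.symm_apply_apply]
    · show (eG s t ht).symm ((eG s t ht p.1.2).1, (eG s t ht p.1.2).2) = p.1.2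
      rw [Prod.mk.eta, Equiv.symm_apply_apply]
  right_inv q := by
    obtain ⟨⟨x, hx⟩, c, d⟩ := q
    apply Prod.ext
    · apply Subtype.ext
      funext i
      fin_cases i
      · exact eG_symm s t ht (⟨x 0, hx.1 0⟩, c)
      · exact eG_symm s t ht (⟨x 1, hx.1 1⟩, d)
    · apply Prod.ext
      · show (eG s t ht ((eG s t ht).symm (⟨x 0, hx.1 0⟩, c))).2 = c
        rw [Equiv.apply_symm_apply]
      · show (eG s t ht ((eG s t ht).symm (⟨x 1, hx.1 1⟩, d))).2 = d
        rw [Equiv.apply_symm_apply]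

end GRP

theorem h_GRP : S_GRP := by
  intro G _ _ s Q
  obtain ⟨t, ht⟩ := GRP.exists_tr s
  have h1 := Nat.card_congr (GRP.eP s Q t ht)
  rw [Nat.card_prod, Nat.card_prod] at h1
  have h2 : Nat.card G = Nat.card {y : G // IsConj s y} * Nat.card (GRP.Ce s) := GRP.card_G s
  rw [h1, h2]
  ring

end Pool.Agent.H330.P2
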