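import Pool.Agent.H330.P2.Spec

namespace Pool.Agent.H330.P2

open Module Polynomial

namespace HERM

section

variable {F V : Type} [Field F] [AddCommGroup V] [Module F V] {m : ℕ}

/-- The linear map with the coordinates `(a, b)`. -/
noncomputable def T (J : Module.End F V) (e : Fin m → V) :
    ((Fin m → F) × (Fin m → F)) →ₗ[F] V :=
  (Fintype.linearCombination F e).coprod (J ∘ₗ Fintype.linearCombination F e)

theorem T_apply (J : Module.End F V) (e : Fin m → V) (a b : Fin m → F) :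
    T J e (a, b) = ∑ i, a i • e i + J (∑ i, b i • e i) := by
  simp [T, Fintype.linearCombination_apply]

theorem T_J (ν : F) (B : V →ₗ[F] V →ₗ[F] F) (J : Module.End F V) (hJ : Rt B ν J) (e : Fin m → V)
    (a b : Fin m → F) : J (T J e (a, b)) = T J e (ν • b, a) := by
  rw [T_apply, T_apply, map_add, hJ.sq, Finset.smul_sum, add_comm]
  congr 1
  apply Finset.sum_congr rfl
  intro i _
  rw [Pi.smul_apply, smul_assoc]

theorem B_ee (B : V →ₗ[F] V →ₗ[F] F) (e : Fin m → V) (h0 : ∀ i j, B (e i) (e j) = 0)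
    (a c : Fin m → F) : B (∑ i, a i • e i) (∑ i, c i • e i) = 0 := by
  simp only [map_sum, LinearMap.sum_apply, map_smul, LinearMap.smul_apply, h0, smul_zero,
    Finset.sum_const_zero]

theorem B_eJ (B : V →ₗ[F] V →ₗ[F] F) (J : Module.End F V) (e : Fin m → V)
    (h1 : ∀ i j, B (e i) (J (e j)) = if i = j then 1 else 0)
    (a c : Fin m → F) : B (∑ i, a i • e i) (J (∑ i, c i • e i)) = ∑ i, a i * c i := by
  simp only [map_sum, LinearMap.sum_apply, map_smul, LinearMap.smul_apply, h1, smul_eq_mul]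
  apply Finset.sum_congr rfl
  intro i _
  simp [mul_comm]

theorem B_T (ν : F) (B : V →ₗ[F] V →ₗ[F] F) (J : Module.End F V) (hJ : Rt B ν J) (e : Fin m → V)
    (h0 : ∀ i j, B (e i) (e j) = 0) (h1 : ∀ i j, B (e i) (J (e j)) = if i = j then 1 else 0)
    (a b c d : Fin m → F) :
    B (T J e (a, b)) (T J e (c, d)) = ∑ i, a i * d i - ∑ i, b i * c i := by
  rw [T_apply, T_apply]
  simp only [map_add, LinearMap.add_apply]
  rw [hJ.skew, hJ.skew, hJ.sq, map_smul, B_ee B e h0, B_ee B e h0, B_eJ B J e h1, B_eJ B J e h1]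
  simp [sub_eq_add_neg]
  ring

theorem T_inj (ν : F) (B : V →ₗ[F] V →ₗ[F] F) (J : Module.End F V) (hJ : Rt B ν J) (e : Fin m → V)
    (h0 : ∀ i j, B (e i) (e j) = 0) (h1 : ∀ i j, B (e i) (J (e j)) = if i = j then 1 else 0) :
    Function.Injective (T J e) := by
  rw [injective_iff_map_eq_zero]
  rintro ⟨a, b⟩ h
  have hz : ∀ c d : Fin m → F, ∑ i, a i * d i - ∑ i, b i * c i = 0 := by
    intro c d
    rw [← B_T ν B J hJ e h0 h1, h]
    simp
  have ha : a = 0 := by
    funext j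
    have := hz 0 (Pi.single j 1)
    simpa [Pi.single_apply] using this
  have hb : b = 0 := by
    funext j
    have := hz (Pi.single j 1) 0
    simpa [Pi.single_apply] using this
  rw [ha, hb]
  rfl

end

end HERM

theorem h_HERM (hB : S_BAS) : S_HERM := by
  intro F V W _ _ _ _ _ _ _ _ B B' ν J J' m h2 hν hSy hSy' hRt hRt' hd hd'
  obtain ⟨e, h0, h1⟩ := hB F V B ν J m h2 hν hSy hRt hd
  obtain ⟨e', h0', h1'⟩ := hB F W B' ν J' m h2 hν hSy' hRt' hd'
  have hfd : finrank F ((Fin m → F) × (Fin m → F)) = 2 * m := by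
    rw [Module.finrank_prod, Module.finrank_fin_fun]
    ring
  let E : ((Fin m → F) × (Fin m → F)) ≃ₗ[F] V :=
    (HERM.T J e).linearEquivOfInjective (HERM.T_inj ν B J hRt e h0 h1) (hfd.trans hd.symm)
  let E' : ((Fin m → F) × (Fin m → F)) ≃ₗ[F] W :=
    (HERM.T J' e').linearEquivOfInjective (HERM.T_inj ν B' J' hRt' e' h0' h1')
      (hfd.trans hd'.symm)
  have hE : ∀ x, E x = HERM.T J e x := fun x => rfl
  have hE' : ∀ x, E' x = HERM.T J' e' x := fun x => rfl
  have hφ : ∀ x, (E.symm.trans E') (HERM.T J e x) = HERM.T J' e' x := by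
    intro x
    rw [← hE, LinearEquiv.trans_apply, LinearEquiv.symm_apply_apply, hE']
  refine ⟨E.symm.trans E', ?_, ?_⟩
  · intro x y
    obtain ⟨⟨a, b⟩, rfl⟩ := E.surjective x
    obtain ⟨⟨c, d⟩, rfl⟩ := E.surjective y
    rw [hE, hE, hφ, hφ, HERM.B_T ν B J hRt e h0 h1, HERM.B_T ν B' J' hRt' e' h0' h1']
  · intro x
    obtain ⟨⟨a, b⟩, rfl⟩ := E.surjective x
    rw [hE, HERM.T_J ν B J hRt e, hφ, hφ, HERM.T_J ν B' J' hRt' e']

end Pool.Agent.H330.P2
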