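import Pool.Agent.H330.P2.Spec

/-!
# JP: the number of framed `J'` of a given type
-/

namespace Pool.Agent.H330.P2

open Module Polynomial

namespace JP

/-- Counting a finite type by a map with fibres of constant size. -/
theorem card_fib {A S : Type} [Finite A] [Finite S] (f : A → S) (c : ℕ)
    (h : ∀ s : S, Nat.card {a : A // f a = s} = c) : Nat.card A = Nat.card S * c := by
  haveI : Fintype S := Fintype.ofFinite S
  have e : A ≃ Σ s : S, {a : A // f a = s} := (Equiv.sigmaFiberEquiv f).symm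
  rw [Nat.card_congr e, Nat.card_sigma, Finset.sum_congr rfl (fun s _ => h s)]
  rw [Finset.sum_const, Finset.card_univ, smul_eq_mul, Nat.card_eq_fintype_card]

end JP

/-- **JP.**  The number of framed `J'` of a given type. -/
theorem h_JP (hC : S_CNT) (hF : S_FIB) (hD : S_DUAL) : S_JP := by
  intro F V _ _ _ _ _ B ν J P u0 u1 h2 hν hB hJ hP hCp hr hV
  have hν0 : ν ≠ 0 := by
    rintro rfl
    exact hν ⟨0, (mul_zero 0).symm⟩
  have e1 := hC F V B ν J P u0 u1 h2 hν hB hJ hP hr hV
  have e2 := hD F P hP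
  haveI : FiniteDimensional F V := Module.Finite.of_finite
  haveI : Finite (Module.End F V) := DFunLike.finite (Module.End F V)
  haveI : Module.Finite F (AdjoinRoot P) := hP.finite_adjoinRoot
  haveI : Finite (AdjoinRoot P) := Module.finite_of_finite F
  have hpos : 0 < Nat.card (AdjoinRoot P)ˣ := Nat.card_pos
  have e3 : Nat.card {p : Module.End F V × V // Rt B ν p.1 ∧ Fr ν P u0 u1 J p.1 p.2} =
      Nat.card {J' : Module.End F V // Rt B ν J' ∧ ∃ w, Fr ν P u0 u1 J J' w} *
        Nat.card (AdjoinRoot P)ˣ := by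
    refine JP.card_fib (fun p => ⟨p.1.1, p.2.1, p.1.2, p.2.2⟩) _ ?_
    rintro ⟨J', hJ', w, hw⟩
    rw [← hF F V B ν J J' P u0 u1 w h2 hν0 hB hJ hJ' hP hCp hr hV hw]
    refine Nat.card_congr ?_
    refine
      { toFun := fun a => ⟨a.1.1.2, ?_⟩
        invFun := fun w' => ⟨⟨(J', w'.1), hJ', w'.2⟩, rfl⟩
        left_inv := ?_
        right_inv := fun w' => rfl }
    · obtain ⟨⟨⟨K, v⟩, h1, h3⟩, h4⟩ := a
      have h5 : K = J' := congrArg Subtype.val h4
      subst h5
      exact h3
    · rintro ⟨⟨⟨K, v⟩, h1, h3⟩, h4⟩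
      have h5 : K = J' := congrArg Subtype.val h4
      subst h5
      rfl
  rw [e1, e2, mul_comm] at e3
  exact (Nat.eq_of_mul_eq_mul_right hpos e3).symm

end Pool.Agent.H330.P2
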