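import Pool.Agent.H330.P2.Spec

/-!
# MP_971469_al: the lemma KOP
-/

namespace Pool.Agent.H330.P2

open Module Polynomial

namespace KOP

variable {F : Type} [Field F] {ν : F} {P u0 u1 : F[X]}

theorem jop_apply (x : AdjoinRoot P × AdjoinRoot P) : jop ν P x = (ν • x.2, x.1) := rfl

theorem kop_apply (x : AdjoinRoot P × AdjoinRoot P) : kop ν P u0 u1 x =
    ((2 : F)⁻¹ • (AdjoinRoot.root P * x.2) + AdjoinRoot.mk P u0 * x.1
      - ν • (AdjoinRoot.mk P u1 * x.2),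
    (2 * ν)⁻¹ • (AdjoinRoot.root P * x.1) + AdjoinRoot.mk P u1 * x.1 - AdjoinRoot.mk P u0 * x.2) :=
  rfl

/-- The scalar relations in the algebra. -/
theorem rel (h2 : (2 : F) ≠ 0) (hν : ν ≠ 0) :
    (2 : AdjoinRoot P) * algebraMap F (AdjoinRoot P) (2 : F)⁻¹ = 1 ∧
    algebraMap F (AdjoinRoot P) ν * algebraMap F (AdjoinRoot P) (2 * ν)⁻¹ =
      algebraMap F (AdjoinRoot P) (2 : F)⁻¹ ∧
    algebraMap F (AdjoinRoot P) (2 : F)⁻¹ * algebraMap F (AdjoinRoot P) (2 * ν)⁻¹ =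
      algebraMap F (AdjoinRoot P) (4 * ν)⁻¹ := by
  refine ⟨?_, ?_, ?_⟩
  · have h : (2 : AdjoinRoot P) = algebraMap F (AdjoinRoot P) 2 := by
      rw [map_ofNat]
    rw [h, ← map_mul, mul_inv_cancel₀ h2, map_one]
  · rw [← map_mul]
    congr 1
    field_simp
  · rw [← map_mul]
    congr 1
    rw [← mul_inv]
    congr 1
    ring

theorem vu (h : Vu ν P u0 u1) : AdjoinRoot.mk P u0 ^ 2 -
    algebraMap F (AdjoinRoot P) ν * AdjoinRoot.mk P u1 ^ 2 =
    algebraMap F (AdjoinRoot P) ν - algebraMap F (AdjoinRoot P) (4 * ν)⁻¹ * AdjoinRoot.root P ^ 2 := by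
  have h1 := AdjoinRoot.mk_eq_zero.2 h
  simp only [map_sub, map_mul, map_pow, AdjoinRoot.mk_C, AdjoinRoot.mk_X] at h1
  rw [AdjoinRoot.algebraMap_eq]
  linear_combination h1

theorem zop_apply (h2 : (2 : F) ≠ 0) (hν : ν ≠ 0) (x : AdjoinRoot P × AdjoinRoot P) :
    Zop (jop ν P) (kop ν P u0 u1) x = (AdjoinRoot.root P * x.1, AdjoinRoot.root P * x.2) := by
  obtain ⟨e1, e2, e3⟩ := rel (P := P) h2 hν
  obtain ⟨x1, x2⟩ := x
  change jop ν P (kop ν P u0 u1 (x1, x2)) + kop ν P u0 u1 (jop ν P (x1, x2)) = _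
  simp only [kop_apply, jop_apply, Algebra.smul_def, Prod.mk_add_mk, Prod.mk.injEq]
  constructor
  · linear_combination (AdjoinRoot.root P * x1) * (e1 + e2)
  · linear_combination (AdjoinRoot.root P * x2) * (e1 + e2)

theorem zop_pow (h2 : (2 : F) ≠ 0) (hν : ν ≠ 0) (n : ℕ) (x : AdjoinRoot P × AdjoinRoot P) :
    (Zop (jop ν P) (kop ν P u0 u1) ^ n) x =
      (AdjoinRoot.root P ^ n * x.1, AdjoinRoot.root P ^ n * x.2) := by
  induction n with
  | zero => simp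
  | succ n ih =>
    rw [pow_succ', Module.End.mul_apply, ih, zop_apply h2 hν]
    simp only [pow_succ', mul_assoc]

theorem aeval_apply (h2 : (2 : F) ≠ 0) (hν : ν ≠ 0) (p : F[X]) (x : AdjoinRoot P × AdjoinRoot P) :
    aeval (Zop (jop ν P) (kop ν P u0 u1)) p x =
      (AdjoinRoot.mk P p * x.1, AdjoinRoot.mk P p * x.2) := by
  induction p using Polynomial.induction_on' with
  | add p q hp hq =>
    rw [map_add, LinearMap.add_apply, hp, hq]
    simp only [map_add, add_mul, Prod.mk_add_mk]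
  | monomial n a =>
    rw [aeval_monomial, Module.End.mul_apply, zop_pow h2 hν, Module.algebraMap_end_apply]
    have h : AdjoinRoot.mk P (monomial n a) = algebraMap F (AdjoinRoot P) a * AdjoinRoot.root P ^ n := by
      rw [← C_mul_X_pow_eq_monomial, map_mul, map_pow, AdjoinRoot.mk_C, AdjoinRoot.mk_X,
        AdjoinRoot.algebraMap_eq]
    rw [h, Prod.smul_mk]
    simp only [Algebra.smul_def, mul_assoc]

theorem nop_apply (h2 : (2 : F) ≠ 0) (hν : ν ≠ 0) (x : AdjoinRoot P × AdjoinRoot P) :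
    Nop ν (jop ν P) (kop ν P u0 u1) x =
      (AdjoinRoot.mk P u0 * x.1 - ν • (AdjoinRoot.mk P u1 * x.2),
        AdjoinRoot.mk P u1 * x.1 - AdjoinRoot.mk P u0 * x.2) := by
  obtain ⟨e1, e2, e3⟩ := rel (P := P) h2 hν
  change kop ν P u0 u1 x - (2 * ν)⁻¹ • (jop ν P (Zop (jop ν P) (kop ν P u0 u1) x)) = _
  rw [zop_apply h2 hν]
  obtain ⟨x1, x2⟩ := x
  simp only [kop_apply, jop_apply, Prod.smul_mk, Prod.mk_sub_mk, Prod.mk.injEq]
  simp only [Algebra.smul_def]
  constructor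
  · linear_combination -(AdjoinRoot.root P * x2) * e2
  · ring

end KOP

open KOP in
theorem h_KOP : S_KOP := by
  intro F _ ν P u0 u1 h2 hν hV
  obtain ⟨e1, e2, e3⟩ := rel (P := P) h2 hν
  have e4 := vu hV
  refine ⟨fun l => ⟨?_, ?_⟩, aeval_apply h2 hν, nop_apply h2 hν, ⟨?_, ?_, ?_⟩⟩
  · rintro ⟨x1, x2⟩
    simp only [kop_apply, Prod.smul_mk, Prod.mk.injEq]
    simp only [Algebra.smul_def]
    constructor
    · linear_combination x1 * e4 + (AdjoinRoot.root P ^ 2 * x1) * e3 -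
        (AdjoinRoot.root P * AdjoinRoot.mk P u1 * x1) * e2
    · linear_combination x2 * e4 + (AdjoinRoot.root P ^ 2 * x2) * e3 -
        (AdjoinRoot.root P * AdjoinRoot.mk P u1 * x2) * e2
  · rintro ⟨x1, x2⟩ ⟨y1, y2⟩
    rw [frm_apply, frm_apply, ← map_neg]
    congr 1
    simp only [kop_apply, Algebra.smul_def]
    ring
  · apply LinearMap.ext
    intro x
    rw [aeval_apply h2 hν, AdjoinRoot.mk_self]
    simp
  · rw [nop_apply h2 hν, aeval_apply h2 hν, aeval_apply h2 hν, jop_apply]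
    simp
  · rintro ⟨v1, v2⟩
    obtain ⟨a, rfl⟩ := AdjoinRoot.mk_surjective v1
    obtain ⟨b, rfl⟩ := AdjoinRoot.mk_surjective v2
    refine ⟨a, b, ?_⟩
    rw [aeval_apply h2 hν, aeval_apply h2 hν, jop_apply]
    simp

end Pool.Agent.H330.P2
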