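import Pool.Agent.H330.P2.Spec

/-!
# MP_971469_al: MAP, a frame gives coordinates
-/

set_option autoImplicit false

namespace Pool.Agent.H330.P2

open Module Polynomial

namespace MAP

variable {F V : Type} [Field F] [AddCommGroup V] [Module F V]

/-- The algebra map `F[X]/(P) → End V`, `x ↦ Z`. -/
noncomputable def ev (P : F[X]) (Z : Module.End F V) (h : aeval Z P = 0) :
    AdjoinRoot P →ₐ[F] Module.End F V :=
  Ideal.Quotient.liftₐ (Ideal.span {P}) (aeval Z) (by
    intro a ha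
    obtain ⟨c, rfl⟩ := Ideal.mem_span_singleton'.1 ha
    rw [map_mul, h, mul_zero])

theorem ev_mk (P : F[X]) (Z : Module.End F V) (h : aeval Z P = 0) (p : F[X]) :
    ev P Z h (AdjoinRoot.mk P p) = aeval Z p := rfl

theorem ev_root (P : F[X]) (Z : Module.End F V) (h : aeval Z P = 0) :
    ev P Z h (AdjoinRoot.root P) = Z := by
  have : ev P Z h (AdjoinRoot.root P) = aeval Z (X : F[X]) := rfl
  rw [this, aeval_X]

/-- `r ↦ r(Z) w`. -/
noncomputable def ew (P : F[X]) (Z : Module.End F V) (h : aeval Z P = 0) (w : V) :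
    AdjoinRoot P →ₗ[F] V :=
  (LinearMap.applyₗ w) ∘ₗ (ev P Z h).toLinearMap

theorem ew_apply (P : F[X]) (Z : Module.End F V) (h : aeval Z P = 0) (w : V) (r : AdjoinRoot P) :
    ew P Z h w r = ev P Z h r w := rfl

theorem ew_mk (P : F[X]) (Z : Module.End F V) (h : aeval Z P = 0) (w : V) (p : F[X]) :
    ew P Z h w (AdjoinRoot.mk P p) = aeval Z p w := rfl

/-- `(a, b) ↦ a(Z) w + J (b(Z) w)`. -/
noncomputable def ph (P : F[X]) (J Z : Module.End F V) (h : aeval Z P = 0) (w : V) :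
    (AdjoinRoot P × AdjoinRoot P) →ₗ[F] V :=
  (ew P Z h w) ∘ₗ (LinearMap.fst F _ _) + J ∘ₗ (ew P Z h w) ∘ₗ (LinearMap.snd F _ _)

theorem ph_apply (P : F[X]) (J Z : Module.End F V) (h : aeval Z P = 0) (w : V)
    (x : AdjoinRoot P × AdjoinRoot P) :
    ph P J Z h w x = ew P Z h w x.1 + J (ew P Z h w x.2) := rfl

/-- `ℓ(r) = B w (J (r(Z) w))`. -/
noncomputable def el (B : V →ₗ[F] V →ₗ[F] F) (P : F[X]) (J Z : Module.End F V)
    (h : aeval Z P = 0) (w : V) : AdjoinRoot P →ₗ[F] F :=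
  (B w) ∘ₗ J ∘ₗ (ew P Z h w)

theorem el_apply (B : V →ₗ[F] V →ₗ[F] F) (P : F[X]) (J Z : Module.End F V)
    (h : aeval Z P = 0) (w : V) (r : AdjoinRoot P) :
    el B P J Z h w r = B w (J (ew P Z h w r)) := rfl

theorem skew {B : V →ₗ[F] V →ₗ[F] F} (hB : Sy B) (x y : V) : B x y = - B y x := by
  have h := hB.alt (x + y)
  simp only [map_add, LinearMap.add_apply, hB.alt, zero_add, add_zero] at h
  linear_combination h

end MAP

open MAP

theorem h_MAP (hA : S_ALG) (hF : S_FRM) : S_MAP := by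
  intro F V _ _ _ _ B ν J J' P u0 u1 w h2 hν hB hJ hJ' hP hdim hfr
  obtain ⟨-, -, a3, -, -, -, -, a8, a9, a10, a11⟩ := hA F V B ν J J' h2 hν hJ hJ'
  obtain ⟨-, -, hfin⟩ := hF F ν P hP
  set Z := Zop J J' with hZ
  set N := Nop ν J J' with hN
  have hz : aeval Z P = 0 := hfr.zero
  -- facts for elements of the quotient
  have b1 : ∀ (r : AdjoinRoot P) (x : V), ev P Z hz r (J x) = J (ev P Z hz r x) := by
    intro r x
    obtain ⟨p, rfl⟩ := AdjoinRoot.mk_surjective r
    exact a8 p x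
  have b2 : ∀ (r : AdjoinRoot P) (x : V), ev P Z hz r (N x) = N (ev P Z hz r x) := by
    intro r x
    obtain ⟨p, rfl⟩ := AdjoinRoot.mk_surjective r
    exact a10 p x
  have b3 : ∀ (r : AdjoinRoot P) (x y : V), B (ev P Z hz r x) y = B x (ev P Z hz r y) := by
    intro r x y
    obtain ⟨p, rfl⟩ := AdjoinRoot.mk_surjective r
    exact a11 p x y
  have b4 : ∀ (r s : AdjoinRoot P), ew P Z hz w (r * s) = ev P Z hz r (ew P Z hz w s) := by
    intro r s
    rw [ew_apply, ew_apply, map_mul]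
    rfl
  -- B w (c w) = 0
  have c1 : ∀ r : AdjoinRoot P, B w (ew P Z hz w r) = 0 := by
    intro r
    have e1 : B w (ew P Z hz w r) = - B w (ew P Z hz w r) := by
      conv_lhs => rw [ew_apply, ← b3, skew hB]
      rfl
    have e2 : (2 : F) * B w (ew P Z hz w r) = 0 := by
      linear_combination e1
    exact (mul_eq_zero.1 e2).resolve_left h2
  have c2 : ∀ r s : AdjoinRoot P, B (ew P Z hz w r) (ew P Z hz w s) = 0 := by
    intro r s
    rw [ew_apply, b3, ← b4]
    exact c1 _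
  have c3 : ∀ r s : AdjoinRoot P, B (ew P Z hz w r) (J (ew P Z hz w s)) =
      el B P J Z hz w (r * s) := by
    intro r s
    rw [ew_apply, b3, b1, ← b4]
    rfl
  have c4 : ∀ r s : AdjoinRoot P, B (J (ew P Z hz w r)) (ew P Z hz w s) =
      - el B P J Z hz w (r * s) := by
    intro r s
    rw [hJ.skew, c3]
  have c5 : ∀ r s : AdjoinRoot P, B (J (ew P Z hz w r)) (J (ew P Z hz w s)) = 0 := by
    intro r s
    rw [hJ.skew, hJ.sq, map_smul, c2, smul_zero, neg_zero]
  have d1 : ∀ x y, B (ph P J Z hz w x) (ph P J Z hz w y) = frm (el B P J Z hz w) x y := by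
    intro x y
    rw [ph_apply, ph_apply, frm_apply]
    simp only [map_add, LinearMap.add_apply, c2, c3, c4, c5, map_sub]
    ring
  -- bijectivity
  have hsurj : Function.Surjective (ph P J Z hz w) := by
    intro v
    obtain ⟨a, b, hab⟩ := hfr.gen v
    refine ⟨(AdjoinRoot.mk P a, AdjoinRoot.mk P b), ?_⟩
    rw [ph_apply, ew_mk, ew_mk]
    exact hab.symm
  have hfd : Module.Finite F (AdjoinRoot P) := hP.finite_adjoinRoot
  have hinj : Function.Injective (ph P J Z hz w) :=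
    (LinearMap.injective_iff_surjective_of_finrank_eq_finrank (hfin.trans hdim.symm)).2 hsurj
  -- jop
  have d2 : ∀ x, ph P J Z hz w (jop ν P x) = J (ph P J Z hz w x) := by
    intro x
    rw [ph_apply, ph_apply, map_add, hJ.sq]
    change ew P Z hz w (ν • x.2) + J (ew P Z hz w x.1) = _
    rw [map_smul, add_comm]
  -- kop
  have e1 : ∀ v, J' v = N v + (2 * ν)⁻¹ • J (Z v) := by
    intro v
    rw [hN, hZ]
    unfold Nop
    rw [LinearMap.sub_apply, LinearMap.smul_apply]
    simp only [Module.End.mul_apply]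
    rw [sub_add_cancel]
  have e2 : ∀ v, N (J v) = - J (N v) := a3
  have e3 : N w = ew P Z hz w (AdjoinRoot.mk P u0) + J (ew P Z hz w (AdjoinRoot.mk P u1)) :=
    hfr.eig
  have e4 : ∀ r : AdjoinRoot P, N (ew P Z hz w r) =
      ew P Z hz w (r * AdjoinRoot.mk P u0) + J (ew P Z hz w (r * AdjoinRoot.mk P u1)) := by
    intro r
    rw [b4, b4, ← b1, ← map_add, ← e3, b2]
    rfl
  have e5 : ∀ r : AdjoinRoot P, Z (ew P Z hz w r) = ew P Z hz w (AdjoinRoot.root P * r) := by
    intro r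
    rw [b4, ev_root]
  have e6 : ∀ v, Z (J v) = J (Z v) := by
    intro v
    have := b1 (AdjoinRoot.root P) v
    rwa [ev_root] at this
  have hνν : (2 * ν)⁻¹ * ν = (2 : F)⁻¹ := by
    field_simp
  have d3 : ∀ x, ph P J Z hz w (kop ν P u0 u1 x) = J' (ph P J Z hz w x) := by
    intro x
    rw [e1, ph_apply, ph_apply]
    change ew P Z hz w ((2 : F)⁻¹ • (AdjoinRoot.root P * x.2) + AdjoinRoot.mk P u0 * x.1
        - ν • (AdjoinRoot.mk P u1 * x.2)) +
      J (ew P Z hz w ((2 * ν)⁻¹ • (AdjoinRoot.root P * x.1) + AdjoinRoot.mk P u1 * x.1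
        - AdjoinRoot.mk P u0 * x.2)) = _
    simp only [map_add, map_sub, map_smul, e2, e4, e5, e6, hJ.sq, smul_add, smul_smul, hνν]
    rw [mul_comm x.1 (AdjoinRoot.mk P u0), mul_comm x.1 (AdjoinRoot.mk P u1),
      mul_comm x.2 (AdjoinRoot.mk P u0), mul_comm x.2 (AdjoinRoot.mk P u1)]
    module
  refine ⟨el B P J Z hz w, LinearEquiv.ofBijective (ph P J Z hz w) ⟨hinj, hsurj⟩, ?_, d1, d2, d3,
    ?_⟩
  · intro r hr
    have h1 : ph P J Z hz w (r, 0) = 0 := by
      refine hB.nondeg _ fun y => ?_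
      obtain ⟨y', rfl⟩ := hsurj y
      rw [d1, frm_apply, zero_mul, sub_zero]
      exact hr _
    have h3 := hinj (h1.trans (map_zero (ph P J Z hz w)).symm)
    exact (Prod.ext_iff.1 h3).1
  · change ph P J Z hz w (1, 0) = w
    rw [ph_apply, ew_apply, ew_apply, map_one, map_zero, LinearMap.zero_apply, map_zero, add_zero]
    rfl

end Pool.Agent.H330.P2
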