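import Pool.Agent.H330.P2.Spec

/-!
# MP_971469_al, lemma MIN: the minimal polynomial of a framed operator
-/

set_option autoImplicit false

namespace Pool.Agent.H330.P2

open Module Polynomial

namespace MIN

theorem mem_span {F V : Type} [Field F] [AddCommGroup V] [Module F V] (Z : Module.End F V) (w : V)
    (μ : F[X]) (hμ : μ.Monic) (hz : aeval Z μ = 0) (a : F[X]) :
    aeval Z a w ∈ Submodule.span F (Set.range fun i : Fin μ.natDegree => (Z ^ (i : ℕ)) w) := by
  have h1 : aeval Z (a %ₘ μ) = aeval Z a := by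
    have h2 := congrArg (aeval Z) (modByMonic_add_div a μ)
    rw [map_add, map_mul, hz, zero_mul, add_zero] at h2
    exact h2
  rw [← h1]
  by_cases hr : a %ₘ μ = 0
  · rw [hr, map_zero, LinearMap.zero_apply]
    exact Submodule.zero_mem _
  · have h3 : (a %ₘ μ).natDegree < μ.natDegree :=
      natDegree_lt_natDegree hr (degree_modByMonic_lt a hμ)
    rw [aeval_eq_sum_range' h3, LinearMap.sum_apply]
    refine Submodule.sum_mem _ fun i hi => ?_
    rw [LinearMap.smul_apply]
    exact Submodule.smul_mem _ _ (Submodule.subset_span ⟨⟨i, Finset.mem_range.mp hi⟩, rfl⟩)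

end MIN

theorem h_MIN : S_MIN := by
  intro F V _ _ _ _ ν J J' P u0 u1 w hP hdim hFr
  have hint : IsIntegral F (Zop J J') := ⟨P, hP, hFr.zero⟩
  have hμ : (minpoly F (Zop J J')).Monic := minpoly.monic hint
  have hz : aeval (Zop J J') (minpoly F (Zop J J')) = 0 := minpoly.aeval F _
  have hdvd : minpoly F (Zop J J') ∣ P := minpoly.dvd F _ hFr.zero
  have hspan : Submodule.span F (Set.range
      (Sum.elim (fun i : Fin (minpoly F (Zop J J')).natDegree => ((Zop J J') ^ (i : ℕ)) w)
        (fun i : Fin (minpoly F (Zop J J')).natDegree => J (((Zop J J') ^ (i : ℕ)) w)))) = ⊤ := by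
    rw [eq_top_iff]
    intro v _
    obtain ⟨a, b, hv⟩ := hFr.gen v
    rw [hv, Set.Sum.elim_range, Submodule.span_union]
    refine Submodule.add_mem_sup (MIN.mem_span _ w _ hμ hz a) ?_
    have h1 := Submodule.mem_map_of_mem (f := J) (MIN.mem_span _ w _ hμ hz b)
    rw [Submodule.map_span, ← Set.range_comp] at h1
    exact h1
  have hfin := finrank_le_of_span_eq_top hspan
  rw [Fintype.card_sum, Fintype.card_fin, hdim] at hfin
  exact (eq_of_monic_of_dvd_of_natDegree_le hμ hP hdvd (by omega)).symm

end Pool.Agent.H330.P2
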