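import Pool.Agent.H330.P2.Spec

/-!
# MP_971469_al: good implies `N` injective
-/

set_option autoImplicit false

namespace Pool.Agent.H330.P2

open Module

namespace NI

variable {F V : Type} [Field F] [AddCommGroup V] [Module F V]

/-- the operator `S` -/
noncomputable def Sop (B : V →ₗ[F] V →ₗ[F] F) (J : Module.End F V) (w : V) : Module.End F V :=
  (B.flip (J w)).smulRight w - (B.flip w).smulRight (J w)

theorem Sop_apply (B : V →ₗ[F] V →ₗ[F] F) (J : Module.End F V) (w x : V) :
    Sop B J w x = B x (J w) • w - B x w • J w := rfl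

theorem anti {B : V →ₗ[F] V →ₗ[F] F} (hB : Sy B) (x y : V) : B x y = - B y x := by
  have h := hB.alt (x + y)
  simp only [map_add, LinearMap.add_apply, hB.alt] at h
  linear_combination h

section

variable {B : V →ₗ[F] V →ₗ[F] F} {ν : F} {J J' : Module.End F V}

theorem S_J (hJ : Rt B ν J) (w x : V) : Sop B J w (J x) = J (Sop B J w x) := by
  rw [Sop_apply, Sop_apply, map_sub, map_smul, map_smul, hJ.sq, hJ.skew x (J w), hJ.skew x w,
    hJ.sq, map_smul]
  simp only [smul_eq_mul, neg_smul, smul_smul]
  rw [mul_comm ν (B x w)]
  abel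

theorem S_J' (hJ' : Rt B ν J') {ε : F} {w : V} (h1 : J' w = ε • J w)
    (h3 : J' (J w) = (ε * ν) • w) (x : V) : Sop B J w (J' x) = J' (Sop B J w x) := by
  rw [Sop_apply, Sop_apply, map_sub, map_smul, map_smul, hJ'.skew x (J w), hJ'.skew x w, h1, h3]
  simp only [map_smul, smul_eq_mul, neg_smul, smul_smul]
  rw [mul_comm (B x (J w)) ε, mul_comm (B x w) (ε * ν)]
  abel

theorem S_adj (hB : Sy B) (w x y : V) : B (Sop B J w x) y = B x (Sop B J w y) := by
  rw [Sop_apply, Sop_apply]
  simp only [map_sub, map_smul, LinearMap.sub_apply, LinearMap.smul_apply, smul_eq_mul]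
  rw [anti hB w y, anti hB (J w) y]
  ring

theorem S_S (hB : Sy B) (w x : V) :
    Sop B J w (Sop B J w x) = B w (J w) • Sop B J w x := by
  have e1 : B (Sop B J w x) (J w) = B w (J w) * B x (J w) := by
    rw [Sop_apply]
    simp only [map_sub, map_smul, LinearMap.sub_apply, LinearMap.smul_apply, smul_eq_mul, hB.alt]
    ring
  have e2 : B (Sop B J w x) w = B w (J w) * B x w := by
    rw [Sop_apply]
    simp only [map_sub, map_smul, LinearMap.sub_apply, LinearMap.smul_apply, smul_eq_mul, hB.alt]
    rw [anti hB (J w) w]
    ring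
  rw [Sop_apply B J w (Sop B J w x), e1, e2, Sop_apply, smul_sub, smul_smul, smul_smul]

/-- `S` is not zero. -/
theorem S_ne (hν : ¬ IsSquare ν) (hB : Sy B) (hJ : Rt B ν J) {w : V} (hw : w ≠ 0)
    (h : ∀ x, Sop B J w x = 0) : False := by
  apply hw
  apply hB.nondeg
  intro x
  rw [anti hB w x, neg_eq_zero]
  by_contra hb
  have h1 : B x (J w) • w = B x w • J w := sub_eq_zero.1 (h x)
  have h2 : B x (J w) • J w = (B x w * ν) • w := by
    rw [← map_smul, h1, map_smul, hJ.sq, smul_smul]
  have h3 : (B x (J w) * B x (J w) - B x w * (B x w * ν)) • w = 0 := by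
    rw [sub_smul, mul_smul, h1, smul_smul, mul_comm (B x (J w)) (B x w), mul_smul, h2, smul_smul,
      sub_self]
  rcases smul_eq_zero.1 h3 with h4 | h4
  · apply hν
    refine ⟨B x (J w) / B x w, ?_⟩
    field_simp
    linear_combination -h4
  · exact hw h4

/-- the contradiction -/
theorem core (h2 : (2 : F) ≠ 0) (hν : ¬ IsSquare ν) (hB : Sy B) (hJ : Rt B ν J)
    (hJ' : Rt B ν J') (hfr : 2 < finrank F V) (hG : Good B J J') {ε : F} {w : V} (hw : w ≠ 0)
    (h1 : J' w = ε • J w) (h3 : J' (J w) = (ε * ν) • w) : False := by
  have hν0 : ν ≠ 0 := by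
    rintro rfl
    exact hν ⟨0, by simp⟩
  set S := Sop B J w with hS
  have hSJ : ∀ x, S (J x) = J (S x) := S_J hJ w
  have hSJ' : ∀ x, S (J' x) = J' (S x) := S_J' hJ' h1 h3
  have hadj : ∀ x y, B (S x) y = B x (S y) := S_adj hB w
  have hSS : ∀ x, S (S x) = B w (J w) • S x := S_S hB w
  by_cases hh : B w (J w) = 0
  · have hSS0 : ∀ x, S (S x) = 0 := fun x => by rw [hSS, hh, zero_smul]
    have hJSJS : ∀ x, J (S (J (S x))) = 0 := by
      intro x
      rw [hSJ, hSS0, map_zero, map_zero]
    let g : V ≃ₗ[F] V :=
      { toFun := fun x => x + J (S x)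
        map_add' := by intro x y; simp only [map_add]; abel
        map_smul' := by intro c x; simp only [map_smul, smul_add, RingHom.id_apply]
        invFun := fun x => x - J (S x)
        left_inv := by
          intro x
          show x + J (S x) - J (S (x + J (S x))) = x
          rw [map_add, map_add, hJSJS]
          abel
        right_inv := by
          intro x
          show x - J (S x) + J (S (x - J (S x))) = x
          rw [map_sub, map_sub, hJSJS]
          abel }
    have hg : ∀ x, g x = x + J (S x) := fun _ => rfl
    have hiso : Ism B g := by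
      intro x y
      rw [hg, hg]
      have e1 : B (J (S x)) y = - B x (J (S y)) := by
        rw [hJ.skew, hadj, hSJ]
      have e2 : B (J (S x)) (J (S y)) = 0 := by
        rw [hJ.skew, hJ.sq, map_smul, hadj, hSS0]
        simp
      simp only [map_add, LinearMap.add_apply]
      rw [e1, e2]
      ring
    have hc : Cm J g := by
      intro x
      rw [hg, hg, hSJ, map_add]
    have hc' : Cm J' g := by
      intro x
      rw [hg, hg, hSJ', map_add]
      congr 1
      have e1 : J (J' w) = J' (J w) := by
        rw [h1, map_smul, hJ.sq, smul_smul, h3]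
      have e2 : J (J' (J w)) = J' (J (J w)) := by
        rw [h3, map_smul, hJ.sq, map_smul, h1, smul_smul, mul_comm]
      rw [hS, Sop_apply]
      simp only [map_sub, map_smul]
      rw [e1, e2]
    rcases hG g hiso hc hc' with ht | ht
    · apply S_ne hν hB hJ hw
      intro x
      have h4 := ht x
      rw [hg] at h4
      have h5 : J (S x) = 0 := by
        have := congrArg (fun v => v - x) h4
        simpa using this
      have h6 : ν • S x = 0 := by
        rw [← hJ.sq, h5, map_zero]
      exact (smul_eq_zero.1 h6).resolve_left hν0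
    · have h4 := ht w
      have h5 : S w = 0 := by
        rw [hS, Sop_apply, hh, hB.alt, zero_smul, zero_smul, sub_zero]
      rw [hg, h5, map_zero, add_zero] at h4
      have h6 : (2 : F) • w = 0 := by
        rw [two_smul]
        nth_rewrite 1 [h4]
        exact neg_add_cancel w
      exact hw ((smul_eq_zero.1 h6).resolve_left h2)
  · set h := B w (J w) with hhd
    let g : V ≃ₗ[F] V :=
      { toFun := fun x => x - (2 / h) • S x
        map_add' := by intro x y; simp only [map_add, smul_add]; abel
        map_smul' := by
          intro c x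
          simp only [map_smul, smul_sub, RingHom.id_apply]
          rw [smul_comm]
        invFun := fun x => x - (2 / h) • S x
        left_inv := by
          intro x
          show x - (2 / h) • S x - (2 / h) • S (x - (2 / h) • S x) = x
          rw [map_sub, map_smul, hSS, smul_sub, smul_smul, smul_smul]
          have e1 : 2 / h * (2 / h) * h = 2 / h + 2 / h := by field_simp; ring
          rw [e1, add_smul]
          abel
        right_inv := by
          intro x
          show x - (2 / h) • S x - (2 / h) • S (x - (2 / h) • S x) = x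
          rw [map_sub, map_smul, hSS, smul_sub, smul_smul, smul_smul]
          have e1 : 2 / h * (2 / h) * h = 2 / h + 2 / h := by field_simp; ring
          rw [e1, add_smul]
          abel }
    have hg : ∀ x, g x = x - (2 / h) • S x := fun _ => rfl
    have hiso : Ism B g := by
      intro x y
      rw [hg, hg]
      have e1 : B (S x) (S y) = h * B x (S y) := by
        rw [hadj, hSS, map_smul, smul_eq_mul]
      simp only [map_sub, map_smul, LinearMap.sub_apply, LinearMap.smul_apply, smul_eq_mul]
      rw [e1, hadj x y]
      field_simp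
      ring
    have hc : Cm J g := by
      intro x
      rw [hg, hg, hSJ, map_sub, map_smul]
    have hc' : Cm J' g := by
      intro x
      rw [hg, hg, hSJ', map_sub, map_smul]
    have hSw : S w = h • w := by
      rw [hS, Sop_apply, hB.alt, zero_smul, sub_zero]
    rcases hG g hiso hc hc' with ht | ht
    · have h4 := ht w
      rw [hg, hSw, smul_smul, div_mul_cancel₀ _ hh] at h4
      have h6 : (2 : F) • w = 0 := by
        have := congrArg (fun v => w - v) h4
        simpa using this
      exact hw ((smul_eq_zero.1 h6).resolve_left h2)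
    · have h4 : ∀ x, x = h⁻¹ • S x := by
        intro x
        have h5 := ht x
        rw [hg] at h5
        have h6 : (2 : F) • x = (2 / h) • S x := by
          rw [two_smul]
          have := congrArg (fun v => x + (2 / h) • S x + v) h5
          have h7 : x + (2 / h) • S x + (x - (2 / h) • S x) = x + x := by abel
          have h8 : x + (2 / h) • S x + -x = (2 / h) • S x := by abel
          rw [h7, h8] at this
          exact this
        have h9 : (2 : F) • (x - h⁻¹ • S x) = 0 := by
          rw [smul_sub, h6, smul_smul, div_eq_mul_inv, sub_self]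
        exact sub_eq_zero.1 ((smul_eq_zero.1 h9).resolve_left h2)
      have h5 : (⊤ : Submodule F V) ≤ Submodule.span F (Set.range ![w, J w]) := by
        intro x _
        rw [h4 x, hS, Sop_apply]
        apply Submodule.smul_mem
        apply Submodule.sub_mem
        · apply Submodule.smul_mem
          apply Submodule.subset_span
          exact ⟨0, rfl⟩
        · apply Submodule.smul_mem
          apply Submodule.subset_span
          exact ⟨1, rfl⟩
      have h6 : Submodule.span F (Set.range ![w, J w]) = ⊤ := top_le_iff.1 h5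
      have h7 := finrank_range_le_card (R := F) ![w, J w]
      unfold Set.finrank at h7
      rw [h6, finrank_top] at h7
      simp at h7
      omega

end

end NI

/-- **NI.** -/
theorem h_NI (hA : S_ALG) : S_NI := by
  intro F V _ _ _ _ B ν J J' h2 hν hB hJ hJ' hfr hG x hx
  have hν0 : ν ≠ 0 := by
    rintro rfl
    exact hν ⟨0, by simp⟩
  obtain ⟨-, -, -, hNZ, hNN, -⟩ := hA F V B ν J J' h2 hν0 hJ hJ'
  by_contra hx0
  have h4 : (4 : F) ≠ 0 := by
    have : (4 : F) = 2 * 2 := by norm_num
    rw [this]
    exact mul_ne_zero h2 h2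
  have key : ∀ (ε : F) (w : V), w ≠ 0 → Nop ν J J' w = 0 → Zop J J' w = (2 * ε * ν) • w →
      False := by
    intro ε w hw hN hZ
    have h1 : J' w = ε • J w := by
      have e1 : Nop ν J J' w = J' w - (2 * ν)⁻¹ • J (Zop J J' w) := rfl
      rw [e1, hZ, map_smul, smul_smul] at hN
      have e2 : (2 * ν)⁻¹ * (2 * ε * ν) = ε := by field_simp
      rw [e2] at hN
      exact sub_eq_zero.1 hN
    have h3 : J' (J w) = (ε * ν) • w := by
      have e1 : Zop J J' w = J (J' w) + J' (J w) := rfl
      rw [e1, h1, map_smul, hJ.sq, smul_smul] at hZ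
      have e2 : (2 * ε * ν) • w = (ε * ν) • w + (ε * ν) • w := by
        rw [← add_smul]
        congr 1
        ring
      rw [e2] at hZ
      exact add_left_cancel hZ
    exact NI.core h2 hν hB hJ hJ' hfr hG hw h1 h3
  have hZZ : Zop J J' (Zop J J' x) = (4 * ν ^ 2) • x := by
    have e1 := hNN x
    rw [hx, map_zero] at e1
    have e2 : ν • x = (4 * ν)⁻¹ • Zop J J' (Zop J J' x) := sub_eq_zero.1 e1.symm
    have e3 : (4 * ν) • (ν • x) = Zop J J' (Zop J J' x) := by
      rw [e2, smul_smul, mul_inv_cancel₀ (mul_ne_zero h4 hν0), one_smul]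
    rw [← e3, smul_smul]
    congr 1
    ring
  by_cases hw : Zop J J' x = (2 * 1 * ν) • x
  · exact key 1 x hx0 hx hw
  · apply key (-1) (Zop J J' x - (2 * 1 * ν) • x) (sub_ne_zero.2 hw)
    · rw [map_sub, map_smul, hNZ, hx, map_zero, smul_zero, sub_zero]
    · rw [map_sub, map_smul, hZZ, smul_sub, smul_smul]
      have e1 : (2 * -1 * ν) • Zop J J' x = -((2 * 1 * ν) • Zop J J' x) := by
        rw [← neg_smul]
        congr 1
        ring
      have e2 : (2 * -1 * ν * (2 * 1 * ν)) • x = -((4 * ν ^ 2) • x) := by
        rw [← neg_smul]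
        congr 1
        ring
      rw [e1, e2]
      abel

end Pool.Agent.H330.P2
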