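import Pool.Agent.H330.P2.Spec

/-! Proof of `S_NORM`. -/

set_option autoImplicit false

namespace Pool.Agent.H330.P2

open Module Polynomial

namespace NORM

variable {F : Type} [Field F]

/-- The field case. -/
theorem field_case {E : Type} [Field E] [Finite E] (h2 : (2 : E) ≠ 0) {ν : E} (hν : ν ≠ 0)
    (c : E) : ∃ x y : E, x ^ 2 - ν * y ^ 2 - c = 0 := by
  classical
  have := Fintype.ofFinite E
  have hch : ringChar E ≠ 2 := by
    intro h
    have h3 := ringChar.Nat.cast_ringChar (R := E)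
    rw [h] at h3
    exact h2 (by exact_mod_cast h3)
  have hcard : Fintype.card E % 2 = 1 := FiniteField.odd_card_of_char_ne_two hch
  have d1 : (X ^ 2 - C c : E[X]).degree = 2 := degree_X_pow_sub_C (by norm_num) c
  have d2 : (C (-ν) * X ^ 2 : E[X]).degree = 2 := degree_C_mul_X_pow 2 (neg_ne_zero.2 hν)
  obtain ⟨a, b, hab⟩ := FiniteField.exists_root_sum_quadratic d1 d2 hcard
  refine ⟨a, b, ?_⟩
  simp only [eval_sub, eval_pow, eval_X, eval_C, eval_mul] at hab
  linear_combination hab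

/-- The prime case. -/
theorem prime_case [Finite F] (h2 : (2 : F) ≠ 0) {ν : F} (hν : ν ≠ 0) {f : F[X]}
    (hf : Irreducible f) (c : F[X]) : ∃ u0 u1 : F[X], f ∣ u0 ^ 2 - C ν * u1 ^ 2 - c := by
  have : Fact (Irreducible f) := ⟨hf⟩
  have : Module.Finite F (AdjoinRoot f) := (AdjoinRoot.powerBasis hf.ne_zero).finite
  have : Finite (AdjoinRoot f) := Module.finite_of_finite F
  have h2' : (2 : AdjoinRoot f) ≠ 0 := by
    intro h
    apply h2
    apply (algebraMap F (AdjoinRoot f)).injective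
    rw [map_zero, map_ofNat]
    exact h
  have hν' : algebraMap F (AdjoinRoot f) ν ≠ 0 := by
    exact (_root_.map_ne_zero _).2 hν
  obtain ⟨x, y, hxy⟩ := field_case h2' hν' (AdjoinRoot.mk f c)
  obtain ⟨u0, rfl⟩ := AdjoinRoot.mk_surjective x
  obtain ⟨u1, rfl⟩ := AdjoinRoot.mk_surjective y
  refine ⟨u0, u1, ?_⟩
  rw [← AdjoinRoot.mk_eq_zero]
  rw [map_sub, map_sub, map_pow, map_mul, map_pow, AdjoinRoot.mk_C]
  exact hxy

/-- Hensel step. -/
theorem hensel (h2 : (2 : F) ≠ 0) {ν : F} (hν : ν ≠ 0) {f : F[X]}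
    (hf : Irreducible f) {c : F[X]} (hc : ¬ f ∣ c) {k : ℕ} (hk : 1 ≤ k)
    (h : ∃ u0 u1 : F[X], f ^ k ∣ u0 ^ 2 - C ν * u1 ^ 2 - c) :
    ∃ u0 u1 : F[X], f ^ (k + 1) ∣ u0 ^ 2 - C ν * u1 ^ 2 - c := by
  obtain ⟨u0, u1, t, ht⟩ := h
  obtain ⟨j, rfl⟩ : ∃ j, k = j + 1 := ⟨k - 1, by omega⟩
  have hpr : Prime f := hf.prime
  have hsolve : ∀ w s : F[X], ¬ f ∣ w → ∃ r g : F[X], w * r + s = f * g := by
    intro w s hw
    have hcop : IsCoprime f w := (hf.coprime_iff_not_dvd).2 hw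
    obtain ⟨a, b, hab⟩ := hcop
    refine ⟨-(s * b), s * a, ?_⟩
    linear_combination (-s) * hab
  have hC2 : ∀ w : F[X], ¬ f ∣ w → ∀ a : F, a ≠ 0 → ¬ f ∣ C a * w := by
    intro w hw a ha hd
    rcases hpr.dvd_or_dvd hd with h3 | h3
    · exact hpr.not_isUnit (isUnit_of_dvd_unit h3 (isUnit_C.2 (isUnit_iff_ne_zero.2 ha)))
    · exact hw h3
  by_cases h0 : f ∣ u0
  · have h1 : ¬ f ∣ u1 := by
      intro h1
      apply hc
      have e1 : c = u0 ^ 2 - C ν * u1 ^ 2 - f ^ (j + 1) * t := by linear_combination -ht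
      rw [e1]
      refine dvd_sub (dvd_sub ?_ ?_) ?_
      · exact dvd_pow h0 (by norm_num)
      · exact Dvd.dvd.mul_left (dvd_pow h1 (by norm_num)) _
      · exact Dvd.dvd.mul_right (dvd_pow_self f (by omega)) _
    obtain ⟨r, g, hr⟩ := hsolve (C (-(2 * ν)) * u1) t
      (hC2 u1 h1 _ (neg_ne_zero.2 (mul_ne_zero h2 hν)))
    refine ⟨u0, u1 + f ^ (j + 1) * r, g - C ν * f ^ j * r ^ 2, ?_⟩
    have e2 : (C (-(2 * ν)) : F[X]) = -(2 * C ν) := by
      rw [C_neg, C_mul, C_ofNat]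
    rw [e2] at hr
    linear_combination ht + f ^ (j + 1) * hr
  · obtain ⟨r, g, hr⟩ := hsolve (C 2 * u0) t (hC2 u0 h0 _ h2)
    refine ⟨u0 + f ^ (j + 1) * r, u1, g + f ^ j * r ^ 2, ?_⟩
    have e2 : (C 2 : F[X]) = 2 := C_ofNat 2
    rw [e2] at hr
    linear_combination ht + f ^ (j + 1) * hr

/-- The general case. -/
theorem gen [Finite F] (h2 : (2 : F) ≠ 0) {ν : F} (hν : ν ≠ 0) (P : F[X]) :
    P ≠ 0 → ∀ c : F[X], IsCoprime c P →
      ∃ u0 u1 : F[X], P ∣ u0 ^ 2 - C ν * u1 ^ 2 - c := by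
  induction P using UniqueFactorizationMonoid.induction_on_coprime with
  | h0 => exact fun h => absurd rfl h
  | h1 hx => exact fun _ c _ => ⟨0, 0, hx.dvd⟩
  | hpr i hp =>
    rename_i p
    intro _ c hc
    have hf : Irreducible p := hp.irreducible
    rcases Nat.eq_zero_or_pos i with rfl | hi
    · exact ⟨0, 0, by simp⟩
    · have hcp : ¬ p ∣ c := by
        intro h
        have h3 : IsCoprime c p := hc.of_isCoprime_of_dvd_right (dvd_pow_self p (by omega))
        exact hp.not_isUnit (h3.symm.isUnit_of_dvd h)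
      clear hc
      induction i, hi using Nat.le_induction with
      | base =>
        obtain ⟨u0, u1, h⟩ := prime_case h2 hν hf c
        exact ⟨u0, u1, by rwa [pow_one]⟩
      | succ k hk ih => exact hensel h2 hν hf hcp hk (ih (pow_ne_zero _ hf.ne_zero))
  | hcp hxy hx hy =>
    rename_i x y
    intro h0 c hc
    have hx0 : x ≠ 0 := left_ne_zero_of_mul h0
    have hy0 : y ≠ 0 := right_ne_zero_of_mul h0
    have hco : IsCoprime x y := hxy.isCoprime
    obtain ⟨a0, a1, s, hs⟩ := hx hx0 c (hc.of_mul_right_left)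
    obtain ⟨b0, b1, t, ht⟩ := hy hy0 c (hc.of_mul_right_right)
    obtain ⟨a, b, hab⟩ := id hco
    refine ⟨a0 * (b * y) + b0 * (a * x), a1 * (b * y) + b1 * (a * x), ?_⟩
    refine hco.mul_dvd ?_ ?_
    · have e0 : a0 * (b * y) + b0 * (a * x) = a0 + x * ((b0 - a0) * a) := by
        linear_combination a0 * hab
      have e1 : a1 * (b * y) + b1 * (a * x) = a1 + x * ((b1 - a1) * a) := by
        linear_combination a1 * hab
      rw [e0, e1]
      refine ⟨s + 2 * a0 * ((b0 - a0) * a) + x * ((b0 - a0) * a) ^ 2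
        - C ν * (2 * a1 * ((b1 - a1) * a) + x * ((b1 - a1) * a) ^ 2), ?_⟩
      linear_combination hs
    · have e0 : a0 * (b * y) + b0 * (a * x) = b0 + y * ((a0 - b0) * b) := by
        linear_combination b0 * hab
      have e1 : a1 * (b * y) + b1 * (a * x) = b1 + y * ((a1 - b1) * b) := by
        linear_combination b1 * hab
      rw [e0, e1]
      refine ⟨t + 2 * b0 * ((a0 - b0) * b) + y * ((a0 - b0) * b) ^ 2
        - C ν * (2 * b1 * ((a1 - b1) * b) + y * ((a1 - b1) * b) ^ 2), ?_⟩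
      linear_combination ht

theorem cop_lin {P : F[X]} {a : F} (h : P.eval a ≠ 0) : IsCoprime (X - C a) P :=
  ((irreducible_X_sub_C a).coprime_iff_not_dvd).2 fun hd => h (dvd_iff_isRoot.1 hd)

end NORM

open NORM in
theorem h_NORM : S_NORM := by
  intro F _ _ ν P h2 hν hP hC
  have h4 : (4 : F) ≠ 0 := by
    have : (4 : F) = 2 * 2 := by norm_num
    rw [this]; exact mul_ne_zero h2 h2
  refine gen h2 hν P hP.ne_zero (C ν - C ((4 * ν)⁻¹) * X ^ 2) ?_
  have e : (C ν - C ((4 * ν)⁻¹) * X ^ 2 : F[X]) =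
      C (-((4 * ν)⁻¹)) * ((X - C (2 * ν)) * (X - C (-(2 * ν)))) := by
    have e1 : (C ν : F[X]) = C ((4 * ν)⁻¹) * (C (2 * ν) * C (2 * ν)) := by
      rw [← C_mul, ← C_mul]
      congr 1
      field_simp
      ring
    rw [e1, C_neg, C_neg]
    ring
  rw [e]
  refine IsCoprime.mul_left ?_ (IsCoprime.mul_left (cop_lin hC.1) (cop_lin hC.2))
  have hu : IsUnit (C (-((4 * ν)⁻¹)) : F[X]) :=
    isUnit_C.2 (isUnit_iff_ne_zero.2 (neg_ne_zero.2 (inv_ne_zero (mul_ne_zero h4 hν))))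
  obtain ⟨v, hv⟩ := hu.exists_left_inv
  exact ⟨v, 0, by rw [hv]; ring⟩

end Pool.Agent.H330.P2
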