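import Pool.Agent.H330.P2.Spec

/-!
# MP_971469_al: lemma ORB
-/

namespace Pool.Agent.H330.P2

open Module Polynomial

namespace ORB

variable {F V : Type} [Field F] [AddCommGroup V] [Module F V]
  {B : V →ₗ[F] V →ₗ[F] F} {ν : F} {J : Module.End F V}

theorem conj_app (g : V ≃ₗ[F] V) (J : Module.End F V) (x : V) :
    g.conj J x = g (J (g.symm x)) := rfl

theorem ism_symm {g : V ≃ₗ[F] V} (hg : Ism B g) (x y : V) :
    B (g.symm x) y = B x (g y) := by
  have h := hg (g.symm x) y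
  rw [LinearEquiv.apply_symm_apply] at h
  exact h.symm

theorem ism_symm' {g : V ≃ₗ[F] V} (hg : Ism B g) (x y : V) :
    B (g x) y = B x (g.symm y) := by
  have h := hg x (g.symm y)
  rw [LinearEquiv.apply_symm_apply] at h
  exact h

theorem rt_conj (hJ : Rt B ν J) {g : V ≃ₗ[F] V} (hg : Ism B g) : Rt B ν (g.conj J) where
  sq x := by
    rw [conj_app, conj_app, LinearEquiv.symm_apply_apply, hJ.sq, map_smul,
      LinearEquiv.apply_symm_apply]
  skew x y := by
    rw [conj_app, conj_app, ism_symm' hg, hJ.skew, ism_symm hg]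

theorem count (hJ : Rt B ν J)
    (h : ∀ J' : Module.End F V, Rt B ν J' → ∃ φ : V ≃ₗ[F] V, Ism B φ ∧ φ.conj J = J')
    (P : Module.End F V → Prop) :
    Nat.card {g : V ≃ₗ[F] V // Ism B g ∧ P (g.conj J)} =
      cn B J * Nat.card {J' : Module.End F V // Rt B ν J' ∧ P J'} := by
  choose! φ h1 h2 using h
  rw [cn, ← Nat.card_prod]
  refine Nat.card_congr ⟨fun g => (⟨g.1.trans (φ (g.1.conj J)).symm, ?_, ?_⟩,
    ⟨g.1.conj J, rt_conj hJ g.2.1, g.2.2⟩), fun p => ⟨p.1.1.trans (φ p.2.1), ?_, ?_⟩, ?_, ?_⟩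
  · intro x y
    have h3 := h1 _ (rt_conj hJ g.2.1)
    rw [LinearEquiv.trans_apply, LinearEquiv.trans_apply, ism_symm h3,
      LinearEquiv.apply_symm_apply, g.2.1]
  · intro x
    rw [LinearEquiv.trans_apply, LinearEquiv.trans_apply, LinearEquiv.symm_apply_eq]
    have h3 := congrArg (fun T : Module.End F V => T (g.1 x)) (h2 _ (rt_conj hJ g.2.1))
    simp only [conj_app] at h3
    rw [LinearEquiv.symm_apply_apply] at h3
    exact h3.symm
  · intro x y
    rw [LinearEquiv.trans_apply, LinearEquiv.trans_apply, h1 _ p.2.2.1, p.1.2.1]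
  · have h3 : (p.1.1.trans (φ p.2.1)).conj J = p.2.1 := by
      conv_rhs => rw [← h2 _ p.2.2.1]
      ext x
      change φ p.2.1 (p.1.1 (J (p.1.1.symm ((φ p.2.1).symm x)))) =
        φ p.2.1 (J ((φ p.2.1).symm x))
      rw [p.1.2.2, LinearEquiv.apply_symm_apply]
    rw [h3]
    exact p.2.2.2
  · intro g
    apply Subtype.ext
    ext x
    change φ (g.1.conj J) ((φ (g.1.conj J)).symm (g.1 x)) = g.1 x
    rw [LinearEquiv.apply_symm_apply]
  · intro p
    have h3 : (p.1.1.trans (φ p.2.1)).conj J = p.2.1 := by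
      conv_rhs => rw [← h2 _ p.2.2.1]
      ext x
      change φ p.2.1 (p.1.1 (J (p.1.1.symm ((φ p.2.1).symm x)))) =
        φ p.2.1 (J ((φ p.2.1).symm x))
      rw [p.1.2.2, LinearEquiv.apply_symm_apply]
    apply Prod.ext
    · apply Subtype.ext
      ext x
      change (φ ((p.1.1.trans (φ p.2.1)).conj J)).symm (φ p.2.1 (p.1.1 x)) = p.1.1 x
      rw [h3, LinearEquiv.symm_apply_apply]
    · apply Subtype.ext
      exact h3

end ORB

theorem h_ORB (hH : S_HERM) (hT : S_TOT) : S_ORB := by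
  intro F V _ _ _ _ _ B ν J m h2 hν hB hJ hodd hm hdim
  have h : ∀ J' : Module.End F V, Rt B ν J' → ∃ φ : V ≃ₗ[F] V, Ism B φ ∧ φ.conj J = J' := by
    intro J' hJ'
    obtain ⟨φ, h3, h4⟩ := hH F V V B B ν J J' m h2 hν hB hB hJ hJ' hdim hdim
    refine ⟨φ, h3, ?_⟩
    ext x
    rw [ORB.conj_app, h4, LinearEquiv.apply_symm_apply]
  have h5 := ORB.count hJ h (Good B J)
  have h6 := ORB.count hJ h (fun _ => True)
  simp only [and_true] at h6
  rw [h5, h6]
  have h7 := hT F V B ν J m h2 hν hB hJ hodd hm hdim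
  calc m * (cn B J * Nat.card {J' : Module.End F V // Rt B ν J' ∧ Good B J J'})
      = cn B J * (m * Nat.card {J' : Module.End F V // Rt B ν J' ∧ Good B J J'}) := by ring
    _ ≤ cn B J * (6 * Nat.card {J' : Module.End F V // Rt B ν J'}) :=
        Nat.mul_le_mul_left _ h7
    _ = 6 * (cn B J * Nat.card {J' : Module.End F V // Rt B ν J'}) := by ring

end Pool.Agent.H330.P2
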