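import Pool.Agent.H330.P2.Spec

/-!
# Good implies primary (PR, by helper921 for helper330)
-/

namespace Pool.Agent.H330.P2

open Module Polynomial

namespace PR

variable {F : Type} [Field F]

/-- decomposition of a monic nonunit polynomial -/
theorem dec {P : F[X]} (hP : P.Monic) (hu : ¬ IsUnit P) (hn : ¬ Primary P) :
    ∃ a b r s : F[X], P = r * s ∧ a * r + b * s = 1 ∧ ¬ IsUnit r ∧ ¬ IsUnit s := by
  obtain ⟨f, hfm, hf, hfP⟩ := exists_monic_irreducible_factor P hu
  have hfin : FiniteMultiplicity f P := FiniteMultiplicity.of_not_isUnit hf.not_isUnit hP.ne_zero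
  obtain ⟨s, hs, hfs⟩ := hfin.exists_eq_pow_mul_and_not_dvd
  obtain ⟨k, hk⟩ : ∃ k, k = multiplicity f P := ⟨_, rfl⟩
  rw [← hk] at hs
  have hk0 : k ≠ 0 := by
    rintro rfl
    rw [pow_zero, one_mul] at hs
    rw [hs] at hfP
    exact hfs hfP
  have hcop : IsCoprime (f ^ k) s := ((hf.coprime_iff_not_dvd).2 hfs).pow_left
  obtain ⟨a, b, hab⟩ := hcop
  refine ⟨a, b, f ^ k, s, hs, hab, fun h => ?_, fun h => ?_⟩
  · exact hf.not_isUnit ((isUnit_pow_iff hk0).1 h)
  · have h1 : s.Monic := (hfm.pow k).of_mul_monic_left (by rw [← hs]; exact hP)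
    have h2 : s = 1 := h1.eq_one_of_isUnit h
    apply hn
    refine ⟨f, k, hf, ?_⟩
    rw [h2, mul_one] at hs
    exact hs

end PR

open PR in
theorem h_PR (hA : S_ALG) : S_PR := by
  intro F V _ _ _ _ B ν J J' h2 hν hJ hJ' hV hG
  by_contra hn
  have hnt : Nontrivial V := Module.nontrivial_of_finrank_pos hV
  obtain ⟨Z, hZ⟩ : ∃ Z, Z = Zop J J' := ⟨_, rfl⟩
  obtain ⟨-, -, -, -, -, -, -, hpJ, hpJ', -, hpB⟩ := hA F V B ν J J' h2 hν hJ hJ'
  rw [← hZ] at hn hpJ hpJ' hpB
  have hint : IsIntegral F Z := Algebra.IsIntegral.isIntegral Z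
  obtain ⟨a, b, r, s, hrs, hab, hr, hs⟩ := dec (minpoly.monic hint) (minpoly.not_isUnit F Z) hn
  have hr0 : r ≠ 0 := by
    rintro rfl
    rw [zero_mul] at hrs
    exact (minpoly.monic hint).ne_zero hrs
  have hs0 : s ≠ 0 := by
    rintro rfl
    rw [mul_zero] at hrs
    exact (minpoly.monic hint).ne_zero hrs
  have he : aeval Z (b * s) ≠ 0 := by
    intro h
    have h1 := minpoly.dvd F Z h
    rw [hrs] at h1
    have h3 : r ∣ b := (mul_dvd_mul_iff_right hs0).1 h1
    apply hr
    apply isUnit_of_dvd_one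
    rw [← hab]
    exact dvd_add (dvd_mul_left r a) (h3.mul_right s)
  have he' : aeval Z (a * r) ≠ 0 := by
    intro h
    have h1 := minpoly.dvd F Z h
    rw [hrs, mul_comm r s] at h1
    have h3 : s ∣ a := (mul_dvd_mul_iff_right hr0).1 h1
    apply hs
    apply isUnit_of_dvd_one
    rw [← hab]
    exact dvd_add (h3.mul_right r) (dvd_mul_left s b)
  have hsum : ∀ x, aeval Z (b * s) x + aeval Z (a * r) x = x := by
    intro x
    rw [← LinearMap.add_apply, ← map_add, add_comm, hab, map_one]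
    rfl
  obtain ⟨q, hq⟩ : ∃ q, q = b * s - a * r := ⟨_, rfl⟩
  have hqx : ∀ x, aeval Z q x = aeval Z (b * s) x - aeval Z (a * r) x := by
    intro x
    rw [hq, map_sub, LinearMap.sub_apply]
  have hqq : ∀ x, aeval Z q (aeval Z q x) = x := by
    intro x
    have h1 : q * q = 1 - 4 * (a * b) * (minpoly F Z) := by
      have h4 : q * q = (a * r + b * s) ^ 2 - 4 * (a * b) * (r * s) := by
        rw [hq]
        ring
      rw [h4, hab, ← hrs, one_pow]
    rw [← Module.End.mul_apply, ← map_mul, h1, map_sub, map_one, map_mul, minpoly.aeval, mul_zero,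
      sub_zero]
    rfl
  obtain ⟨g, hg⟩ : ∃ g : V ≃ₗ[F] V, ∀ x, g x = aeval Z q x :=
    ⟨LinearEquiv.ofInvolutive (aeval Z q) hqq, fun x => rfl⟩
  have hT := hG g (fun x y => by rw [hg, hg, hpB, hqq]) (fun x => by rw [hg, hg, hpJ])
    (fun x => by rw [hg, hg, hpJ'])
  rcases hT with hT | hT
  · apply he'
    ext x
    have h1 := hT x
    rw [hg, hqx] at h1
    have h3 := hsum x
    have h4 : (2 : F) • aeval Z (a * r) x = 0 := by
      rw [two_smul]
      have h5 : aeval Z (a * r) x + aeval Z (a * r) x =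
          (aeval Z (b * s) x + aeval Z (a * r) x) -
            (aeval Z (b * s) x - aeval Z (a * r) x) := by abel
      rw [h5, h3, h1, sub_self]
    exact (smul_eq_zero.1 h4).resolve_left h2
  · apply he
    ext x
    have h1 := hT x
    rw [hg, hqx] at h1
    have h3 := hsum x
    have h4 : (2 : F) • aeval Z (b * s) x = 0 := by
      rw [two_smul]
      have h5 : aeval Z (b * s) x + aeval Z (b * s) x =
          (aeval Z (b * s) x + aeval Z (a * r) x) +
            (aeval Z (b * s) x - aeval Z (a * r) x) := by abel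
      rw [h5, h3, h1, add_neg_cancel]
    exact (smul_eq_zero.1 h4).resolve_left h2

end Pool.Agent.H330.P2
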