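import Pool.Agent.H330.P2.Spec

set_option autoImplicit false

namespace Pool.Agent.H330.P2

namespace RED

open Module

variable {F V : Type} [Field F] [AddCommGroup V] [Module F V] {B : V →ₗ[F] V →ₗ[F] F}

theorem skew (hB : Sy B) (x y : V) : B x y = -B y x := by
  have h := hB.alt (x + y)
  rw [map_add, map_add, LinearMap.add_apply, LinearMap.add_apply, hB.alt, hB.alt] at h
  linear_combination h

/-- The operator `x ↦ B(x, w) w' + B(x, w') w`. -/
def N (B : V →ₗ[F] V →ₗ[F] F) (w w' : V) : Module.End F V where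
  toFun x := B x w • w' + B x w' • w
  map_add' x y := by
    simp only [map_add, LinearMap.add_apply, add_smul]
    abel
  map_smul' c x := by
    simp only [map_smul, LinearMap.smul_apply, smul_eq_mul, mul_smul, smul_add, RingHom.id_apply]

theorem N_apply (w w' x : V) : N B w w' x = B x w • w' + B x w' • w := rfl

theorem NN (hB : Sy B) {w w' : V} (h : B w w' = 0) (x : V) : N B w w' (N B w w' x) = 0 := by
  have h' : B w' w = 0 := by rw [skew hB, h, neg_zero]
  have e1 : N B w w' w = 0 := by rw [N_apply, hB.alt, h, zero_smul, zero_smul, add_zero]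
  have e2 : N B w w' w' = 0 := by rw [N_apply, hB.alt, h', zero_smul, zero_smul, add_zero]
  rw [N_apply w w' x, map_add, map_smul, map_smul, e1, e2, smul_zero, smul_zero, add_zero]

theorem N_skew (hB : Sy B) (w w' x y : V) : B (N B w w' x) y = -B x (N B w w' y) := by
  rw [N_apply, N_apply, map_add, map_add, LinearMap.add_apply, map_smul, map_smul, map_smul,
    map_smul, LinearMap.smul_apply, LinearMap.smul_apply, smul_eq_mul, smul_eq_mul, smul_eq_mul,
    smul_eq_mul, skew hB y w, skew hB y w']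
  ring

/-- The isometry `1 + N`. -/
def tv (hB : Sy B) {w w' : V} (h : B w w' = 0) : V ≃ₗ[F] V :=
  LinearEquiv.ofLinearMap (LinearMap.id + N B w w') (LinearMap.id - N B w w')
    (by
      ext x
      simp only [LinearMap.comp_apply, LinearMap.add_apply, LinearMap.sub_apply, LinearMap.id_apply,
        map_sub, NN hB h]
      abel)
    (by
      ext x
      simp only [LinearMap.comp_apply, LinearMap.add_apply, LinearMap.sub_apply, LinearMap.id_apply,
        map_add, NN hB h]
      abel)

theorem tv_apply (hB : Sy B) {w w' : V} (h : B w w' = 0) (x : V) :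
    tv hB h x = x + (B x w • w' + B x w' • w) := rfl

theorem tv_ism (hB : Sy B) {w w' : V} (h : B w w' = 0) : Ism B (tv hB h) := by
  intro x y
  have e1 : B (N B w w' x) (N B w w' y) = 0 := by
    rw [N_skew hB, NN hB h, map_zero, neg_zero]
  show B (x + N B w w' x) (y + N B w w' y) = B x y
  simp only [map_add, LinearMap.add_apply]
  rw [e1, N_skew hB]
  ring

theorem tv_triv (h2 : (2 : F) ≠ 0) (hB : Sy B) {w w' : V} (h : B w w' = 0) {x₀ : V}
    (hx : B x₀ w • w' + B x₀ w' • w ≠ 0) : ¬ Triv (tv hB h) := by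
  rintro (hc | hc)
  · have := hc x₀
    rw [tv_apply] at this
    exact hx (by simpa using this)
  · apply hx
    have e1 : ∀ x, x + N B w w' x = -x := fun x => hc x
    have e2 : N B w w' x₀ = -((2 : F) • x₀) := by
      have := e1 x₀
      rw [two_smul]
      have e3 : N B w w' x₀ = (x₀ + N B w w' x₀) - x₀ := by abel
      rw [e3, this]
      abel
    have e3 := NN hB h x₀
    have e4 : N B w w' (N B w w' x₀) = -((2 : F) • N B w w' x₀) := by
      conv_lhs => rw [e2]
      rw [map_neg, map_smul]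
    rw [e4, neg_eq_zero, smul_eq_zero] at e3
    exact e3.resolve_left h2

theorem ker_bot (hB : Sy B) : LinearMap.ker B = ⊥ := by
  rw [eq_bot_iff]
  intro x hx
  rw [LinearMap.mem_ker] at hx
  rw [Submodule.mem_bot]
  exact hB.nondeg x fun y => by rw [hx, LinearMap.zero_apply]

theorem mem_orth {U : Submodule F V} {x : V} :
    x ∈ LinearMap.BilinForm.orthogonal B U ↔ ∀ n ∈ U, B n x = 0 :=
  LinearMap.BilinForm.mem_orthogonal_iff

variable [FiniteDimensional F V]

theorem fin_orth (hB : Sy B) (U : Submodule F V) :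
    finrank F U + finrank F (LinearMap.BilinForm.orthogonal B U) = finrank F V := by
  have := LinearMap.BilinForm.finrank_add_finrank_orthogonal' (B := B) U
  rw [ker_bot hB, inf_bot_eq, finrank_bot, add_zero] at this
  exact this

omit [FiniteDimensional F V] in
theorem ex_of_ne (hB : Sy B) {w : V} (hw : w ≠ 0) : ∃ x, B x w ≠ 0 := by
  by_contra hc
  push Not at hc
  exact hw (hB.nondeg w fun y => by rw [skew hB, hc, neg_zero])

/-- The image of a subspace. -/
theorem lemA (h2 : (2 : F) ≠ 0) (hB : Sy B) {U : Submodule F V} {g : V ≃ₗ[F] V}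
    (hne : finrank F (U ⊔ U.map (g : V →ₗ[F] V) : Submodule F V) < finrank F V) :
    ∃ x : V ≃ₗ[F] V, Ism B x ∧ ¬ Triv x ∧ (∀ y ∈ U, x y ∈ U) ∧
      ∀ y ∈ U, g.symm (x (g y)) ∈ U := by
  have h1 := fin_orth hB (U ⊔ U.map (g : V →ₗ[F] V))
  have h3 : LinearMap.BilinForm.orthogonal B (U ⊔ U.map (g : V →ₗ[F] V)) ≠ ⊥ := by
    intro h0
    rw [h0, finrank_bot] at h1
    omega
  obtain ⟨w, hw, hw0⟩ := Submodule.exists_mem_ne_zero_of_ne_bot h3
  rw [mem_orth] at hw
  have hU : ∀ y ∈ U, B y w = 0 := fun y hy => hw y (Submodule.mem_sup_left hy)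
  have hgU : ∀ y ∈ U, B (g y) w = 0 := fun y hy =>
    hw (g y) (Submodule.mem_sup_right ⟨y, hy, rfl⟩)
  obtain ⟨x₀, hx₀⟩ := ex_of_ne hB hw0
  have hww : B w w = 0 := hB.alt w
  refine ⟨tv hB hww, tv_ism hB hww, tv_triv h2 hB hww (x₀ := x₀) ?_, ?_, ?_⟩
  · rw [← add_smul, ← two_mul]
    exact smul_ne_zero (mul_ne_zero h2 hx₀) hw0
  · intro y hy
    rw [tv_apply, hU y hy, zero_smul, add_zero, add_zero]
    exact hy
  · intro y hy
    rw [tv_apply, hgU y hy, zero_smul, add_zero, add_zero, LinearEquiv.symm_apply_apply]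
    exact hy

theorem even_dim (h2 : (2 : F) ≠ 0) (hB : Sy B) {U : Submodule F V}
    (hU : U ⊓ LinearMap.BilinForm.orthogonal B U = ⊥) : Even (finrank F U) := by
  by_contra hodd
  rw [Nat.not_even_iff_odd] at hodd
  set n := finrank F U with hn
  let b : Basis (Fin n) F U := finBasis F U
  let A : Matrix (Fin n) (Fin n) F := fun i j => B (b i) (b j)
  have h1 : A.transpose = -A := by
    ext i j
    show B (b j) (b i) = -B (b i) (b j)
    exact skew hB _ _
  have h3 : A.det = 0 := by
    have h4 : A.det = -A.det := by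
      conv_lhs => rw [← Matrix.det_transpose, h1, Matrix.det_neg, Fintype.card_fin, hodd.neg_one_pow]
      ring
    have h5 : 2 * A.det = 0 := by linear_combination h4
    exact (mul_eq_zero.1 h5).resolve_left h2
  obtain ⟨v, hv, hv0⟩ := Matrix.exists_mulVec_eq_zero_iff.2 h3
  set x : U := ∑ j, v j • b j with hx
  have hx0 : x ≠ 0 := by
    intro h0
    apply hv
    funext j
    have := Fintype.linearIndependent_iff.1 b.linearIndependent v h0 j
    exact this
  have h6 : ∀ i, B (b i) x = 0 := by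
    intro i
    have h7 := congrFun hv0 i
    rw [Matrix.mulVec, dotProduct, Pi.zero_apply] at h7
    rw [hx]
    simp only [Submodule.coe_sum, Submodule.coe_smul, map_sum, map_smul, smul_eq_mul]
    rw [← h7]
    refine Finset.sum_congr rfl fun j _ => ?_
    show v j * B (b i) (b j) = B (b i) (b j) * v j
    ring
  have h8 : (x : V) ∈ LinearMap.BilinForm.orthogonal B U := by
    rw [mem_orth]
    intro y hy
    have h9 : (y : V) = ∑ i, b.repr ⟨y, hy⟩ i • (b i : V) := by
      have := congrArg Subtype.val (b.sum_repr ⟨y, hy⟩)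
      rw [Submodule.coe_sum] at this
      exact this.symm
    rw [h9, map_sum, LinearMap.sum_apply]
    refine Finset.sum_eq_zero fun i _ => ?_
    rw [map_smul, LinearMap.smul_apply, h6, smul_zero]
  have h10 : (x : V) ∈ U ⊓ LinearMap.BilinForm.orthogonal B U := ⟨x.2, h8⟩
  rw [hU, Submodule.mem_bot] at h10
  exact hx0 (Subtype.ext h10)

theorem orth_stable {s : V ≃ₗ[F] V} (hs : Ism B s) {U : Submodule F V}
    (hU : ∀ x ∈ U, s x ∈ U) : ∀ x ∈ LinearMap.BilinForm.orthogonal B U,
      s x ∈ LinearMap.BilinForm.orthogonal B U := by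
  intro x hx
  rw [mem_orth] at hx ⊢
  intro n hn
  have h1 : U.map (s : V →ₗ[F] V) = U := by
    apply Submodule.eq_of_le_of_finrank_eq
    · rintro _ ⟨y, hy, rfl⟩
      exact hU y hy
    · exact LinearEquiv.finrank_map_eq s U
  rw [← h1] at hn
  obtain ⟨n', hn', rfl⟩ := hn
  show B (s n') (s x) = 0
  rw [hs]
  exact hx n' hn'

theorem half (h2 : (2 : F) ≠ 0) (hB : Sy B) {m : ℕ} (hV : finrank F V = 2 * m) (hm : 3 ≤ m)
    {U : Submodule F V} (hne : U ≠ ⊥) (hU : U ≤ LinearMap.BilinForm.orthogonal B U)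
    {g : V ≃ₗ[F] V} (hg : Ism B g) : ∃ x : V ≃ₗ[F] V, Ism B x ∧ ¬ Triv x ∧ (∀ y ∈ U, x y ∈ U) ∧
      ∀ y ∈ U, g.symm (x (g y)) ∈ U := by
  by_cases hlt : finrank F (U ⊔ U.map (g : V →ₗ[F] V) : Submodule F V) < finrank F V
  · exact lemA h2 hB hlt
  have hd : finrank F U ≤ m := by
    have h1 := fin_orth hB U
    have h3 := Submodule.finrank_mono hU
    omega
  have hgd : finrank F (U.map (g : V →ₗ[F] V)) = finrank F U := LinearEquiv.finrank_map_eq g U
  have h4 := Submodule.finrank_sup_add_finrank_inf_eq U (U.map (g : V →ₗ[F] V))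
  rw [hgd] at h4
  have h5 : finrank F (U ⊓ U.map (g : V →ₗ[F] V) : Submodule F V) = 0 := by omega
  have h6 : finrank F U = m := by omega
  have h7 : U ⊓ U.map (g : V →ₗ[F] V) = ⊥ := Submodule.finrank_eq_zero.1 h5
  have hiso : ∀ x ∈ U, ∀ y ∈ U, B x y = 0 := fun x hx y hy => mem_orth.1 (hU hy) x hx
  obtain ⟨w, hw, hw0⟩ := Submodule.exists_mem_ne_zero_of_ne_bot hne
  -- the second vector
  have h8 := LinearMap.finrank_range_add_finrank_ker (B w)
  have h9 : finrank F (LinearMap.range (B w)) ≤ 1 := by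
    have := Submodule.finrank_le (LinearMap.range (B w))
    rwa [finrank_self] at this
  have h10 := Submodule.finrank_sup_add_finrank_inf_eq (U.map (g : V →ₗ[F] V))
    (LinearMap.ker (B w))
  have h11 := Submodule.finrank_le (U.map (g : V →ₗ[F] V) ⊔ LinearMap.ker (B w))
  rw [hgd] at h10
  have h12 : (U.map (g : V →ₗ[F] V) ⊓ LinearMap.ker (B w) : Submodule F V) ≠ ⊥ := by
    intro h0
    rw [h0, finrank_bot] at h10
    omega
  obtain ⟨w', ⟨⟨u', hu', hw'⟩, hww⟩, hw'0⟩ := Submodule.exists_mem_ne_zero_of_ne_bot h12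
  have hww : B w w' = 0 := hww
  have hw' : g u' = w' := hw'
  obtain ⟨x₀, hx₀⟩ := ex_of_ne hB hw0
  refine ⟨tv hB hww, tv_ism hB hww, tv_triv h2 hB hww (x₀ := x₀) ?_, ?_, ?_⟩
  · intro h0
    apply hw'0
    have e1 : w' = -(B x₀ w)⁻¹ • (B x₀ w' • w) := by
      have e2 : B x₀ w • w' = -(B x₀ w' • w) := eq_neg_of_add_eq_zero_left h0
      calc w' = (B x₀ w)⁻¹ • (B x₀ w • w') := by rw [inv_smul_smul₀ hx₀]
        _ = _ := by rw [e2, smul_neg, neg_smul]
    have e4 : w' ∈ U := by
      rw [e1]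
      exact U.smul_mem _ (U.smul_mem _ hw)
    have e5 : w' ∈ U ⊓ U.map (g : V →ₗ[F] V) := ⟨e4, ⟨u', hu', hw'⟩⟩
    rw [h7, Submodule.mem_bot] at e5
    exact e5
  · intro y hy
    rw [tv_apply, hiso y hy w hw, zero_smul, zero_add]
    exact U.add_mem hy (U.smul_mem _ hw)
  · intro y hy
    have e1 : B (g y) w' = 0 := by
      rw [← hw', hg]
      exact hiso y hy u' hu'
    rw [tv_apply, e1, zero_smul, add_zero, map_add, LinearEquiv.symm_apply_apply, map_smul, ← hw',
      LinearEquiv.symm_apply_apply]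
    exact U.add_mem hy (U.smul_mem _ hu')

end RED

open Module in
theorem h_RED : S_RED := by
  intro F V _ _ _ _ B m s h2 hB hodd hm hV hs hex
  classical
  -- a minimal stable subspace
  have hex2 : ∃ k : ℕ, ∃ U : Submodule F V, U ≠ ⊥ ∧ (∀ x ∈ U, s x ∈ U) ∧ finrank F U = k := by
    obtain ⟨U, h1, -, h3⟩ := hex
    exact ⟨_, U, h1, h3, rfl⟩
  obtain ⟨U, hU1, hU2, hU3⟩ := Nat.find_spec hex2
  have hmin : ∀ W : Submodule F V, W ≠ ⊥ → (∀ x ∈ W, s x ∈ W) → finrank F U ≤ finrank F W := by
    intro W h1 h3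
    rw [hU3]
    exact Nat.find_min' hex2 ⟨W, h1, h3, rfl⟩
  have hUlt : finrank F U < 2 * m := by
    obtain ⟨U₀, h1, h3, h4⟩ := hex
    have h5 := hmin U₀ h1 h4
    have h6 := Submodule.finrank_lt h3
    omega
  have hUtop : U ≠ ⊤ := by
    rintro rfl
    rw [finrank_top] at hUlt
    omega
  have hos := RED.orth_stable hs hU2
  have hsum := RED.fin_orth hB U
  by_cases hW : U ⊓ LinearMap.BilinForm.orthogonal B U = ⊥
  · have hev := RED.even_dim h2 hB hW
    rcases lt_trichotomy (finrank F U) m with hlt | heq | hgt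
    · refine ⟨U, hU1, hUtop, hU2, fun g hg => RED.lemA h2 hB ?_⟩
      have h1 := Submodule.finrank_sup_add_finrank_inf_eq U (U.map (g : V →ₗ[F] V))
      have h3 : finrank F (U.map (g : V →ₗ[F] V)) = finrank F U := LinearEquiv.finrank_map_eq g U
      omega
    · exfalso
      rw [heq] at hev
      exact (Nat.not_even_iff_odd.2 hodd) hev
    · refine ⟨LinearMap.BilinForm.orthogonal B U, ?_, ?_, hos, fun g hg => RED.lemA h2 hB ?_⟩
      · intro h0
        rw [h0, finrank_bot] at hsum
        omega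
      · intro h0
        rw [h0, finrank_top] at hsum
        omega
      · have h1 := Submodule.finrank_sup_add_finrank_inf_eq
          (LinearMap.BilinForm.orthogonal B U)
          ((LinearMap.BilinForm.orthogonal B U).map (g : V →ₗ[F] V))
        have h3 : finrank F ((LinearMap.BilinForm.orthogonal B U).map (g : V →ₗ[F] V)) =
          finrank F (LinearMap.BilinForm.orthogonal B U) := LinearEquiv.finrank_map_eq g _
        omega
  · have h1 := hmin _ hW (fun x hx => ⟨hU2 x hx.1, hos x hx.2⟩)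
    have h3 : U ⊓ LinearMap.BilinForm.orthogonal B U = U :=
      Submodule.eq_of_le_of_finrank_le inf_le_left h1
    have h4 : U ≤ LinearMap.BilinForm.orthogonal B U := inf_eq_left.1 h3
    exact ⟨U, hU1, hUtop, hU2, fun g hg => RED.half h2 hB hV hm hU1 h4 hg⟩

end Pool.Agent.H330.P2
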