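import Pool.Agent.H330.P2.Spec

/-! Project P2 (helper330), task TORS (helper25): counting coordinate maps. -/

set_option autoImplicit false

namespace Pool.Agent.H330.P2

open Module Polynomial

namespace TORS

variable {F V : Type} [Field F] [AddCommGroup V] [Module F V]

/-- The coordinate maps form a torsor under the isometries which commute with `J`. -/
noncomputable def tors (B : V →ₗ[F] V →ₗ[F] F) (ν : F) (J : Module.End F V) (P : F[X])
    (l : AdjoinRoot P →ₗ[F] F) (φ₀ : (AdjoinRoot P × AdjoinRoot P) ≃ₗ[F] V)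
    (h1 : ∀ x y, B (φ₀ x) (φ₀ y) = frm l x y) (h2 : ∀ x, φ₀ (jop ν P x) = J (φ₀ x)) :
    {φ : (AdjoinRoot P × AdjoinRoot P) ≃ₗ[F] V //
      (∀ x y, B (φ x) (φ y) = frm l x y) ∧ ∀ x, φ (jop ν P x) = J (φ x)} ≃
    {g : V ≃ₗ[F] V // Ism B g ∧ Cm J g} where
  toFun φ := ⟨φ₀.symm.trans φ.1, by
    refine ⟨fun x y => ?_, fun x => ?_⟩
    · have h3 := φ.2.1 (φ₀.symm x) (φ₀.symm y)
      have h4 := h1 (φ₀.symm x) (φ₀.symm y)
      rw [LinearEquiv.apply_symm_apply, LinearEquiv.apply_symm_apply] at h4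
      rw [LinearEquiv.trans_apply, LinearEquiv.trans_apply, h3, h4]
    · have h3 := φ.2.2 (φ₀.symm x)
      have h4 := h2 (φ₀.symm x)
      rw [LinearEquiv.apply_symm_apply] at h4
      rw [LinearEquiv.trans_apply, LinearEquiv.trans_apply, ← h4, LinearEquiv.symm_apply_apply, h3]⟩
  invFun g := ⟨φ₀.trans g.1, by
    refine ⟨fun x y => ?_, fun x => ?_⟩
    · rw [LinearEquiv.trans_apply, LinearEquiv.trans_apply, g.2.1, h1]
    · rw [LinearEquiv.trans_apply, LinearEquiv.trans_apply, h2, g.2.2]⟩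
  left_inv φ := by
    apply Subtype.ext
    apply LinearEquiv.ext
    intro x
    rw [LinearEquiv.trans_apply, LinearEquiv.trans_apply, LinearEquiv.symm_apply_apply]
  right_inv g := by
    apply Subtype.ext
    apply LinearEquiv.ext
    intro x
    rw [LinearEquiv.trans_apply, LinearEquiv.trans_apply, LinearEquiv.apply_symm_apply]

end TORS

theorem h_TORS (hH : S_HERM) (hF : S_FRM) : S_TORS := by
  intro F V _ _ _ _ _ B ν J P l h2 hν hB hJ hP hdim hl
  have : Module.Finite F (AdjoinRoot P) := (AdjoinRoot.powerBasis' hP).finite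
  have : Finite (AdjoinRoot P) := Module.finite_of_finite F
  obtain ⟨f1, f2, f3⟩ := hF F ν P hP
  obtain ⟨φ₀, h3, h4⟩ := hH F (AdjoinRoot P × AdjoinRoot P) V (frm l) B ν (jop ν P) J P.natDegree
    h2 hν (f1 l hl) hB (f2 l) hJ f3 hdim
  exact Nat.card_congr (TORS.tors B ν J P l φ₀ h3 h4)

end Pool.Agent.H330.P2
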