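import Pool.Agent.H330.P2.Spec

/-!
# Few `J'` are good: assembly
-/

set_option autoImplicit false

namespace Pool.Agent.H330.P2

open Module Polynomial

namespace TOT

theorem fin_deg (F : Type) [Field F] [Finite F] (m : ℕ) :
    Finite {P : F[X] // P.natDegree = m} := by
  refine Finite.of_injective (fun (P : {P : F[X] // P.natDegree = m}) (i : Fin (m + 1)) =>
    P.1.coeff i) ?_
  intro P P' h
  apply Subtype.ext
  ext n
  by_cases hn : n < m + 1
  · exact congrFun h ⟨n, hn⟩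
  · rw [Polynomial.coeff_eq_zero_of_natDegree_lt (by rw [P.2]; omega),
      Polynomial.coeff_eq_zero_of_natDegree_lt (by rw [P'.2]; omega)]

theorem fin_sub (F : Type) [Field F] [Finite F] (m : ℕ) (q : F[X] → Prop)
    (hq : ∀ P, q P → P.natDegree = m) : Finite {P : F[X] // q P} := by
  have := fin_deg F m
  refine Finite.of_injective
    (fun P : {P : F[X] // q P} => (⟨P.1, hq P.1 P.2⟩ : {P : F[X] // P.natDegree = m})) ?_
  intro P P' h
  exact Subtype.ext (congrArg (fun x : {P : F[X] // P.natDegree = m} => x.1) h)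

/-- the number of the elements of a disjoint union with fibres of the same size -/
theorem card_sig {α : Type} [Finite α] (β : α → Type) [∀ a, Finite (β a)] (c : ℕ)
    (h : ∀ a, Nat.card (β a) = c) : Nat.card (Sigma β) = Nat.card α * c := by
  have := Fintype.ofFinite α
  rw [Nat.card_sigma]
  simp only [h]
  rw [Finset.sum_const, smul_eq_mul, Finset.card_univ, Nat.card_eq_fintype_card]

end TOT

open TOT in
theorem h_TOT (hN : S_NORM) (hJ : S_JP) (hM : S_MIN) (hI : S_NI) (hC : S_CP) (hP : S_PR)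
    (hY : S_CY) (h1 : S_CNTP) (h2 : S_CNTC) : S_TOT := by
  intro F V _ _ _ _ _ B ν J m h20 hsq hSy hRt hodd hm hfr
  classical
  have hν : ν ≠ 0 := by
    rintro rfl
    exact hsq ⟨0, by simp⟩
  have hfd : FiniteDimensional F V := inferInstance
  have hEnd : Finite (Module.End F V) := by
    refine Finite.of_injective (fun f : Module.End F V => (f : V → V)) ?_
    exact DFunLike.coe_injective
  -- the polynomials `u0`, `u1`
  have hu : ∀ P : F[X], ∃ u0 u1 : F[X], P.Monic → Cp ν P → Vu ν P u0 u1 := by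
    intro P
    by_cases h : P.Monic ∧ Cp ν P
    · obtain ⟨u0, u1, h3⟩ := hN F ν P h20 hν h.1 h.2
      exact ⟨u0, u1, fun _ _ => h3⟩
    · exact ⟨0, 0, fun a b => absurd ⟨a, b⟩ h⟩
  choose u0 u1 hu using hu
  -- the fibres
  have hX : ∀ P : F[X], P.Monic → P.natDegree = m → Cp ν P →
      Nat.card {J' : Module.End F V // Rt B ν J' ∧ ∃ w, Fr ν P (u0 P) (u1 P) J J' w} = cn B J := by
    intro P hPm hPd hPc
    exact hJ F V B ν J P (u0 P) (u1 P) h20 hsq hSy hRt hPm hPc (by rw [hPd]; exact hfr) (hu P hPm hPc)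
  -- first estimate
  have hf1 : Finite {P : F[X] // P.Monic ∧ P.natDegree = m ∧ Cp ν P} :=
    fin_sub F m _ fun P h => h.2.1
  have e1 : Nat.card {P : F[X] // P.Monic ∧ P.natDegree = m ∧ Cp ν P} * cn B J ≤
      Nat.card {J' : Module.End F V // Rt B ν J'} := by
    rw [← card_sig (fun P : {P : F[X] // P.Monic ∧ P.natDegree = m ∧ Cp ν P} =>
      {J' : Module.End F V // Rt B ν J' ∧ ∃ w, Fr ν P.1 (u0 P.1) (u1 P.1) J J' w}) (cn B J)
      (fun P => hX P.1 P.2.1 P.2.2.1 P.2.2.2)]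
    refine Nat.card_le_card_of_injective
      (fun x => (⟨x.2.1, x.2.2.1⟩ : {J' : Module.End F V // Rt B ν J'})) ?_
    rintro ⟨P, J1, hJ1, w1, hw1⟩ ⟨P', J2, hJ2, w2, hw2⟩ h
    have h3 : J1 = J2 := congrArg (fun x : {J' : Module.End F V // Rt B ν J'} => x.1) h
    subst h3
    have h4 := hM F V ν J J1 P.1 _ _ w1 P.2.1 (by rw [P.2.2.1]; exact hfr) hw1
    have h5 := hM F V ν J J1 P'.1 _ _ w2 P'.2.1 (by rw [P'.2.2.1]; exact hfr) hw2
    have h6 : P = P' := Subtype.ext (h4.symm.trans h5)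
    subst h6
    rfl
  -- second estimate
  have hf2 : Finite {P : F[X] // P.Monic ∧ P.natDegree = m ∧ Cp ν P ∧ Primary P} :=
    fin_sub F m _ fun P h => h.2.1
  have hf3 : Finite {P : F[X] // P.Monic ∧ P.natDegree = m ∧ Primary P} :=
    fin_sub F m _ fun P h => h.2.1
  have e2 : Nat.card {J' : Module.End F V // Rt B ν J' ∧ Good B J J'} ≤
      Nat.card {P : F[X] // P.Monic ∧ P.natDegree = m ∧ Cp ν P ∧ Primary P} * cn B J := by
    rw [← card_sig (fun P : {P : F[X] // P.Monic ∧ P.natDegree = m ∧ Cp ν P ∧ Primary P} =>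
      {J' : Module.End F V // Rt B ν J' ∧ ∃ w, Fr ν P.1 (u0 P.1) (u1 P.1) J J' w}) (cn B J)
      (fun P => hX P.1 P.2.1 P.2.2.1 P.2.2.2.1)]
    have key : ∀ J' : Module.End F V, Rt B ν J' → Good B J J' →
        ((minpoly F (Zop J J')).Monic ∧ (minpoly F (Zop J J')).natDegree = m ∧
          Cp ν (minpoly F (Zop J J')) ∧ Primary (minpoly F (Zop J J'))) ∧
        ∃ w, Fr ν (minpoly F (Zop J J')) (u0 (minpoly F (Zop J J'))) (u1 (minpoly F (Zop J J')))
          J J' w := by
      intro J' hR hG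
      have a1 : (minpoly F (Zop J J')).Monic := minpoly.monic (Algebra.IsIntegral.isIntegral _)
      have a2 := hI F V B ν J J' h20 hsq hSy hRt hR (by omega) hG
      have a3 := hC F V B ν J J' h20 hν hRt hR a2
      have a4 := hP F V B ν J J' h20 hν hRt hR (by omega) hG
      obtain ⟨f, k, hf, hk⟩ := a4
      obtain ⟨a5, a6⟩ := hY F V B ν J J' (minpoly F (Zop J J')) (u0 (minpoly F (Zop J J')))
        (u1 (minpoly F (Zop J J'))) f k h20 hν hSy hRt hR (by omega) a2 rfl hf hk hG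
        (hu _ a1 a3)
      exact ⟨⟨a1, by omega, a3, f, k, hf, hk⟩, a6⟩
    refine Nat.card_le_card_of_injective
      (fun x : {J' : Module.End F V // Rt B ν J' ∧ Good B J J'} =>
        (⟨⟨minpoly F (Zop J x.1), (key x.1 x.2.1 x.2.2).1⟩, ⟨x.1, x.2.1, (key x.1 x.2.1 x.2.2).2⟩⟩ :
          Σ P : {P : F[X] // P.Monic ∧ P.natDegree = m ∧ Cp ν P ∧ Primary P},
            {J' : Module.End F V // Rt B ν J' ∧ ∃ w, Fr ν P.1 (u0 P.1) (u1 P.1) J J' w})) ?_
    intro x y h
    apply Subtype.ext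
    exact congrArg (fun z : (Σ P : {P : F[X] // P.Monic ∧ P.natDegree = m ∧ Cp ν P ∧ Primary P},
            {J' : Module.End F V // Rt B ν J' ∧ ∃ w, Fr ν P.1 (u0 P.1) (u1 P.1) J J' w}) =>
              (z.2.1 : Module.End F V)) h
  have e3 : Nat.card {P : F[X] // P.Monic ∧ P.natDegree = m ∧ Cp ν P ∧ Primary P} ≤
      Nat.card {P : F[X] // P.Monic ∧ P.natDegree = m ∧ Primary P} := by
    refine Nat.card_le_card_of_injective
      (fun P : {P : F[X] // P.Monic ∧ P.natDegree = m ∧ Cp ν P ∧ Primary P} =>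
        (⟨P.1, P.2.1, P.2.2.1, P.2.2.2.2⟩ : {P : F[X] // P.Monic ∧ P.natDegree = m ∧ Primary P})) ?_
    intro x y h
    exact Subtype.ext
      (congrArg (fun z : {P : F[X] // P.Monic ∧ P.natDegree = m ∧ Primary P} => z.1) h)
  have e4 := h1 F m h20 hodd hm
  have e5 := h2 F ν m h20 hν (by omega)
  calc m * Nat.card {J' : Module.End F V // Rt B ν J' ∧ Good B J J'}
      ≤ m * (Nat.card {P : F[X] // P.Monic ∧ P.natDegree = m ∧ Primary P} * cn B J) :=
        Nat.mul_le_mul_left m (e2.trans (Nat.mul_le_mul_right _ e3))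
    _ = (m * Nat.card {P : F[X] // P.Monic ∧ P.natDegree = m ∧ Primary P}) * cn B J := by ring
    _ ≤ (2 * Nat.card F ^ m) * cn B J := Nat.mul_le_mul_right _ e4
    _ ≤ (2 * (3 * Nat.card {P : F[X] // P.Monic ∧ P.natDegree = m ∧ Cp ν P})) * cn B J :=
        Nat.mul_le_mul_right _ (Nat.mul_le_mul_left 2 e5)
    _ = 6 * (Nat.card {P : F[X] // P.Monic ∧ P.natDegree = m ∧ Cp ν P} * cn B J) := by ring
    _ ≤ 6 * Nat.card {J' : Module.End F V // Rt B ν J'} := Nat.mul_le_mul_left 6 e1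

end Pool.Agent.H330.P2
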