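import Pool.Agent.H330.P2.ALG
import Pool.Agent.H330.P2.BAS
import Pool.Agent.H330.P2.HERM
import Pool.Agent.H330.P2.NORM
import Pool.Agent.H330.P2.DUAL
import Pool.Agent.H330.P2.FRM
import Pool.Agent.H330.P2.KOP
import Pool.Agent.H330.P2.BACK
import Pool.Agent.H330.P2.MAP
import Pool.Agent.H330.P2.TORS
import Pool.Agent.H330.P2.CNT
import Pool.Agent.H330.P2.FIB
import Pool.Agent.H330.P2.JP
import Pool.Agent.H330.P2.MIN
import Pool.Agent.H330.P2.NI
import Pool.Agent.H330.P2.CP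
import Pool.Agent.H330.P2.PR
import Pool.Agent.H330.P2.CY
import Pool.Agent.H330.P2.CNTP
import Pool.Agent.H330.P2.CNTC
import Pool.Agent.H330.P2.TOT
import Pool.Agent.H330.P2.ORB
import Pool.Agent.H330.P2.RED
import Pool.Agent.H330.P2.IRR
import Pool.Agent.H330.P2.DOM
import Pool.Agent.H330.P2.FIN
import Pool.Agent.H330.P2.GRP
import Pool.Agent.H330.P2.Final

/-!
# Assembly of the lemmas
-/

namespace Pool.Agent.H330.P2

theorem a_ALG : S_ALG := h_ALG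
theorem a_BAS : S_BAS := h_BAS
theorem a_HERM : S_HERM := h_HERM a_BAS
theorem a_NORM : S_NORM := h_NORM
theorem a_DUAL : S_DUAL := h_DUAL
theorem a_FRM : S_FRM := h_FRM
theorem a_KOP : S_KOP := h_KOP
theorem a_BACK : S_BACK := h_BACK a_KOP
theorem a_MAP : S_MAP := h_MAP a_ALG a_FRM
theorem a_TORS : S_TORS := h_TORS a_HERM a_FRM
theorem a_CNT : S_CNT := h_CNT a_TORS a_KOP a_BACK a_MAP
theorem a_FIB : S_FIB := h_FIB a_KOP a_MAP
theorem a_JP : S_JP := h_JP a_CNT a_FIB a_DUAL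
theorem a_MIN : S_MIN := h_MIN
theorem a_NI : S_NI := h_NI a_ALG
theorem a_CP : S_CP := h_CP a_ALG
theorem a_PR : S_PR := h_PR a_ALG
theorem a_CY : S_CY := h_CY a_ALG
theorem a_CNTP : S_CNTP := h_CNTP
theorem a_CNTC : S_CNTC := h_CNTC
theorem a_TOT : S_TOT := h_TOT a_NORM a_JP a_MIN a_NI a_CP a_PR a_CY a_CNTP a_CNTC
theorem a_ORB : S_ORB := h_ORB a_HERM a_TOT
theorem a_RED : S_RED := h_RED
theorem a_IRR : S_IRR := h_IRR
theorem a_DOM : S_DOM := h_DOM a_RED a_IRR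
theorem a_FIN : S_FIN := h_FIN a_DOM a_ORB
theorem a_GRP : S_GRP := h_GRP

end Pool.Agent.H330.P2
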