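import Pool.Agent.H330.P2.Spec

/-!
# MP_971469_al: the minimal polynomial of `Z` does not vanish at `±2ν` (helper284)
-/

namespace Pool.Agent.H330.P2

open Module Polynomial

namespace CP

/-- an eigenvalue `c` of `Z` with `c ^ 2 = 4 ν ^ 2` gives a vector of the kernel of `N` -/
theorem aux {F V : Type} [Field F] [AddCommGroup V] [Module F V] [FiniteDimensional F V]
    {ν c : F} {J J' : Module.End F V} (h2 : (2 : F) ≠ 0) (hν : ν ≠ 0) (hc : c * c = 4 * ν * ν)
    (hN2 : ∀ x, Nop ν J J' (Nop ν J J' x) = ν • x - (4 * ν)⁻¹ • Zop J J' (Zop J J' x))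
    (hN : ∀ x, Nop ν J J' x = 0 → x = 0) : (minpoly F (Zop J J')).eval c ≠ 0 := by
  intro h
  have h1 : (Zop J J').HasEigenvalue c := Module.End.hasEigenvalue_of_isRoot h
  obtain ⟨x, hx⟩ := h1.exists_hasEigenvector
  have h4 : (4 : F) ≠ 0 := by
    have : (4 : F) = 2 * 2 := by norm_num
    rw [this]
    exact mul_ne_zero h2 h2
  have h5 : Zop J J' x = c • x := hx.apply_eq_smul
  have h6 : Nop ν J J' (Nop ν J J' x) = 0 := by
    rw [hN2, h5, map_smul, h5, smul_smul, smul_smul, mul_assoc _ c c, hc, ← sub_smul]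
    have h7 : ν - (4 * ν)⁻¹ * (4 * ν * ν) = 0 := by
      field_simp
      ring
    rw [h7, zero_smul]
  exact hx.2 (hN x (hN _ h6))

end CP

theorem h_CP (hA : S_ALG) : S_CP := by
  intro F V _ _ _ _ B ν J J' h2 hν hJ hJ' hN
  obtain ⟨-, -, -, -, hN2, -⟩ := hA F V B ν J J' h2 hν hJ hJ'
  exact ⟨CP.aux h2 hν (by ring) hN2 hN, CP.aux h2 hν (by ring) hN2 hN⟩

end Pool.Agent.H330.P2
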