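import Mathlib

/-!
# Skew-adjoint square roots in symplectic spaces: definitions

`F` is a field, `V` an `F`-space with an alternating nondegenerate form `B`, `ν` a nonsquare
of `F`.  For skew-adjoint `J, J'` with square `ν` we put `Z = J J' + J' J` (it commutes with `J`
and `J'`) and `N = J' - (2ν)⁻¹ J Z` (it anticommutes with `J` and commutes with `Z`).
-/

namespace Pool.Agent.H330.P2

open Module Polynomial

section Basic

variable {F V : Type} [Field F] [AddCommGroup V] [Module F V]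

/-- `B` is alternating and nondegenerate. -/
structure Sy (B : V →ₗ[F] V →ₗ[F] F) : Prop where
  alt : ∀ x, B x x = 0
  nondeg : ∀ x, (∀ y, B x y = 0) → x = 0

/-- `J` is a skew-adjoint square root of `ν`. -/
structure Rt (B : V →ₗ[F] V →ₗ[F] F) (ν : F) (J : Module.End F V) : Prop where
  sq : ∀ x, J (J x) = ν • x
  skew : ∀ x y, B (J x) y = - B x (J y)

/-- `g` is an isometry of `B`. -/
def Ism (B : V →ₗ[F] V →ₗ[F] F) (g : V ≃ₗ[F] V) : Prop := ∀ x y, B (g x) (g y) = B x y

/-- `g` commutes with `J`. -/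
def Cm (J : Module.End F V) (g : V ≃ₗ[F] V) : Prop := ∀ x, g (J x) = J (g x)

/-- The number of isometries commuting with `J`. -/
noncomputable def cn (B : V →ₗ[F] V →ₗ[F] F) (J : Module.End F V) : ℕ :=
  Nat.card {g : V ≃ₗ[F] V // Ism B g ∧ Cm J g}

/-- `g` is `1` or `-1`. -/
def Triv (g : V ≃ₗ[F] V) : Prop := (∀ x, g x = x) ∨ ∀ x, g x = -x

/-- `Z = J J' + J' J`. -/
def Zop (J J' : Module.End F V) : Module.End F V := J * J' + J' * J

/-- `N = J' - (2ν)⁻¹ J Z`. -/
noncomputable def Nop (ν : F) (J J' : Module.End F V) : Module.End F V :=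
  J' - (2 * ν)⁻¹ • (J * Zop J J')

/-- Only `1` and `-1` are isometries commuting with `J` and `J'`. -/
def Good (B : V →ₗ[F] V →ₗ[F] F) (J J' : Module.End F V) : Prop :=
  ∀ g : V ≃ₗ[F] V, Ism B g → Cm J g → Cm J' g → Triv g

/-- `(J', w)` is a frame of type `(P, u0, u1)` (over `J`). -/
structure Fr (ν : F) (P u0 u1 : F[X]) (J J' : Module.End F V) (w : V) : Prop where
  zero : aeval (Zop J J') P = 0
  eig : Nop ν J J' w = aeval (Zop J J') u0 w + J (aeval (Zop J J') u1 w)
  gen : ∀ v : V, ∃ a b : F[X], v = aeval (Zop J J') a w + J (aeval (Zop J J') b w)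

end Basic

section Poly

variable {F : Type} [Field F]

/-- `u0² - ν u1² ≡ (4ν² - X²)/(4ν)` modulo `P`. -/
def Vu (ν : F) (P u0 u1 : F[X]) : Prop :=
  P ∣ u0 ^ 2 - C ν * u1 ^ 2 - (C ν - C ((4 * ν)⁻¹) * X ^ 2)

/-- `P` does not vanish at `2ν` and `-2ν`. -/
def Cp (ν : F) (P : F[X]) : Prop := P.eval (2 * ν) ≠ 0 ∧ P.eval (-(2 * ν)) ≠ 0

/-- `P` is a power of an irreducible polynomial. -/
def Primary (P : F[X]) : Prop := ∃ (f : F[X]) (k : ℕ), Irreducible f ∧ P = f ^ k

/-- The functional `ℓ` on `F[X]/(P)` contains no nonzero ideal in its kernel. -/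
def ND {P : F[X]} (l : AdjoinRoot P →ₗ[F] F) : Prop := ∀ r, (∀ s, l (r * s) = 0) → r = 0

/-- The alternating form `(x, y) ↦ ℓ(x₁ y₂ - x₂ y₁)` on `(F[X]/(P))²`. -/
noncomputable def frm {P : F[X]} (l : AdjoinRoot P →ₗ[F] F) :
    (AdjoinRoot P × AdjoinRoot P) →ₗ[F] (AdjoinRoot P × AdjoinRoot P) →ₗ[F] F :=
  LinearMap.mk₂ F (fun x y => l (x.1 * y.2 - x.2 * y.1))
    (by intro x x' y; rw [← map_add]; congr 1; simp only [Prod.fst_add, Prod.snd_add]; ring)
    (by intro c x y; rw [← map_smul]; congr 1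
        simp only [Prod.smul_fst, Prod.smul_snd, smul_mul_assoc, smul_sub])
    (by intro x y y'; rw [← map_add]; congr 1; simp only [Prod.fst_add, Prod.snd_add]; ring)
    (by intro c x y; rw [← map_smul]; congr 1
        simp only [Prod.smul_fst, Prod.smul_snd, mul_smul_comm, smul_sub])

theorem frm_apply {P : F[X]} (l : AdjoinRoot P →ₗ[F] F) (x y : AdjoinRoot P × AdjoinRoot P) :
    frm l x y = l (x.1 * y.2 - x.2 * y.1) := rfl

/-- `(a, b) ↦ (ν b, a)`: multiplication by `j` on `a + j b`, `j² = ν`. -/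
noncomputable def jop (ν : F) (P : F[X]) : Module.End F (AdjoinRoot P × AdjoinRoot P) where
  toFun x := (ν • x.2, x.1)
  map_add' x y := by
    ext
    · simp only [Prod.snd_add, smul_add, Prod.fst_add]
    · simp only [Prod.fst_add, Prod.snd_add]
  map_smul' c x := by
    ext
    · simp only [Prod.smul_snd, Prod.smul_fst, RingHom.id_apply]; rw [smul_comm]
    · simp only [Prod.smul_fst, Prod.smul_snd, RingHom.id_apply]

/-- The model of `J'`: `a + j b ↦ j x (a + j b)/(2ν) + (u0 + j u1)(a - j b)`, where `x` is the root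
of `P`. -/
noncomputable def kop (ν : F) (P u0 u1 : F[X]) :
    Module.End F (AdjoinRoot P × AdjoinRoot P) where
  toFun x := ((2 : F)⁻¹ • (AdjoinRoot.root P * x.2) + AdjoinRoot.mk P u0 * x.1
      - ν • (AdjoinRoot.mk P u1 * x.2),
    (2 * ν)⁻¹ • (AdjoinRoot.root P * x.1) + AdjoinRoot.mk P u1 * x.1 - AdjoinRoot.mk P u0 * x.2)
  map_add' x y := by
    ext
    · simp only [Prod.snd_add, Prod.fst_add, mul_add, smul_add]; ring
    · simp only [Prod.snd_add, Prod.fst_add, mul_add, smul_add]; ring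
  map_smul' c x := by
    ext
    · simp only [Prod.smul_snd, Prod.smul_fst, RingHom.id_apply, mul_smul_comm, smul_sub,
        smul_add]
      rw [smul_comm c (2 : F)⁻¹, smul_comm c ν]
    · simp only [Prod.smul_snd, Prod.smul_fst, RingHom.id_apply, mul_smul_comm, smul_sub,
        smul_add]
      rw [smul_comm c (2 * ν)⁻¹]

end Poly

end Pool.Agent.H330.P2
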