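import Pool.Agent.H330.P2.Spec
import Pool.Agent.H330.Short

/-!
# From isometries to the group `PSp(V)`
-/

namespace Pool.Agent.H330.P2

open Module Pool.Agent.H330

section Quot

variable {Γ : Type} [Group Γ] (N : Subgroup Γ) [N.Normal]

theorem card_pre (Q : (Γ ⧸ N) → (Γ ⧸ N) → Prop) :
    Nat.card {p : Γ × Γ // Q (QuotientGroup.mk p.1) (QuotientGroup.mk p.2)} =
      Nat.card {p : (Γ ⧸ N) × (Γ ⧸ N) // Q p.1 p.2} * Nat.card N ^ 2 := by
  have hout : ∀ g : Γ, (Quotient.out (QuotientGroup.mk g : Γ ⧸ N))⁻¹ * g ∈ N := by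
    intro g
    rw [← QuotientGroup.eq]
    exact Quotient.out_eq _
  have hmk : ∀ (x : Γ ⧸ N) (n : N), (QuotientGroup.mk (Quotient.out x * (n : Γ)) : Γ ⧸ N) = x := by
    intro x n
    rw [QuotientGroup.mk_mul_of_mem _ n.2]
    exact Quotient.out_eq x
  let e : {p : Γ × Γ // Q (QuotientGroup.mk p.1) (QuotientGroup.mk p.2)} ≃
      {p : (Γ ⧸ N) × (Γ ⧸ N) // Q p.1 p.2} × (N × N) :=
    { toFun := fun p => (⟨(QuotientGroup.mk p.1.1, QuotientGroup.mk p.1.2), p.2⟩,
        (⟨_, hout p.1.1⟩, ⟨_, hout p.1.2⟩))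
      invFun := fun x => ⟨(Quotient.out x.1.1.1 * (x.2.1 : Γ), Quotient.out x.1.1.2 * (x.2.2 : Γ)),
        by
          show Q (QuotientGroup.mk _) (QuotientGroup.mk _)
          rw [hmk, hmk]; exact x.1.2⟩
      left_inv := by
        rintro ⟨⟨a, b⟩, h⟩
        apply Subtype.ext
        apply Prod.ext
        · show Quotient.out (QuotientGroup.mk a : Γ ⧸ N) * ((Quotient.out (QuotientGroup.mk a : Γ ⧸ N))⁻¹ * a) = a
          group
        · show Quotient.out (QuotientGroup.mk b : Γ ⧸ N) * ((Quotient.out (QuotientGroup.mk b : Γ ⧸ N))⁻¹ * b) = b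
          group
      right_inv := by
        rintro ⟨⟨⟨x, y⟩, h⟩, ⟨n, k⟩⟩
        apply Prod.ext
        · apply Subtype.ext
          apply Prod.ext
          · exact hmk x n
          · exact hmk y k
        · apply Prod.ext
          · apply Subtype.ext
            show (Quotient.out (QuotientGroup.mk (Quotient.out x * (n : Γ)) : Γ ⧸ N))⁻¹ * (Quotient.out x * (n : Γ)) = n
            rw [hmk]; group
          · apply Subtype.ext
            show (Quotient.out (QuotientGroup.mk (Quotient.out y * (k : Γ)) : Γ ⧸ N))⁻¹ * (Quotient.out y * (k : Γ)) = k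
            rw [hmk]; group }
  rw [Nat.card_congr e, Nat.card_prod, Nat.card_prod, pow_two]

end Quot

section Lin

variable {F V : Type} [Field F] [AddCommGroup V] [Module F V]

/-- The isometry group. -/
def SpB (B : V →ₗ[F] V →ₗ[F] F) : Subgroup (V ≃ₗ[F] V) where
  carrier := {g | Ism B g}
  mul_mem' := by
    intro a b ha hb x y
    rw [LinearEquiv.mul_apply, LinearEquiv.mul_apply, ha, hb]
  one_mem' := fun x y => rfl
  inv_mem' := by
    intro a ha x y
    have h := ha (a⁻¹ x) (a⁻¹ y)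
    rw [← LinearEquiv.mul_apply, ← LinearEquiv.mul_apply, mul_inv_cancel] at h
    exact h.symm

theorem mem_SpB {B : V →ₗ[F] V →ₗ[F] F} {g : V ≃ₗ[F] V} : g ∈ SpB B ↔ Ism B g := Iff.rfl

theorem triv_of_scalar {B : V →ₗ[F] V →ₗ[F] F} (hB : Sy B) (g : SpB B) (hg : g ∈ scalars (SpB B)) :
    Triv (g : V ≃ₗ[F] V) := by
  obtain ⟨c, hc⟩ := hg
  by_cases hV : ∀ x : V, x = 0
  · left
    intro x
    rw [hV x, map_zero]
  · push Not at hV
    obtain ⟨x, hx⟩ := hV
    have h1 : ∃ y, B x y ≠ 0 := by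
      by_contra hcon
      push Not at hcon
      exact hx (hB.nondeg x hcon)
    obtain ⟨y, hy⟩ := h1
    have h2 := (mem_SpB.mp g.2) x y
    rw [hc, hc] at h2
    simp only [map_smul, LinearMap.smul_apply, smul_eq_mul] at h2
    have h3 : (c - 1) * (c + 1) * B x y = 0 := by linear_combination h2
    rcases mul_eq_zero.mp h3 with h4 | h4
    · rcases mul_eq_zero.mp h4 with h5 | h5
      · left
        intro z
        rw [hc, sub_eq_zero.mp h5, one_smul]
      · right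
        intro z
        rw [hc, eq_neg_of_add_eq_zero_left h5, neg_smul, one_smul]
    · exact absurd h4 hy

theorem scalar_of_triv {B : V →ₗ[F] V →ₗ[F] F} (g : SpB B) (hg : Triv (g : V ≃ₗ[F] V)) :
    g ∈ scalars (SpB B) := by
  rcases hg with h | h
  · exact ⟨1, fun x => by rw [h, one_smul]⟩
  · exact ⟨-1, fun x => by rw [h, neg_smul, one_smul]⟩

theorem gen_of_closure {B : V →ₗ[F] V →ₗ[F] F} (hB : Sy B) (x y : SpB B)
    (h : Subgroup.closure {(QuotientGroup.mk x : SpB B ⧸ scalars (SpB B)), QuotientGroup.mk y} = ⊤) :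
    Gen B x y := by
  intro H hH hx hy g hg
  let H' : Subgroup (SpB B) := H.comap (SpB B).subtype
  have h1 : H'.map (QuotientGroup.mk' (scalars (SpB B))) = ⊤ := by
    rw [eq_top_iff, ← h, Subgroup.closure_le]
    rintro z (rfl | rfl)
    · exact ⟨x, hx, rfl⟩
    · exact ⟨y, hy, rfl⟩
  have h2 : (QuotientGroup.mk' (scalars (SpB B)) ⟨g, hg⟩) ∈ H'.map (QuotientGroup.mk' (scalars (SpB B))) := by
    rw [h1]; trivial
  obtain ⟨k, hk, hkg⟩ := h2
  have h3 : k⁻¹ * ⟨g, hg⟩ ∈ scalars (SpB B) := QuotientGroup.eq.mp hkg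
  have h4 := hH _ (triv_of_scalar hB _ h3)
  have h5 : (k : V ≃ₗ[F] V) * ((k⁻¹ * ⟨g, hg⟩ : SpB B) : V ≃ₗ[F] V) = g := by
    rw [Subgroup.coe_mul, Subgroup.coe_inv]
    show (k : V ≃ₗ[F] V) * ((k : V ≃ₗ[F] V)⁻¹ * g) = g
    rw [mul_inv_cancel_left]
  rw [← h5]
  exact H.mul_mem hk h4

theorem dom_of_TDS {B : V →ₗ[F] V →ₗ[F] F} (hB : Sy B) (t a b : SpB B)
    (h : IsTDS ({(QuotientGroup.mk a : SpB B ⧸ scalars (SpB B)) * QuotientGroup.mk t *
      (QuotientGroup.mk a)⁻¹, QuotientGroup.mk b * QuotientGroup.mk t * (QuotientGroup.mk b)⁻¹} :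
        Set (SpB B ⧸ scalars (SpB B)))) :
    Dom B t a b := by
  intro x hx hnt
  have h1 : (QuotientGroup.mk (⟨x, hx⟩ : SpB B) : SpB B ⧸ scalars (SpB B)) ≠ 1 := by
    intro h1
    rw [QuotientGroup.eq_one_iff] at h1
    exact hnt (triv_of_scalar hB _ h1)
  obtain ⟨y, hy, hcl⟩ := h.2 _ h1
  rcases hy with rfl | hy
  · left
    exact gen_of_closure hB ⟨x, hx⟩ (a * t * a⁻¹) hcl
  · right
    rw [Set.mem_singleton_iff] at hy
    subst hy
    exact gen_of_closure hB ⟨x, hx⟩ (b * t * b⁻¹) hcl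

/-- The count of the dominating pairs in `PSp(V)`. -/
theorem count_quot (hF : S_FIN) [Finite F] [Finite V] {B : V →ₗ[F] V →ₗ[F] F} (hB : Sy B) {m : ℕ}
    (h2 : (2 : F) ≠ 0) (hm : Odd m) (hm3 : 3 ≤ m) (hV : finrank F V = 2 * m)
    (s : SpB B ⧸ scalars (SpB B)) :
    m * Nat.card {p : (SpB B ⧸ scalars (SpB B)) × (SpB B ⧸ scalars (SpB B)) //
      IsTDS ({p.1 * s * p.1⁻¹, p.2 * s * p.2⁻¹} : Set (SpB B ⧸ scalars (SpB B)))} ≤
      6 * Nat.card (SpB B ⧸ scalars (SpB B)) ^ 2 := by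
  classical
  obtain ⟨t, rfl⟩ := QuotientGroup.mk_surjective s
  have hfin : Finite (V ≃ₗ[F] V) :=
    Finite.of_injective (fun e => (e : V → V)) DFunLike.coe_injective
  have h1 := hF F V B m t h2 hB hm hm3 hV t.2
  have h3 : Nat.card {p : SpB B × SpB B //
      IsTDS ({(QuotientGroup.mk p.1 : SpB B ⧸ scalars (SpB B)) * QuotientGroup.mk t *
      (QuotientGroup.mk p.1)⁻¹, QuotientGroup.mk p.2 * QuotientGroup.mk t *
        (QuotientGroup.mk p.2)⁻¹} : Set (SpB B ⧸ scalars (SpB B)))} ≤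
      Nat.card {p : (V ≃ₗ[F] V) × (V ≃ₗ[F] V) // Ism B p.1 ∧ Ism B p.2 ∧ Dom B t p.1 p.2} := by
    apply Nat.card_le_card_of_injective
      (fun p => ⟨((p.1.1 : V ≃ₗ[F] V), (p.1.2 : V ≃ₗ[F] V)), p.1.1.2, p.1.2.2,
        dom_of_TDS hB t p.1.1 p.1.2 p.2⟩)
    rintro ⟨⟨a, b⟩, h⟩ ⟨⟨a', b'⟩, h'⟩ heq
    rw [Subtype.mk.injEq, Prod.mk.injEq] at heq
    apply Subtype.ext
    exact Prod.ext (Subtype.ext heq.1) (Subtype.ext heq.2)
  have h4 := card_pre (scalars (SpB B)) (fun x y => IsTDS ({x * QuotientGroup.mk t * x⁻¹,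
    y * QuotientGroup.mk t * y⁻¹} : Set (SpB B ⧸ scalars (SpB B))))
  have h5 : Nat.card {g : V ≃ₗ[F] V // Ism B g} =
      Nat.card (SpB B ⧸ scalars (SpB B)) * Nat.card (scalars (SpB B)) := by
    have := Subgroup.card_eq_card_quotient_mul_card_subgroup (scalars (SpB B))
    rw [← this]
    rfl
  have hpos : 0 < Nat.card (scalars (SpB B)) := Nat.card_pos
  rw [h4] at h3
  rw [h5] at h1
  have h6 : m * Nat.card {p : (SpB B ⧸ scalars (SpB B)) × (SpB B ⧸ scalars (SpB B)) //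
      IsTDS ({p.1 * QuotientGroup.mk t * p.1⁻¹, p.2 * QuotientGroup.mk t * p.2⁻¹} :
        Set (SpB B ⧸ scalars (SpB B)))} * Nat.card (scalars (SpB B)) ^ 2 ≤
      6 * Nat.card (SpB B ⧸ scalars (SpB B)) ^ 2 * Nat.card (scalars (SpB B)) ^ 2 := by
    calc _ = m * (Nat.card {p : (SpB B ⧸ scalars (SpB B)) × (SpB B ⧸ scalars (SpB B)) //
      IsTDS ({p.1 * QuotientGroup.mk t * p.1⁻¹, p.2 * QuotientGroup.mk t * p.2⁻¹} :
        Set (SpB B ⧸ scalars (SpB B)))} * Nat.card (scalars (SpB B)) ^ 2) := by ring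
      _ ≤ m * _ := Nat.mul_le_mul_left m h3
      _ ≤ _ := h1
      _ = _ := by ring
  exact Nat.le_of_mul_le_mul_right h6 (pow_pos hpos 2)

end Lin

section Prob

/-- `S` is a uniform dominating set: a total dominating set of pairwise conjugate elements. -/
def IsUDS {G : Type} [Group G] (S : Set G) : Prop := IsTDS S ∧ ∀ a ∈ S, ∀ b ∈ S, IsConj a b

/-- `P(G, s, c)`. -/
noncomputable def prob (G : Type) [Group G] (s : G) (c : ℕ) : ℝ :=
  Nat.card {x : Fin c → G // (∀ i, IsConj s (x i)) ∧ IsUDS (Set.range x)} /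
    Nat.card {y : G // IsConj s y} ^ c

/-- `P_c(G)`. -/
noncomputable def probMax (G : Type) [Group G] (c : ℕ) : ℝ := ⨆ s : G, prob G s c

variable {G : Type} [Group G] [Finite G]

theorem prob_le (hG : S_GRP) {m : ℕ} (hm : 0 < m) (s : G)
    (h : m * Nat.card {p : G × G // IsTDS ({p.1 * s * p.1⁻¹, p.2 * s * p.2⁻¹} : Set G)} ≤
      6 * Nat.card G ^ 2) : prob G s 2 ≤ 6 / m := by
  have h1 := hG G s IsUDS
  have h2 : Nat.card {p : G × G // IsUDS ({p.1 * s * p.1⁻¹, p.2 * s * p.2⁻¹} : Set G)} ≤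
      Nat.card {p : G × G // IsTDS ({p.1 * s * p.1⁻¹, p.2 * s * p.2⁻¹} : Set G)} := by
    apply Nat.card_le_card_of_injective
      (fun p => ⟨p.1, p.2.1⟩)
    rintro ⟨p, hp⟩ ⟨p', hp'⟩ heq
    rw [Subtype.mk.injEq] at heq
    exact Subtype.ext heq
  have h3 : m * Nat.card {p : G × G // IsUDS ({p.1 * s * p.1⁻¹, p.2 * s * p.2⁻¹} : Set G)} ≤
      6 * Nat.card G ^ 2 := (Nat.mul_le_mul_left m h2).trans h
  have hGpos : 0 < Nat.card G := Nat.card_pos
  have hc : 0 < Nat.card {y : G // IsConj s y} := by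
    have : Nonempty {y : G // IsConj s y} := ⟨⟨s, IsConj.refl s⟩⟩
    exact Nat.card_pos
  have h4 : m * Nat.card {x : Fin 2 → G // (∀ i, IsConj s (x i)) ∧ IsUDS (Set.range x)} ≤
      6 * Nat.card {y : G // IsConj s y} ^ 2 := by
    have h5 : m * Nat.card {x : Fin 2 → G // (∀ i, IsConj s (x i)) ∧ IsUDS (Set.range x)} *
        Nat.card G ^ 2 ≤ 6 * Nat.card {y : G // IsConj s y} ^ 2 * Nat.card G ^ 2 := by
      calc _ = m * (Nat.card {x : Fin 2 → G // (∀ i, IsConj s (x i)) ∧ IsUDS (Set.range x)} *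
        Nat.card G ^ 2) := by ring
        _ = m * Nat.card {p : G × G // IsUDS ({p.1 * s * p.1⁻¹, p.2 * s * p.2⁻¹} : Set G)} *
            Nat.card {y : G // IsConj s y} ^ 2 := by rw [← h1]; ring
        _ ≤ 6 * Nat.card G ^ 2 * Nat.card {y : G // IsConj s y} ^ 2 :=
            Nat.mul_le_mul_right _ h3
        _ = _ := by ring
    exact Nat.le_of_mul_le_mul_right h5 (pow_pos hGpos 2)
  have hmR : (0 : ℝ) < m := by exact_mod_cast hm
  have hcR : (0 : ℝ) < Nat.card {y : G // IsConj s y} := by exact_mod_cast hc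
  rw [prob, div_le_div_iff₀ (pow_pos hcR 2) hmR]
  have h6 : (m : ℝ) * Nat.card {x : Fin 2 → G // (∀ i, IsConj s (x i)) ∧ IsUDS (Set.range x)} ≤
      6 * (Nat.card {y : G // IsConj s y} : ℝ) ^ 2 := by exact_mod_cast h4
  linarith

theorem probMax_le {c : ℕ} {r : ℝ} (h : ∀ s : G, prob G s c ≤ r) : probMax G c ≤ r :=
  ciSup_le h

theorem prob_nonneg (s : G) (c : ℕ) : 0 ≤ prob G s c := by
  unfold prob
  positivity

theorem probMax_pos_of {c : ℕ} (s : G) (h : 0 < prob G s c) : 0 < probMax G c :=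
  lt_of_lt_of_le h (le_ciSup (f := fun s : G => prob G s c) (Set.finite_range _).bddAbove s)

theorem probMax_pos (h : gammaU G = 2) : 0 < probMax G 2 := by
  classical
  have hne : {n | ∃ S : Finset G, S.card = n ∧ IsTDS (S : Set G) ∧
      ∀ s ∈ S, ∀ t ∈ S, IsConj s t}.Nonempty := by
    by_contra hcon
    rw [Set.not_nonempty_iff_eq_empty] at hcon
    have : gammaU G = 0 := by
      unfold gammaU
      rw [hcon]
      exact Nat.sInf_empty
    omega
  have hmem := Nat.sInf_mem hne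
  have h' : sInf {n | ∃ S : Finset G, S.card = n ∧ IsTDS (S : Set G) ∧
      ∀ s ∈ S, ∀ t ∈ S, IsConj s t} = 2 := h
  rw [h'] at hmem
  obtain ⟨S, hS2, hT, hC⟩ := hmem
  rw [Finset.card_eq_two] at hS2
  obtain ⟨x, y, hxy, rfl⟩ := hS2
  apply probMax_pos_of x
  have hrange : Set.range ![x, y] = (({x, y} : Finset G) : Set G) := by
    ext z
    simp only [Set.mem_range, Fin.exists_fin_two, Matrix.cons_val_zero, Matrix.cons_val_one,
      Finset.coe_insert, Finset.coe_singleton, Set.mem_insert_iff, Set.mem_singleton_iff]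
    exact or_congr eq_comm eq_comm
  unfold prob
  apply div_pos
  · have hxx : IsConj x x := IsConj.refl x
    have hxy' : IsConj x y := hC x (by simp) y (by simp)
    have : Nonempty {z : Fin 2 → G // (∀ i, IsConj x (z i)) ∧ IsUDS (Set.range z)} :=
      ⟨⟨![x, y], by
        constructor
        · intro i
          fin_cases i
          · exact hxx
          · exact hxy'
        · rw [hrange]
          refine ⟨hT, ?_⟩
          intro a ha b hb
          exact hC a (by simpa using ha) b (by simpa using hb)⟩⟩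
    exact_mod_cast Nat.card_pos
  · apply pow_pos
    have : Nonempty {z : G // IsConj x z} := ⟨⟨x, IsConj.refl x⟩⟩
    exact_mod_cast Nat.card_pos

end Prob

end Pool.Agent.H330.P2
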