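import Pool.Agent.H330.P2.Defs

/-!
# MP_971469_al: specification of the lemmas

Project: for `G = PSp_{2m}(q)`, `m ≥ 3` odd and `q` odd, `m * P(G, s, 2) ≤ 6` for all `s ∈ G`.
Every `S_X : Prop` below is one lemma, its docstring contains a complete proof.

Notation in the proofs: `Z = Zop J J'`, `N = Nop ν J J'`, `b(x, y) = B(x, J y)`;
for a polynomial `p` we write `p(Z)` for `aeval (Zop J J') p`.
-/

namespace Pool.Agent.H330.P2

open Module Polynomial

/-- **ALG.**  `Z` commutes with `J` and `J'`; `N` anticommutes with `J` and commutes with `Z`;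
`N² = ν - (4ν)⁻¹ Z²`; `Z` is self-adjoint and `N` is skew-adjoint; the same for polynomials in `Z`.

Proof.  `J² = J'² = ν`, so `Z J = J J' J + J' J² = J J' J + J² J' = J Z` (scalars commute), same
for `J'`.  `N J + J N = J' J + J J' - (2ν)⁻¹ (J Z J + J² Z) = Z - (2ν)⁻¹ 2 ν Z = 0`.
`N² = J'² - (2ν)⁻¹ (J' J Z + J Z J') + (4ν²)⁻¹ J Z J Z = ν - (2ν)⁻¹ Z² + (4ν)⁻¹ Z²
= ν - (4ν)⁻¹ Z²`.  Adjoints: `B (J J' x) y = B x (J' J y)`.  Polynomials: by induction
(`Polynomial.induction_on'` or `Commute`). -/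
def S_ALG : Prop :=
  ∀ (F V : Type) [Field F] [AddCommGroup V] [Module F V] (B : V →ₗ[F] V →ₗ[F] F) (ν : F)
    (J J' : Module.End F V), (2 : F) ≠ 0 → ν ≠ 0 → Rt B ν J → Rt B ν J' →
    (∀ x, Zop J J' (J x) = J (Zop J J' x)) ∧
    (∀ x, Zop J J' (J' x) = J' (Zop J J' x)) ∧
    (∀ x, Nop ν J J' (J x) = - J (Nop ν J J' x)) ∧
    (∀ x, Nop ν J J' (Zop J J' x) = Zop J J' (Nop ν J J' x)) ∧
    (∀ x, Nop ν J J' (Nop ν J J' x) = ν • x - (4 * ν)⁻¹ • Zop J J' (Zop J J' x)) ∧
    (∀ x y, B (Zop J J' x) y = B x (Zop J J' y)) ∧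
    (∀ x y, B (Nop ν J J' x) y = - B x (Nop ν J J' y)) ∧
    (∀ (p : F[X]) (x : V), aeval (Zop J J') p (J x) = J (aeval (Zop J J') p x)) ∧
    (∀ (p : F[X]) (x : V), aeval (Zop J J') p (J' x) = J' (aeval (Zop J J') p x)) ∧
    (∀ (p : F[X]) (x : V), aeval (Zop J J') p (Nop ν J J' x) = Nop ν J J' (aeval (Zop J J') p x)) ∧
    (∀ (p : F[X]) (x y : V), B (aeval (Zop J J') p x) y = B x (aeval (Zop J J') p y))

/-- **BAS.**  Existence of an orthonormal basis for the hermitian form of `J`.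

Proof.  (1) `b(x, y) = B x (J y)` is symmetric (`B (J x) y = - B x (J y)` and `B` is alternating,
so skew-symmetric) and nondegenerate.  If `V ≠ 0` there is `v` with `b(v, v) ≠ 0`
(otherwise `2 b(x, y) = b(x+y, x+y) - b(x,x) - b(y,y) = 0`).  For `e = α v + β J v` one finds
`b(e, e) = (α² - ν β²) b(v, v)`; the form `α² - ν β²` represents every element of the finite field
`F` of odd order (e.g. `FiniteField.exists_root_sum_quadratic`, or pigeonhole), so there is `e` with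
`b(e, e) = 1`.
(2) Let `k ≤ m` be maximal such that there is a family `e : Fin k → V` with
`B (e i) (e j) = 0`, `B (e i) (J (e j)) = δ_ij`.  Suppose `k < m`.  The `2k` vectors
`e i, J (e i)` span a space `U` of dimension `≤ 2k < 2m`, so
`U^⊥ = {x : ∀ i, B x (e i) = 0 ∧ B x (J (e i)) = 0}` is nonzero (it is the kernel of a linear map
to `F^(2k)`); it is `J`-stable since `B (J x) (e i) = - B x (J (e i))`,
`B (J x) (J (e i)) = - ν B x (e i)`.  `V = U + U^⊥`, because
`x - ∑ i, (B x (J (e i)) • e i - B x (e i) • J (e i)) ∈ U^⊥` for all `x`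
(note `B (J (e i)) (e i) = - 1`).
So the restriction of `B` to `U^⊥` is nondegenerate, and
(1) for `U^⊥` (as a space, or repeat the argument of (1) inside `V`) gives `e' ∈ U^⊥` with
`b(e', e') = 1`, `B e' e' = 0`; adding it to the family contradicts the maximality.
(One may also do an induction on `m` over all spaces `V`.) -/
def S_BAS : Prop :=
  ∀ (F V : Type) [Field F] [Finite F] [AddCommGroup V] [Module F V] [Finite V]
    (B : V →ₗ[F] V →ₗ[F] F) (ν : F) (J : Module.End F V) (m : ℕ), (2 : F) ≠ 0 → ¬ IsSquare ν →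
    Sy B → Rt B ν J → finrank F V = 2 * m →
    ∃ e : Fin m → V, (∀ i j, B (e i) (e j) = 0) ∧
      ∀ i j, B (e i) (J (e j)) = if i = j then 1 else 0

/-- **HERM.**  Two spaces with a skew-adjoint square root of `ν` and of the same dimension are
isometric by an isometry intertwining the square roots.

Proof.  Take families `e`, `e'` by BAS for both.  The `2m` vectors `e i, J (e i)` are linearly
independent (Gram matrix: a relation `∑ a_i e_i + b_i J e_i = 0` paired with `J e_j` gives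
`a_j = 0`, as `B (J x) (J y) = - ν B x y`; paired with `e_j` gives `b_j = 0`), so they are
a basis (indexed by `Fin m ⊕ Fin m`); let `φ` map `e i ↦ e' i`, `J (e i) ↦ J' (e' i)`.
`φ J = J' φ` on the basis because `J² = ν`, `J'² = ν`; the values of the forms on the
bases agree. -/
def S_HERM : Prop :=
  ∀ (F V W : Type) [Field F] [Finite F] [AddCommGroup V] [Module F V] [Finite V]
    [AddCommGroup W] [Module F W] [Finite W]
    (B : V →ₗ[F] V →ₗ[F] F) (B' : W →ₗ[F] W →ₗ[F] F) (ν : F) (J : Module.End F V)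
    (J' : Module.End F W) (m : ℕ), (2 : F) ≠ 0 → ¬ IsSquare ν →
    Sy B → Sy B' → Rt B ν J → Rt B' ν J' → finrank F V = 2 * m → finrank F W = 2 * m →
    ∃ φ : V ≃ₗ[F] W, (∀ x y, B' (φ x) (φ y) = B x y) ∧ ∀ x, φ (J x) = J' (φ x)

/-- **NORM.**  If `P` is monic and does not vanish at `±2ν`, then there are `u0, u1` with
`u0² - ν u1² ≡ ν - (4ν)⁻¹ X²` modulo `P`.

Proof.  We show more: for `c ∈ F[X]` coprime to `P ≠ 0` there are `u0, u1` with
`P ∣ u0² - ν u1² - c`.  Induction with `UniqueFactorizationMonoid.induction_on_coprime` (or on the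
factorization of `P`).  Units `P`: trivial.  Coprime products `P = P₁ P₂`: Chinese remainder
theorem.  Prime powers `P = f^k`, by induction on `k ≥ 1`: for `k = 1`, `E = F[X]/(f)` is a finite
field of odd characteristic and `x² - ν y² = c` is solvable in `E`
(`FiniteField.exists_root_sum_quadratic`, or pigeonhole), and `c ≠ 0` in `E`.
Step `k → k + 1`: let `u0² - ν u1² - c = f^k t`.  As `f ∤ c`, `f` does not divide both `u0` and
`u1`; if `f ∤ u0`, replace `u0` by `u0 + f^k r`, where `2 u0 r ≡ - t` modulo `f`; if `f ∤ u1`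
replace `u1` by `u1 + f^k r` with `2 ν u1 r ≡ t` modulo `f`.
Finally `c = ν - (4ν)⁻¹ X² = - (4ν)⁻¹ (X - 2ν) (X + 2ν)` is coprime to `P`, because
`P(2ν) ≠ 0 ≠ P(-2ν)`. -/
def S_NORM : Prop :=
  ∀ (F : Type) [Field F] [Finite F] (ν : F) (P : F[X]), (2 : F) ≠ 0 → ν ≠ 0 → P.Monic → Cp ν P →
    ∃ u0 u1 : F[X], Vu ν P u0 u1

/-- **DUAL.**  The number of functionals on `R = F[X]/(P)` without a nonzero ideal in the kernel is
the number of units of `R`.

Proof.  Let `d = natDegree P`.  If `d = 0` then `R = 0` has one functional and one unit (`ND` holds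
trivially).  Otherwise let `ℓ₀(r)` be the coefficient of `X^(d-1)` in the
representative of degree `< d` of `r` (`AdjoinRoot.modByMonicHom`, or the power basis).  If `r ≠ 0`
has the representative `p` of degree `e < d` then `X^(d-1-e) p` has degree `d - 1`, and
`ℓ₀(r x^(d-1-e)) ≠ 0` is the leading coefficient of `p`; so `ℓ₀` is `ND`.  Hence the linear map
`r ↦ (s ↦ ℓ₀(r s))` from `R` to `Dual F R` is injective, so bijective (finite sets of the same
cardinality `|F|^d`, or dimensions).  The functional belonging to `r` is `ND` if and only if `r` is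
not a zero divisor
(`ℓ₀(r t s) = 0` for all `s` iff `r t = 0`), if and only if `r` is a unit (`R` is finite). -/
def S_DUAL : Prop :=
  ∀ (F : Type) [Field F] [Finite F] (P : F[X]), P.Monic →
    Nat.card {l : AdjoinRoot P →ₗ[F] F // ND l} = Nat.card (AdjoinRoot P)ˣ

/-- **FRM.**  The model space.

Proof.  `x₁x₂ - x₂x₁ = 0`; if `ℓ(x₁y₂ - x₂y₁) = 0` for all `y`, then `y = (0, s)` gives `x₁ = 0`
and `y = (s, 0)` gives `x₂ = 0` by `ND`.  `jop` has square `ν` by definition;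
`ℓ(ν x₂ y₂ - x₁ y₁) = - ℓ(x₁ y₁ - x₂ ν y₂)`.  The finrank of `R × R` is `2 natDegree P`
(power basis). -/
def S_FRM : Prop :=
  ∀ (F : Type) [Field F] (ν : F) (P : F[X]), P.Monic →
    (∀ l : AdjoinRoot P →ₗ[F] F, ND l → Sy (frm l)) ∧
    (∀ l : AdjoinRoot P →ₗ[F] F, Rt (frm l) ν (jop ν P)) ∧
    finrank F (AdjoinRoot P × AdjoinRoot P) = 2 * P.natDegree

/-- **KOP.**  The model of `J'`.

Proof.  Let `ξ` be the root, `D(a + jb) = jξ(a + jb)/(2ν)`, `M(c) = u c̄` with `u = u0 + j u1`,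
`kop = D + M`.  `D² = ξ²/(4ν)`, `DM + MD = 0`, `M² = u ū = u0² - ν u1² = ν - ξ²/(4ν)` by `Vu`.
All are explicit computations with the two coordinates (use `ring` /`linear_combination` in
`AdjoinRoot P` after writing `c • x = algebraMap F _ c * x`).  Skewness:
`frm (kop x) y = - frm x (kop y)` is the computation
`(kop x)₁ y₂ - (kop x)₂ y₁ + x₁ (kop y)₂ - x₂ (kop y)₁ = 0`.
`Zop jop kop (a, b) = (ξ a, ξ b)`, so `p(Z)(a, b) = (p a, p b)` for all polynomials `p` (with
`mk P p`); then `Nop ν jop kop (a, b) = (u0 a - ν u1 b, u1 a - u0 b)`, and the three conditions of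
`Fr` for `w = (1, 0)` are clear (`AdjoinRoot.mk_surjective`). -/
def S_KOP : Prop :=
  ∀ (F : Type) [Field F] (ν : F) (P u0 u1 : F[X]), (2 : F) ≠ 0 → ν ≠ 0 → Vu ν P u0 u1 →
    (∀ l : AdjoinRoot P →ₗ[F] F, Rt (frm l) ν (kop ν P u0 u1)) ∧
    (∀ (p : F[X]) (x : AdjoinRoot P × AdjoinRoot P),
      aeval (Zop (jop ν P) (kop ν P u0 u1)) p x = (AdjoinRoot.mk P p * x.1, AdjoinRoot.mk P p * x.2)) ∧
    (∀ x : AdjoinRoot P × AdjoinRoot P, Nop ν (jop ν P) (kop ν P u0 u1) x =
      (AdjoinRoot.mk P u0 * x.1 - ν • (AdjoinRoot.mk P u1 * x.2),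
        AdjoinRoot.mk P u1 * x.1 - AdjoinRoot.mk P u0 * x.2)) ∧
    Fr ν P u0 u1 (jop ν P) (kop ν P u0 u1) (1, 0)

/-- **BACK.**  Transport of the model to `V`.

Proof.  `J' = φ kop φ⁻¹` (`LinearEquiv.conj`), `J = φ jop φ⁻¹`.  So `Zop J J' = φ Zop(jop, kop) φ⁻¹`,
`p(Zop J J') (φ x) = φ (p(Zop jop kop) x)`, `Nop ν J J' (φ x) = φ (Nop ν jop kop x)`; everything
follows from KOP. -/
def S_BACK : Prop :=
  ∀ (F V : Type) [Field F] [AddCommGroup V] [Module F V] (B : V →ₗ[F] V →ₗ[F] F) (ν : F)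
    (J : Module.End F V) (P u0 u1 : F[X]) (l : AdjoinRoot P →ₗ[F] F)
    (φ : (AdjoinRoot P × AdjoinRoot P) ≃ₗ[F] V), (2 : F) ≠ 0 → ν ≠ 0 → Vu ν P u0 u1 →
    (∀ x y, B (φ x) (φ y) = frm l x y) → (∀ x, φ (jop ν P x) = J (φ x)) →
    Rt B ν (φ.conj (kop ν P u0 u1)) ∧ Fr ν P u0 u1 J (φ.conj (kop ν P u0 u1)) (φ (1, 0))

/-- **MAP.**  A frame gives coordinates.

Proof.  Let `R = AdjoinRoot P`.  By `Fr.zero`, `r ↦ r(Z)` is a well defined algebra map
`R → End V` (`AdjoinRoot.liftAlgHom` or `AdjoinRoot.lift`).  Let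
`φ(a, b) = a(Z) w + J (b(Z) w)`, linear and surjective by `Fr.gen`, bijective because
`finrank (R × R) = 2 natDegree P = finrank V`.  `φ ∘ jop = J ∘ φ` since `J² = ν`, `J' = (2ν)⁻¹ J Z + N`,
`N (a(Z) w + J b(Z) w) = (a(Z) - J b(Z)) N w = (a(Z) - J b(Z)) (u0(Z) + J u1(Z)) w` by ALG and
`Fr.eig`, which is `φ (u0 a - ν u1 b, u1 a - u0 b)`; so `φ ∘ kop = J' ∘ φ`.
Let `ℓ(r) = B w (J (r(Z) w))`.  For `c ∈ F[Z]`: `B w (c w) = B (c w) w = - B w (c w)`, so
`B w (c w) = 0`.  Hence `B (a w) (a' w) = 0`, `B (J b w) (J b' w) = - ν B (b w) (b' w) = 0`,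
`B (a w) (J b' w) = ℓ(a b')`, `B (J b w) (a' w) = - B (b w) (J a' w) = - ℓ(b a')`;
in total `B (φ x) (φ y) = frm ℓ x y`.  `ND ℓ`: if `ℓ(r s) = 0` for all `s` then
`B (φ (r, 0)) (φ y) = ℓ(r y₂) = 0` for all `y`, so `φ (r, 0) = 0` and `r = 0`. -/
def S_MAP : Prop :=
  ∀ (F V : Type) [Field F] [AddCommGroup V] [Module F V] [FiniteDimensional F V]
    (B : V →ₗ[F] V →ₗ[F] F) (ν : F) (J J' : Module.End F V) (P u0 u1 : F[X]) (w : V),
    (2 : F) ≠ 0 → ν ≠ 0 → Sy B → Rt B ν J → Rt B ν J' → P.Monic →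
    finrank F V = 2 * P.natDegree → Fr ν P u0 u1 J J' w →
    ∃ (l : AdjoinRoot P →ₗ[F] F) (φ : (AdjoinRoot P × AdjoinRoot P) ≃ₗ[F] V), ND l ∧
      (∀ x y, B (φ x) (φ y) = frm l x y) ∧ (∀ x, φ (jop ν P x) = J (φ x)) ∧
      (∀ x, φ (kop ν P u0 u1 x) = J' (φ x)) ∧ φ (1, 0) = w

/-- **TORS.**  The number of coordinate maps with a given form is the number of isometries
commuting with `J`.

Proof.  By FRM and HERM there is one such map `φ₀`; `φ ↦ φ₀⁻¹.trans φ` is a bijection from the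
set on the left to `{g // Ism B g ∧ Cm J g}`.  (`AdjoinRoot P` is finite: `P` is monic and `F` is
finite, so it is a finitely generated module over `F`.) -/
def S_TORS : Prop :=
  ∀ (F V : Type) [Field F] [Finite F] [AddCommGroup V] [Module F V] [Finite V]
    (B : V →ₗ[F] V →ₗ[F] F) (ν : F) (J : Module.End F V) (P : F[X])
    (l : AdjoinRoot P →ₗ[F] F), (2 : F) ≠ 0 → ¬ IsSquare ν → Sy B → Rt B ν J → P.Monic →
    finrank F V = 2 * P.natDegree → ND l →
    Nat.card {φ : (AdjoinRoot P × AdjoinRoot P) ≃ₗ[F] V //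
      (∀ x y, B (φ x) (φ y) = frm l x y) ∧ ∀ x, φ (jop ν P x) = J (φ x)} = cn B J

/-- **CNT.**  The number of pairs `(J', w)`, `w` a frame for `J'`.

Proof.  Consider the set `T` of the pairs `(ℓ, φ)`, `ℓ` an `ND` functional and `φ` as in TORS
for `ℓ`; by TORS, `|T| = #ND * cn B J` (`Nat.card` of a sigma type with fibres of constant size).
The map `T → {(J', w)}`, `(ℓ, φ) ↦ (φ kop φ⁻¹, φ (1, 0))` is well defined
by BACK and surjective by MAP.  It is injective: `φ` intertwines `jop` with `J` and `kop` with `J'`,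
so it intertwines `p(Zop jop kop)` with `p(Zop J J')`, and by KOP
`φ (mk a, mk b) = φ (a(Z) (1, 0) + jop (b(Z) (1, 0))) = a(Z) w + J (b(Z) w)` is determined by
`(J', w)`; `ℓ(r) = frm ℓ (1, 0) (0, r) = B (φ (1, 0)) (φ (0, r))` is determined as well. -/
def S_CNT : Prop :=
  ∀ (F V : Type) [Field F] [Finite F] [AddCommGroup V] [Module F V] [Finite V]
    (B : V →ₗ[F] V →ₗ[F] F) (ν : F) (J : Module.End F V) (P u0 u1 : F[X]),
    (2 : F) ≠ 0 → ¬ IsSquare ν → Sy B → Rt B ν J → P.Monic →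
    finrank F V = 2 * P.natDegree → Vu ν P u0 u1 →
    Nat.card {p : Module.End F V × V // Rt B ν p.1 ∧ Fr ν P u0 u1 J p.1 p.2} =
      Nat.card {l : AdjoinRoot P →ₗ[F] F // ND l} * cn B J

/-- **FIB.**  The number of frame vectors for one `J'`.

Proof.  Let `φ` be as in MAP for the frame `w`; it intertwines `jop`, `kop` with `J`, `J'`.  So
`w' = φ (a, b)` is a frame vector iff `(a, b)` satisfies `eig` and `gen` in the model `R × R`
(`zero` does not involve `w'`).  By KOP `eig` is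
`(u0 a - ν u1 b, u1 a - u0 b) = (u0 a + ν u1 b, u1 a + u0 b)`, i.e. `2 ν u1 b = 0 = 2 u0 b`, i.e.
`u0 b = u1 b = 0`.  This implies `(u0² - ν u1²) b = 0`, i.e. `(ν - (4ν)⁻¹ ξ²) b = 0`, `ξ` the root,
and as `ν - (4ν)⁻¹ X² = - (4ν)⁻¹ (X - 2ν) (X + 2ν)` is coprime to `P` by `Cp`, `b = 0`.
So `eig` iff `b = 0`.  For `b = 0`, `gen` means that all `(c a, d a)`
(`c, d ∈ R`) exhaust `R × R`, i.e. that `a` is a unit.  So the frame vectors are the `φ (a, 0)`,
`a` a unit. -/
def S_FIB : Prop :=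
  ∀ (F V : Type) [Field F] [AddCommGroup V] [Module F V] [FiniteDimensional F V]
    (B : V →ₗ[F] V →ₗ[F] F) (ν : F) (J J' : Module.End F V) (P u0 u1 : F[X]) (w : V),
    (2 : F) ≠ 0 → ν ≠ 0 → Sy B → Rt B ν J → Rt B ν J' → P.Monic → Cp ν P →
    finrank F V = 2 * P.natDegree → Vu ν P u0 u1 → Fr ν P u0 u1 J J' w →
    Nat.card {w' : V // Fr ν P u0 u1 J J' w'} = Nat.card (AdjoinRoot P)ˣ

/-- **JP.**  The number of framed `J'` of a given type.

Proof.  The set `{p // Rt B ν p.1 ∧ Fr ν P u0 u1 J p.1 p.2}` maps onto the set on the left by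
`p ↦ p.1`, with fibres of size `|R^×|` by FIB; so by CNT and DUAL
`N * |R^×| = #ND * cn = |R^×| * cn` and `|R^×| > 0` is finite. -/
def S_JP : Prop :=
  ∀ (F V : Type) [Field F] [Finite F] [AddCommGroup V] [Module F V] [Finite V]
    (B : V →ₗ[F] V →ₗ[F] F) (ν : F) (J : Module.End F V) (P u0 u1 : F[X]),
    (2 : F) ≠ 0 → ¬ IsSquare ν → Sy B → Rt B ν J → P.Monic → Cp ν P →
    finrank F V = 2 * P.natDegree → Vu ν P u0 u1 →
    Nat.card {J' : Module.End F V // Rt B ν J' ∧ ∃ w, Fr ν P u0 u1 J J' w} = cn B J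

/-- **MIN.**  The minimal polynomial of `Z` for a framed `J'`.

Proof.  `minpoly ∣ P` by `Fr.zero`, both are monic.  Let `d` be the degree of `μ = minpoly F Z`.
By `Fr.gen` and division with remainder by `μ`, every `v ∈ V` is `a(Z) w + J (b(Z) w)` with
`a, b` of degree `< d`, so `V` is the image of a space of dimension `2 d`
(`Polynomial.degreeLT F d × Polynomial.degreeLT F d`, or `2d` vectors
`Z^i w, J Z^i w`, `i < d`, span `V`), and `2 natDegree P = finrank V ≤ 2 d`. -/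
def S_MIN : Prop :=
  ∀ (F V : Type) [Field F] [AddCommGroup V] [Module F V] [FiniteDimensional F V] (ν : F)
    (J J' : Module.End F V) (P u0 u1 : F[X]) (w : V), P.Monic → finrank F V = 2 * P.natDegree →
    Fr ν P u0 u1 J J' w → minpoly F (Zop J J') = P

/-- **NI.**  If `(J, J')` is good then `N` is injective.

Proof.  Suppose `ker N ≠ 0`.  It is stable under `Z` and `J` (ALG), and `(Z - 2ν)(Z + 2ν) = Z² - 4ν²
= - 4ν N²` is `0` on `ker N`.  So there is `w ≠ 0` in `ker N` with `Z w = 2 ε ν w`, `ε = ±1`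
(take `x ≠ 0` in `ker N`; if `(Z - 2ν) x = 0` take `x`, else `w = (Z - 2ν) x`, `Z w = - 2ν w`).
Then `J' w = (2ν)⁻¹ J Z w = ε J w` and `J' J w = Z w - J J' w = ε ν w`.
Let `S x = B(x, J w) w - B(x, w) J w`.  Then `S J = J S`, `S J' = J' S`, `S` is self-adjoint
(direct computations with the formulas above), and `S² = h S`, where `h = B(w, J w)`.
Also `w, J w` are linearly independent since `ν` is not a square, and `S x = 0` for all `x`
would give `B(x, w) = 0` for all `x`, `w = 0`.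
Case `h = 0`: `g = 1 + J S` is an isometry (`J S` is skew-adjoint, `(J S)² = ν S² = 0`), commutes
with `J`; it commutes with `J'`: `J S J' = J J' S`, and
`S x ∈ ⟨w, J w⟩` and on `⟨w, J w⟩` one has `J' = ε J` (`J' w = ε J w`, `J' J w = ε ν w = ε J J w`), so
`J' J S = ε J J S = J J' S`.  It is not `1` as `J S ≠ 0`, and not `-1` as
`(J S)² = 0 ≠ 4`.  Its inverse is `1 - J S`.
Case `h ≠ 0`: `g = 1 - (2/h) S` is an isometry with `g² = 1` (self-adjoint, `S² = h S`), commutes with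
`J, J'`, `g w = - w`, and it fixes some nonzero vector because `S` has rank `≤ 2 < finrank V`.  So
`g ≠ ±1` (`2 ≠ 0`).  Both contradict `Good`. -/
def S_NI : Prop :=
  ∀ (F V : Type) [Field F] [AddCommGroup V] [Module F V] [FiniteDimensional F V]
    (B : V →ₗ[F] V →ₗ[F] F) (ν : F) (J J' : Module.End F V),
    (2 : F) ≠ 0 → ¬ IsSquare ν → Sy B → Rt B ν J → Rt B ν J' → 2 < finrank F V →
    Good B J J' → ∀ x, Nop ν J J' x = 0 → x = 0

/-- **CP.**  If `N` is injective then the minimal polynomial of `Z` does not vanish at `±2ν`.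

Proof.  If `μ(2ν) = 0` for `μ = minpoly F Z` then `2ν` is an eigenvalue of `Z`
(`Module.End.hasEigenvalue_of_isRoot`), and for an
eigenvector `x`, `N² x = ν x - (4ν)⁻¹ 4ν² x = 0`, so `x = 0`.  Same for `-2ν`. -/
def S_CP : Prop :=
  ∀ (F V : Type) [Field F] [AddCommGroup V] [Module F V] [FiniteDimensional F V]
    (B : V →ₗ[F] V →ₗ[F] F) (ν : F) (J J' : Module.End F V),
    (2 : F) ≠ 0 → ν ≠ 0 → Rt B ν J → Rt B ν J' → (∀ x, Nop ν J J' x = 0 → x = 0) →
    Cp ν (minpoly F (Zop J J'))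

/-- **PR.**  If `(J, J')` is good then the minimal polynomial of `Z` is a power of an irreducible
polynomial.

Proof.  Let `μ = minpoly F Z`, monic, not a unit because `V ≠ 0`.  Let `f` be a monic irreducible
factor of `μ`, `μ = f^k μ'` with `k ≥ 1`, `f ∤ μ'`.  Suppose `μ'` is not a unit; then
`1 = a f^k + b μ'` for some polynomials; let `e = (b μ')(Z)`, so `e² = e` (`e (1 - e)` is a
multiple of `μ(Z) = 0`), `e ≠ 0, 1` (if `e = 0` then `μ ∣ b μ'`, so `f^k ∣ b`, so `f ∣ 1`;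
if `e = 1` then `(a f^k)(Z) = 0`, `μ ∣ a f^k`, `μ' ∣ a`, so `μ' ∣ 1`).
`g = 2 e - 1` has `g² = 1`, is self-adjoint (ALG), so an isometry, commutes with `J, J'` (ALG),
and `g ≠ ±1`.  This contradicts `Good`.  So `μ' ` is a unit, and it is monic, so `μ = f^k`. -/
def S_PR : Prop :=
  ∀ (F V : Type) [Field F] [AddCommGroup V] [Module F V] [FiniteDimensional F V]
    (B : V →ₗ[F] V →ₗ[F] F) (ν : F) (J J' : Module.End F V),
    (2 : F) ≠ 0 → ν ≠ 0 → Rt B ν J → Rt B ν J' → 0 < finrank F V →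
    Good B J J' → Primary (minpoly F (Zop J J'))

/-- **CY.**  If `(J, J')` is good and the minimal polynomial `P` of `Z` is `f^k`, `N` injective, then
`finrank V = 2 deg P` and for all valid `u0, u1` there is a frame vector.

Proof.  Let `u = u0(Z) + J u1(Z)`, `ū = u0(Z) - J u1(Z)`.  By `Vu` and ALG,
`u ū = ū u = u0(Z)² - ν u1(Z)² = ν - (4ν)⁻¹ Z² = N²` (as `P(Z) = 0`), which is injective, so
bijective; so `u`, `ū` are invertible; they commute with `J` and `Z`; `N u = ū N`.  Let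
`N₀ = u⁻¹ N`: `N₀² = u⁻¹ N u⁻¹ N = u⁻¹ ū⁻¹ N² = 1`, `N₀ J = - J N₀`, `N₀ Z = Z N₀`, `N₀` is
skew-adjoint (`B (u x) y = B x (ū y)`, `N ū⁻¹ = u⁻¹ N`, so
`B (u⁻¹ N x) y = B (N x) (ū⁻¹ y) = - B x (N ū⁻¹ y) = - B x (u⁻¹ N y)`).
Let `W = ker (N₀ - 1)`.  `V = W ⊕ J W` (`J` maps `W` onto `ker (N₀ + 1)`), `W` is `Z`-stable and
`B(x, y) = 0` for `x, y ∈ W` (`B(x, y) = B(N₀ x, y) = - B(x, N₀ y) = - B(x, y)`); same on `J W`.
`b(x, y) = B(x, J y)` is symmetric, and `b(Z x, y) = b(x, Z y)`.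
Let `r = f(Z)^(k-1)`, `k ≥ 1`.  `r ≠ 0` since `P = f^k` is the minimal polynomial; as `r` commutes
with `J`, `r` is not `0` on `W`; so there are `x ∈ W` with `r x ≠ 0` and `y ∈ V` with
`B(y, J r x) ≠ 0`, and one may take `y ∈ W` (write `y = y₁ + J y₂`; `J r x ∈ J W` and
`B(J W, J W) = 0`).  By polarisation of the symmetric form
`(x, y) ↦ b(x, r y)` on `W` there is `w ∈ W` with `b(w, r w) ≠ 0`.
Let `U = {a(Z) w + J c(Z) w}`, stable under `J`, `Z`, `N` (`N w = u N₀ w = u w`), `J'`.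
`U ∩ U^⊥ = 0`: let `x = a(Z) w + J c(Z) w ∈ U^⊥`, `x ≠ 0`.  Pairing with
`J d(Z) w` and `d(Z) w` for all `d` gives `B(w, J a(Z) d(Z) w) = 0` and `B(w, J c(Z) d(Z) w) = 0`
for all `d` (as `B(w, d(Z) w) = 0`).  If `a(Z) ≠ 0` then `f^k ∤ a`, so
`gcd(a, f^k) = f^i` with `i ≤ k - 1`, so `f^(k-1) = a d + f^k d'` for some `d, d'`, and
`b(w, r w) = B(w, J a(Z) d(Z) w) = 0`, a contradiction; so `a(Z) = 0` and likewise `c(Z) = 0`.
Hence `V = U ⊕ U^⊥`.  If `U ≠ V` then `g = 1` on `U`, `-1` on `U^⊥` is an isometry commuting with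
`J, J'` (both spaces are stable under `J, J'` by skewness), `g ≠ 1` and `g ≠ -1` (`w ∈ U`, `2 ≠ 0`),
a contradiction.  So `U = V`: `w` satisfies `zero`, `eig`, `gen`.
Dimension: `(a, c) ↦ a(Z) w + J c(Z) w` on pairs of polynomials modulo `P` is onto, and injective
by the argument just given (an element `x = 0` is in `U^⊥`), so `finrank V = 2 deg P`. -/
def S_CY : Prop :=
  ∀ (F V : Type) [Field F] [AddCommGroup V] [Module F V] [FiniteDimensional F V]
    (B : V →ₗ[F] V →ₗ[F] F) (ν : F) (J J' : Module.End F V) (P u0 u1 f : F[X]) (k : ℕ),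
    (2 : F) ≠ 0 → ν ≠ 0 → Sy B → Rt B ν J → Rt B ν J' → 0 < finrank F V →
    (∀ x, Nop ν J J' x = 0 → x = 0) → P = minpoly F (Zop J J') → Irreducible f → P = f ^ k →
    Good B J J' → Vu ν P u0 u1 → finrank F V = 2 * P.natDegree ∧ ∃ w, Fr ν P u0 u1 J J' w

/-- **CNTP.**  Few monic polynomials of degree `m` are powers of irreducible polynomials.

Proof.  `Q = |F| ≥ 3`.  A monic primary `P = f^k` of degree `m` can be written with `f` monic
(if `f^k` is monic then the leading coefficient `c` of `f` has `c^k = 1`, and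
`P = (c⁻¹ f)^k`) and irreducible of degree `d`, `d k = m`, `d ∣ m`.  So the number is at most the sum over
`d ∣ m` of `N_d`, the number of monic irreducible polynomials of degree `d`.
`d N_d ≤ Q^d`: with `E = GaloisField`-type extension `E` of `F` of degree `d` (e.g. inside an
algebraic closure, or `FiniteField.Extension`), every monic irreducible polynomial of degree `d`
has `d` distinct roots in `E` (it divides `X^(Q^d) - X`), and distinct ones have disjoint sets of
roots.  (Alternatively the distinct monic irreducible polynomials of degree `d` divide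
`X^(Q^d) - X`, so their product does, so the degree `d N_d ≤ Q^d`:
`Irreducible f, natDegree f = d ⇒ f ∣ X^(Q^d) - X` as
`F[X]/(f)` is a field with `Q^d` elements: `FiniteField.pow_card`.)
Then `m * number ≤ ∑_{d ∣ m} (m/d) Q^d ≤ Q^m + ∑_{d ∣ m, d < m} m Q^d`; as `m` is odd, the proper
divisors are `≤ m/3`, so with `e = m/3` (natural number division, `3 e ≤ m`, `e ≥ 1`)
`∑_{1 ≤ d ≤ e} m Q^d ≤ m Q^e * 3/2 ≤ Q^m` because `3 m ≤ 2 Q^(m - e)`:
`m - e ≥ 2m/3`; `m = 3`: `9 ≤ 18`; `m = 4` does not occur (odd); `m = 5`: `15 ≤ 2 * 81`;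
in general `3 m ≤ 2 * 3^(m - m/3)` for `m ≥ 3` (induction in steps of 3). -/
def S_CNTP : Prop :=
  ∀ (F : Type) [Field F] [Finite F] (m : ℕ), (2 : F) ≠ 0 → Odd m → 3 ≤ m →
    m * Nat.card {P : F[X] // P.Monic ∧ P.natDegree = m ∧ Primary P} ≤ 2 * Nat.card F ^ m

/-- **CNTC.**  Many monic polynomials of degree `m` do not vanish at `±2ν`.

Proof.  Let `Q = |F| ≥ 3`.  There are `Q^m` monic polynomials of degree `m`.  `P ↦ (P(2ν), P(-2ν))`:
every pair of values is taken exactly `Q^(m-2)` times (`2ν ≠ -2ν`; `m ≥ 2`: `P = M A + r`, where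
`M = (X - 2ν)(X + 2ν)`, `A` monic of degree `m - 2` and `r` is the linear polynomial with the
prescribed values), so the number is `(Q-1)² Q^(m-2)` and `3 (Q-1)² ≥ Q²` for `Q ≥ 3`.
Only `≥` is needed: the map `(A, c₁, c₂) ↦ M A + r_{c₁, c₂}`, `A` monic of degree `m - 2`,
`c₁, c₂ ≠ 0`, is injective with values in the set. -/
def S_CNTC : Prop :=
  ∀ (F : Type) [Field F] [Finite F] (ν : F) (m : ℕ), (2 : F) ≠ 0 → ν ≠ 0 → 2 ≤ m →
    Nat.card F ^ m ≤ 3 * Nat.card {P : F[X] // P.Monic ∧ P.natDegree = m ∧ Cp ν P}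

/-- **TOT.**  Few `J'` are good.

Proof.  For monic `P` of degree `m` with `Cp ν P` choose `u0(P), u1(P)` by NORM, and let
`X_P = {J' // Rt B ν J' ∧ ∃ w, Fr ν P (u0 P) (u1 P) J J' w}`; `|X_P| = cn B J =: c` by JP.
The `X_P` are disjoint for different `P` by MIN (`P = minpoly F (Zop J J')`).
So `c * #{P monic of degree m, Cp} ≤ #{J' // Rt}`.  If `J'` is good then `N` is
injective (NI), `P = minpoly F Z` is `Cp` (CP), primary (PR), monic, of degree `m` and
`J' ∈ X_P` (CY).  So `#{J' good} ≤ c * #{P monic, degree m, Primary}` (for those with `Cp`).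
By CNTP and CNTC, with `Q = |F|`:
`m * #{good} ≤ c * 2 Q^m ≤ c * 6 * #{Cp} ≤ 6 * #{Rt}`. -/
def S_TOT : Prop :=
  ∀ (F V : Type) [Field F] [Finite F] [AddCommGroup V] [Module F V] [Finite V]
    (B : V →ₗ[F] V →ₗ[F] F) (ν : F) (J : Module.End F V) (m : ℕ),
    (2 : F) ≠ 0 → ¬ IsSquare ν → Sy B → Rt B ν J → Odd m → 3 ≤ m → finrank F V = 2 * m →
    m * Nat.card {J' : Module.End F V // Rt B ν J' ∧ Good B J J'} ≤
      6 * Nat.card {J' : Module.End F V // Rt B ν J'}

/-- **ORB.**  Few conjugates of `J` are good.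

Proof.  The map `g ↦ g J g⁻¹ = g.conj J` from `{g // Ism B g}` to `{J' // Rt B ν J'}` is well defined
and onto by HERM (applied to `(V, B, J)` and `(V, B, J')`), and its fibres all have `cn B J`
elements (`g J g⁻¹ = g₀ J g₀⁻¹` iff `g₀⁻¹ g` is an isometry commuting with `J`).  So
`#{g // Ism B g} = cn B J * #{J' // Rt B ν J'}` and
`#{g // Ism B g ∧ Good B J (g.conj J)} = cn B J * #{J' // Rt B ν J' ∧ Good B J J'}`; apply TOT. -/
def S_ORB : Prop :=
  ∀ (F V : Type) [Field F] [Finite F] [AddCommGroup V] [Module F V] [Finite V]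
    (B : V →ₗ[F] V →ₗ[F] F) (ν : F) (J : Module.End F V) (m : ℕ),
    (2 : F) ≠ 0 → ¬ IsSquare ν → Sy B → Rt B ν J → Odd m → 3 ≤ m → finrank F V = 2 * m →
    m * Nat.card {g : V ≃ₗ[F] V // Ism B g ∧ Good B J (g.conj J)} ≤
      6 * Nat.card {g : V ≃ₗ[F] V // Ism B g}

/-- **RED.**  A reducible isometry preserves a subspace `U` such that for all isometries `g` some
nontrivial isometry preserves `U` and `g U`.

Proof.  For `w ≠ 0` the transvection `x ↦ x + B(x, w) w` is an isometry (inverse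
`x ↦ x - B(x, w) w`); it fixes `w^⊥`, and it is not `±1` (it is not `1` as `B(x, w) ≠ 0` for some
`x`; it fixes `w`, so if it were `-1` then `2 w = 0`, `w = 0`).
Let `U` be a nonzero `s`-stable subspace of the least possible dimension; by hypothesis it is
`≠ V`.  `U^⊥` is `s`-stable (`s` is a bijective isometry, `s U = U` by finite dimension), so
`U ∩ U^⊥` is `0` or `U` by minimality.
(a) `U ∩ U^⊥ = 0`: `V = U ⊕ U^⊥`, both of even dimension (they carry nondegenerate alternating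
forms; alternatively: see below) and the sum of
the dimensions is `2m`, `m` odd, so the dimensions are not equal; replace `U` by the smaller of
`U`, `U^⊥`; now `dim U < m`.  So for any isometry `g`,
`dim (U + g U) < 2m` and there is `w ≠ 0` in `(U + g U)^⊥`; the transvection of `w` fixes `U` and
`g U` pointwise.  [If the even dimension is inconvenient: the parity is really needed, the rank of an
alternating form is even; one proof: a nondegenerate alternating form on `U` has an invertible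
matrix `A` with `Aᵀ = -A`, so `det A = (-1)^n det A` and `n` is even as `2 ≠ 0`.]
(b) `U ⊆ U^⊥`, so `dim U ≤ m`.  Let `g` be an isometry.  If `U + g U ≠ V`, use a transvection as in (a)
(`w ≠ 0` in `(U + g U)^⊥`).  If `U + g U = V` then `dim U = m ≥ 3`; take `w ≠ 0` in `U`, and `w' ≠ 0`
in `g U` with `B(w, w') = 0` (a hyperplane of `g U`, nonzero as `m ≥ 2`).  Let
`T x = B(x, w) w' + B(x, w') w`; `T` is skew-adjoint and `T w = T w' = 0`, so `T² = 0` and
`g' = 1 + T` is an isometry with inverse `1 - T`; `T U ⊆ ⟨w⟩ ⊆ U`, `T (g U) ⊆ ⟨w'⟩ ⊆ g U`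
(both are totally isotropic); `T ≠ 0` (`w, w'` are linearly independent since `U ∩ g U = 0` by
dimensions; choose `x` with `B(x, w) ≠ 0`) and
`1 + T ≠ -1` as `T² = 0`. -/
def S_RED : Prop :=
  ∀ (F V : Type) [Field F] [AddCommGroup V] [Module F V] [FiniteDimensional F V]
    (B : V →ₗ[F] V →ₗ[F] F) (m : ℕ) (s : V ≃ₗ[F] V), (2 : F) ≠ 0 → Sy B → Odd m → 3 ≤ m →
    finrank F V = 2 * m → Ism B s →
    (∃ U : Submodule F V, U ≠ ⊥ ∧ U ≠ ⊤ ∧ ∀ x ∈ U, s x ∈ U) →
    ∃ U : Submodule F V, U ≠ ⊥ ∧ U ≠ ⊤ ∧ (∀ x ∈ U, s x ∈ U) ∧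
      ∀ g : V ≃ₗ[F] V, Ism B g → ∃ x : V ≃ₗ[F] V, Ism B x ∧ ¬ Triv x ∧ (∀ y ∈ U, x y ∈ U) ∧
        ∀ y ∈ U, g.symm (x (g y)) ∈ U

/-- **IRR.**  An irreducible isometry commutes with some `J`.

Proof.  Let `E = F[s] ⊆ End V` (`Algebra.adjoin F {s}`); it is a field since `s` is irreducible
(every nonzero element has an `s`-stable kernel `≠ V`, so it is injective, so it is invertible in
the finite commutative ring `E`), `V = E v` for every `v ≠ 0`, so `|E| = |V| = |F|^(2m)`.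
(Alternatively `minpoly F s` is irreducible of degree `2m`, `E = AdjoinRoot (minpoly F s)`.)
The adjoint with respect to `B` maps `s` to `s⁻¹ ∈ E` and defines an `F`-automorphism `*` of `E`
with `** = 1`.  Let `q = |F|`.  `ν` is a square in `E`: `E^×` is cyclic of order `q^(2m) - 1` and
`ν^((q^(2m)-1)/2) = (ν^(q-1))^((q^(2m)-1)/(2(q-1))) = 1` (`(q^(2m)-1)/(q-1)` is even); so there is
`J ∈ E` with `J² = ν` (`FiniteField.isSquare_iff` or similar).  `(J*)² = ν`, so `J* = ± J`.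
Suppose `J* = J`.
Let `E₀` be the fixed field of `*`; `[E : E₀] ≤ 2`, and `J ∈ E₀ \ F`, so `[E₀ : F]` is even.
If `E₀ = E` then `s* = s`, `s² = 1`, so `s = ±1` in the field `E`, `E = F`, but `2m ≥ 2`.  So
`[E : E₀] = 2` and `[E : F] = 2 [E₀ : F]` is divisible by `4`, but it is `2m`, `m` odd.
(Alternatively: `*` is a power of Frobenius, `x ↦ x^(q^i)` with `0 ≤ i < 2m` and `*² = 1` gives
`i = 0` or `i = m`; `i = 0` is excluded as above; and `J^(q^m) = ν^((q^m - 1)/2) J = - J`, since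
`ν^((q-1)/2) = -1` and `(q^m - 1)/(q - 1)` is odd for odd `m`.)
So `J* = - J`, i.e. `B (J x) y = - B x (J y)`, and `J` commutes with `s`. -/
def S_IRR : Prop :=
  ∀ (F V : Type) [Field F] [Finite F] [AddCommGroup V] [Module F V] [Finite V]
    (B : V →ₗ[F] V →ₗ[F] F) (ν : F) (m : ℕ) (s : V ≃ₗ[F] V), (2 : F) ≠ 0 → ¬ IsSquare ν → Sy B →
    Odd m → finrank F V = 2 * m → Ism B s →
    (∀ U : Submodule F V, (∀ x ∈ U, s x ∈ U) → U = ⊥ ∨ U = ⊤) →
    ∃ J : Module.End F V, Rt B ν J ∧ ∀ x, s (J x) = J (s x)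

/-- `x` and `y` generate the isometry group modulo `±1`. -/
def Gen {F V : Type} [Field F] [AddCommGroup V] [Module F V] (B : V →ₗ[F] V →ₗ[F] F)
    (x y : V ≃ₗ[F] V) : Prop :=
  ∀ H : Subgroup (V ≃ₗ[F] V), (∀ h, Triv h → h ∈ H) → x ∈ H → y ∈ H → ∀ g, Ism B g → g ∈ H

/-- `{a t a⁻¹, b t b⁻¹}` is a total dominating set modulo `±1`. -/
def Dom {F V : Type} [Field F] [AddCommGroup V] [Module F V] (B : V →ₗ[F] V →ₗ[F] F)
    (t a b : V ≃ₗ[F] V) : Prop :=
  ∀ x : V ≃ₗ[F] V, Ism B x → ¬ Triv x → Gen B x (a * t * a⁻¹) ∨ Gen B x (b * t * b⁻¹)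

/-- **DOM.**  If `{a t a⁻¹, b t b⁻¹}` dominates then `t` commutes with some `J` such that
`(a J a⁻¹, b J b⁻¹)` is good.

Proof.  (i) Suppose `t` preserves a subspace `≠ 0, V`; let `U` be as in RED for `s = t`.  Let
`a, b` be isometries, we show that `Dom B t a b` fails.  Let `x` be as in RED for
`g = a⁻¹ b`: `x U ⊆ U` and `g⁻¹ x g U ⊆ U`.  Let `y = a x a⁻¹`, an isometry, not trivial.
`y` preserves `a U` and `y b U = a x g U ⊆ a g U = b U`.  If `Gen B y (a t a⁻¹)`, take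
`H = {h | h (a U) = a U}`, which contains `±1`, `y`, `a t a⁻¹` (by finite dimension, injective
maps `U → U` are onto); so all
isometries preserve `a U ≠ 0, V`.  But this is false: take `u ≠ 0` in `a U`; there is
`w ∉ a U` with `B(u, w) ≠ 0` (otherwise `B(u, ·)` vanishes outside the proper subspace `a U`,
whose complement spans `V`), and the transvection `x ↦ x + B(x, w) w` maps `u` out of `a U`.
Same for `b`.
(ii) Otherwise take `J` by IRR for `s = t`.  Let `Dom B t a b`; we show that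
`(a J a⁻¹, b J b⁻¹)` is good.
Let `x` be an isometry commuting with both and suppose it is not trivial.  If
`Gen B x (a t a⁻¹)`, let `H = {h | h commutes with a J a⁻¹}`; it contains `±1`, `x` and
`a t a⁻¹`; so every isometry commutes with `a J a⁻¹ =: J₁`.  But for `w ≠ 0` the
transvection `x ↦ x + B(x, w) w` does not: otherwise `B(J₁ x, w) w = B(x, w) J₁ w` for all `x`;
choose `x` with `B(x, w) ≠ 0`: then `J₁ w ∈ F w`, so `ν` is a square.  Same for `b`. -/
def S_DOM : Prop :=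
  ∀ (F V : Type) [Field F] [Finite F] [AddCommGroup V] [Module F V] [Finite V]
    (B : V →ₗ[F] V →ₗ[F] F) (ν : F) (m : ℕ) (t : V ≃ₗ[F] V), (2 : F) ≠ 0 → ¬ IsSquare ν → Sy B →
    Odd m → 3 ≤ m → finrank F V = 2 * m → Ism B t →
    (∀ a b : V ≃ₗ[F] V, Ism B a → Ism B b → ¬ Dom B t a b) ∨
    ∃ J : Module.End F V, Rt B ν J ∧ ∀ a b : V ≃ₗ[F] V, Ism B a → Ism B b → Dom B t a b →
      Good B (a.conj J) (b.conj J)

/-- **FIN.**  The count of the dominating pairs.

Proof.  Choose a nonsquare `ν` of `F` (exists as `2 ≠ 0`: `FiniteField.exists_nonsquare`), apply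
DOM.  In the first case the left side is `0`.  In the second case `Dom B t a b` implies
`Good B (a.conj J) (b.conj J)`, which is equivalent to `Good B J ((a⁻¹ b).conj J)` (conjugate
the isometries `g` by `a`).  So the number of pairs is at most
`#{(a, g) // Ism B a ∧ Ism B g ∧ Good B J (g.conj J)} = #{Ism} * #{g // Ism B g ∧ Good B J (g.conj J)}`
(substitute `g = a⁻¹ b`); apply ORB. -/
def S_FIN : Prop :=
  ∀ (F V : Type) [Field F] [Finite F] [AddCommGroup V] [Module F V] [Finite V]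
    (B : V →ₗ[F] V →ₗ[F] F) (m : ℕ) (t : V ≃ₗ[F] V), (2 : F) ≠ 0 → Sy B →
    Odd m → 3 ≤ m → finrank F V = 2 * m → Ism B t →
    m * Nat.card {p : (V ≃ₗ[F] V) × (V ≃ₗ[F] V) // Ism B p.1 ∧ Ism B p.2 ∧ Dom B t p.1 p.2} ≤
      6 * Nat.card {g : V ≃ₗ[F] V // Ism B g} ^ 2

/-- **GRP.**  Counting over the conjugacy class and over the group.

Proof.  The map `(a, b) ↦ (a s a⁻¹, b s b⁻¹)` from `G × G` onto `(s^G)²` has all fibres of size
`|C_G(s)|²`, and `|G| = |s^G| |C_G(s)|`.  So the first factor of the left side is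
`|C|² * #{x // ...}`, and both sides are `#{x // ...} * |C|² * |s^G|²`. -/
def S_GRP : Prop :=
  ∀ (G : Type) [Group G] [Finite G] (s : G) (Q : Set G → Prop),
    Nat.card {p : G × G // Q {p.1 * s * p.1⁻¹, p.2 * s * p.2⁻¹}} * Nat.card {y : G // IsConj s y} ^ 2 =
      Nat.card {x : Fin 2 → G // (∀ i, IsConj s (x i)) ∧ Q (Set.range x)} * Nat.card G ^ 2

end Pool.Agent.H330.P2
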